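import Pool.Agent.SW64.Basic

/-! Translation between self-avoiding walks (functions on `Fin (n + 1)` with values in the
cubic lattice) and self-avoiding words. -/

namespace SW64

open St

/-- `ω` is an `n`-step self-avoiding walk on the cubic lattice starting at the origin. -/
def IsSAW (n : ℕ) (ω : Fin (n + 1) → (Fin 3 → ℤ)) : Prop :=
  ω 0 = 0 ∧ (∀ i : Fin n, ∑ j, |ω i.succ j - ω i.castSucc j| = 1) ∧ Function.Injective ω

/-- Euclidean norm of a lattice point. -/
noncomputable def nrm (v : Fin 3 → ℤ) : ℝ := Real.sqrt (∑ j, (v j : ℝ) ^ 2)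

/-- The `p`-th moment of the end-to-end distance of the uniform `n`-step self-avoiding walk. -/
noncomputable def moment (p : ℝ) (n : ℕ) : ℝ :=
  (∑ᶠ ω ∈ {ω | IsSAW n ω}, nrm (ω (Fin.last n)) ^ p) / (Set.ncard {ω | IsSAW n ω} : ℝ)

/-- Euclidean norm of the displacement of a word. -/
noncomputable def rho (w : W) : ℝ := Real.sqrt ((X w : ℝ) ^ 2 + (Y w : ℝ) ^ 2 + (Z w : ℝ) ^ 2)

/-- The walk of a word. -/
def toWalk (n : ℕ) (w : W) : Fin (n + 1) → (Fin 3 → ℤ) :=
  fun i => ![X (w.take i), Y (w.take i), Z (w.take i)]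

lemma toWalk_apply0 (n : ℕ) (w : W) (i : Fin (n + 1)) : toWalk n w i 0 = X (w.take i) := rfl
lemma toWalk_apply1 (n : ℕ) (w : W) (i : Fin (n + 1)) : toWalk n w i 1 = Y (w.take i) := rfl
lemma toWalk_apply2 (n : ℕ) (w : W) (i : Fin (n + 1)) : toWalk n w i 2 = Z (w.take i) := rfl

lemma letter_inj {s t : St} (h1 : dx s = dx t) (h2 : dy s = dy t) (h3 : dz s = dz t) : s = t := by
  cases s <;> cases t <;> simp_all

lemma letter_abs (s : St) : |dx s| + |dy s| + |dz s| = 1 := by cases s <;> simp

lemma exists_letter {x y z : ℤ} (h : |x| + |y| + |z| = 1) :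
    ∃ s : St, dx s = x ∧ dy s = y ∧ dz s = z := by
  have hx : |x| = 0 ∨ |x| = 1 := by
    have := abs_nonneg x
    have := abs_nonneg y
    have := abs_nonneg z
    omega
  rcases hx with hx | hx
  · have hx0 : x = 0 := abs_eq_zero.1 hx
    subst hx0
    have hy : |y| = 0 ∨ |y| = 1 := by
      have := abs_nonneg y
      have := abs_nonneg z
      omega
    rcases hy with hy | hy
    · have hy0 : y = 0 := abs_eq_zero.1 hy
      subst hy0
      have hz : |z| = 1 := by simpa using h
      rcases (abs_eq (by norm_num : (0 : ℤ) ≤ 1)).1 hz with rfl | rfl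
      · exact ⟨c, rfl, rfl, rfl⟩
      · exact ⟨C, rfl, rfl, rfl⟩
    · have hz : z = 0 := abs_eq_zero.1 (by
        have := abs_nonneg z
        simp only [abs_zero] at h
        omega)
      subst hz
      rcases (abs_eq (by norm_num : (0 : ℤ) ≤ 1)).1 hy with rfl | rfl
      · exact ⟨b, rfl, rfl, rfl⟩
      · exact ⟨B, rfl, rfl, rfl⟩
  · have hy : y = 0 := abs_eq_zero.1 (by
      have := abs_nonneg y
      have := abs_nonneg z
      omega)
    have hz : z = 0 := abs_eq_zero.1 (by
      have := abs_nonneg y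
      have := abs_nonneg z
      omega)
    subst hy hz
    rcases (abs_eq (by norm_num : (0 : ℤ) ≤ 1)).1 hx with rfl | rfl
    · exact ⟨a, rfl, rfl, rfl⟩
    · exact ⟨A, rfl, rfl, rfl⟩

lemma take_succ_eq {w : W} {i : ℕ} (h : i < w.length) : w.take (i + 1) = w.take i ++ [w[i]] := by
  rw [List.take_add_one, List.getElem?_eq_getElem h]
  simp

lemma toWalk_IsSAW {n : ℕ} {w : W} (hn : w.length = n) (hw : SAW w) : IsSAW n (toWalk n w) := by
  refine ⟨?_, ?_, ?_⟩
  · ext j
    fin_cases j <;> simp [toWalk]
  · intro i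
    have hi : (i : ℕ) < w.length := by rw [hn]; exact i.2
    have h1 : w.take ((i : ℕ) + 1) = w.take i ++ [w[(i : ℕ)]] := take_succ_eq hi
    rw [Fin.sum_univ_three]
    simp only [toWalk_apply0, toWalk_apply1, toWalk_apply2, Fin.val_succ, Fin.val_castSucc, h1,
      X_append, Y_append, Z_append, X_cons, Y_cons, Z_cons, X_nil, Y_nil, Z_nil, add_zero,
      add_sub_cancel_left]
    exact letter_abs _
  · have key : ∀ i j : Fin (n + 1), i < j → toWalk n w i ≠ toWalk n w j := by
      intro i j hij he
      have hij' : (i : ℕ) < j := hij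
      have hj : (j : ℕ) ≤ w.length := by rw [hn]; exact Nat.lt_succ_iff.1 j.2
      have h1 : w.take i ++ (w.take j).drop i = w.take j := by
        have := List.take_append_drop (i : ℕ) (w.take j)
        rwa [List.take_take, min_eq_left hij'.le] at this
      have hne : (w.take j).drop i ≠ [] := by
        intro h0
        have := congrArg List.length h0
        simp only [List.length_drop, List.length_take, List.length_nil] at this
        omega
      have hinf : (w.take j).drop i <:+: w :=
        (List.drop_suffix _ _).isInfix.trans (List.take_prefix _ _).isInfix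
      refine hw _ hinf hne ⟨?_, ?_, ?_⟩
      · have h2 := congrFun he 0
        rw [toWalk_apply0, toWalk_apply0, ← h1, X_append] at h2
        omega
      · have h2 := congrFun he 1
        rw [toWalk_apply1, toWalk_apply1, ← h1, Y_append] at h2
        omega
      · have h2 := congrFun he 2
        rw [toWalk_apply2, toWalk_apply2, ← h1, Z_append] at h2
        omega
    intro i j he
    rcases lt_trichotomy i j with h | h | h
    · exact (key i j h he).elim
    · exact h
    · exact (key j i h he.symm).elim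

lemma toWalk_inj {n : ℕ} {w w' : W} (hn : w.length = n) (hn' : w'.length = n)
    (h : toWalk n w = toWalk n w') : w = w' := by
  refine List.ext_getElem (by rw [hn, hn']) ?_
  intro i hi hi'
  have hin : i < n := by rw [← hn]; exact hi
  have e1 := congrFun h ⟨i, by omega⟩
  have e2 := congrFun h ⟨i + 1, by omega⟩
  have h1 : w.take (i + 1) = w.take i ++ [w[i]] := take_succ_eq hi
  have h2 : w'.take (i + 1) = w'.take i ++ [w'[i]] := take_succ_eq hi'
  refine letter_inj ?_ ?_ ?_
  · have a1 := congrFun e1 0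
    have a2 := congrFun e2 0
    simp only [toWalk_apply0, h1, h2, X_append, X_cons, X_nil, add_zero] at a1 a2
    omega
  · have a1 := congrFun e1 1
    have a2 := congrFun e2 1
    simp only [toWalk_apply1, h1, h2, Y_append, Y_cons, Y_nil, add_zero] at a1 a2
    omega
  · have a1 := congrFun e1 2
    have a2 := congrFun e2 2
    simp only [toWalk_apply2, h1, h2, Z_append, Z_cons, Z_nil, add_zero] at a1 a2
    omega

lemma toWalk_surj {n : ℕ} {ω : Fin (n + 1) → (Fin 3 → ℤ)} (hω : IsSAW n ω) :
    ∃ w : W, w.length = n ∧ SAW w ∧ toWalk n w = ω := by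
  obtain ⟨h0, hstep, hinj⟩ := hω
  have hl : ∀ i : Fin n, ∃ s : St, dx s = ω i.succ 0 - ω i.castSucc 0 ∧
      dy s = ω i.succ 1 - ω i.castSucc 1 ∧ dz s = ω i.succ 2 - ω i.castSucc 2 := by
    intro i
    apply exists_letter
    have := hstep i
    rwa [Fin.sum_univ_three] at this
  choose l hx hy hz using hl
  have hlen : (List.ofFn l).length = n := by simp
  have hpos : ∀ i : ℕ, ∀ hi : i < n + 1, X ((List.ofFn l).take i) = ω ⟨i, hi⟩ 0 ∧
      Y ((List.ofFn l).take i) = ω ⟨i, hi⟩ 1 ∧ Z ((List.ofFn l).take i) = ω ⟨i, hi⟩ 2 := by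
    intro i
    induction i with
    | zero =>
      intro hi
      have : (⟨0, hi⟩ : Fin (n + 1)) = 0 := rfl
      rw [this, h0]
      simp
    | succ i ih =>
      intro hi
      have hi' : i < n := by omega
      obtain ⟨i1, i2, i3⟩ := ih (by omega)
      have h1 : (List.ofFn l).take (i + 1) = (List.ofFn l).take i ++ [l ⟨i, hi'⟩] := by
        rw [take_succ_eq (by rw [hlen]; exact hi')]
        simp
      have e1 := hx ⟨i, hi'⟩
      have e2 := hy ⟨i, hi'⟩
      have e3 := hz ⟨i, hi'⟩
      simp only [Fin.succ_mk, Fin.castSucc_mk] at e1 e2 e3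
      rw [h1]
      simp only [X_append, Y_append, Z_append, X_cons, Y_cons, Z_cons, X_nil, Y_nil, Z_nil,
        add_zero]
      refine ⟨by omega, by omega, by omega⟩
  have hwalk : toWalk n (List.ofFn l) = ω := by
    funext i
    obtain ⟨i1, i2, i3⟩ := hpos i.1 i.2
    ext j
    fin_cases j
    · exact i1
    · exact i2
    · exact i3
  refine ⟨List.ofFn l, hlen, ?_, hwalk⟩
  intro v hv hne hz0
  obtain ⟨s, t, hst⟩ := hv
  have hlens : s.length + v.length + t.length = n := by
    rw [← hlen, ← hst]; simp only [List.length_append]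
  have hv1 : 0 < v.length := List.length_pos_iff.2 hne
  have t1 : (List.ofFn l).take s.length = s := by
    rw [← hst, List.append_assoc, List.take_left]
  have t2 : (List.ofFn l).take (s.length + v.length) = s ++ v := by
    rw [← hst, ← List.length_append, List.take_left]
  have he : (⟨s.length, by omega⟩ : Fin (n + 1)) = ⟨s.length + v.length, by omega⟩ := by
    apply hinj
    rw [← hwalk]
    ext j
    fin_cases j
    · change X ((List.ofFn l).take s.length) = X ((List.ofFn l).take (s.length + v.length))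
      rw [t1, t2, X_append, hz0.1, add_zero]
    · change Y ((List.ofFn l).take s.length) = Y ((List.ofFn l).take (s.length + v.length))
      rw [t1, t2, Y_append, hz0.2.1, add_zero]
    · change Z ((List.ofFn l).take s.length) = Z ((List.ofFn l).take (s.length + v.length))
      rw [t1, t2, Z_append, hz0.2.2, add_zero]
  simp only [Fin.mk.injEq] at he
  omega

lemma toWalk_bijOn (n : ℕ) :
    Set.BijOn (toWalk n) (↑(SAWs n) : Set W) {ω | IsSAW n ω} := by
  refine ⟨?_, ?_, ?_⟩
  · intro w hw
    obtain ⟨h1, h2⟩ := mem_SAWs.1 hw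
    exact toWalk_IsSAW h1 h2
  · intro w hw w' hw' h
    exact toWalk_inj (mem_SAWs.1 hw).1 (mem_SAWs.1 hw').1 h
  · intro ω hω
    obtain ⟨w, h1, h2, h3⟩ := toWalk_surj hω
    exact ⟨w, mem_SAWs.2 ⟨h1, h2⟩, h3⟩

lemma nrm_toWalk {n : ℕ} {w : W} (hn : w.length = n) :
    nrm (toWalk n w (Fin.last n)) = rho w := by
  have h : w.take n = w := by rw [← hn, List.take_length]
  unfold nrm rho
  rw [Fin.sum_univ_three, toWalk_apply0, toWalk_apply1, toWalk_apply2]
  simp only [Fin.val_last, h]

theorem moment_eq (p : ℝ) (n : ℕ) :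
    moment p n = (∑ w ∈ SAWs n, rho w ^ p) / ((SAWs n).card : ℝ) := by
  unfold moment
  have hb := toWalk_bijOn n
  congr 1
  · rw [← finsum_mem_coe_finset]
    symm
    refine finsum_mem_eq_of_bijOn (toWalk n) hb ?_
    intro w hw
    rw [nrm_toWalk (mem_SAWs.1 hw).1]
  · rw [← hb.image_eq, hb.injOn.ncard_image, Set.ncard_coe_finset]

end SW64
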