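import Pool.Agent.SW64.Defs
import Pool.Agent.SW64.Walks

/-! From the counting theorems `thmA`, `thmA0` to the lower bound for the moments. -/

namespace SW64

open St

lemma Bot_replicate (n : ℕ) : Bot (List.replicate n a) := by
  induction n with
  | zero => exact Bot_nil
  | succ n ih => rw [List.replicate_succ]; exact ih.cons_a

lemma SAW_replicate (n : ℕ) : SAW (List.replicate n a) := by
  induction n with
  | zero => exact SAW_nil
  | succ n ih =>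
    rw [List.replicate_succ]
    exact glue SAW_nil ih Top_nil (Bot_replicate n)

lemma card_SAWs_pos (n : ℕ) : 0 < (SAWs n).card :=
  Finset.card_pos.2 ⟨_, mem_SAWs.2 ⟨List.length_replicate, SAW_replicate n⟩⟩

lemma rho_nonneg (w : W) : 0 ≤ rho w := Real.sqrt_nonneg _

lemma abs_X_le_rho (w : W) : |(X w : ℝ)| ≤ rho w := by
  unfold rho
  exact Real.abs_le_sqrt (by nlinarith [sq_nonneg (Y w : ℝ), sq_nonneg (Z w : ℝ)])

lemma abs_Y_le_rho (w : W) : |(Y w : ℝ)| ≤ rho w := by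
  unfold rho
  exact Real.abs_le_sqrt (by nlinarith [sq_nonneg (X w : ℝ), sq_nonneg (Z w : ℝ)])

lemma one_le_rho {n : ℕ} (hn : 1 ≤ n) {w : W} (hw : w ∈ SAWs n) : 1 ≤ rho w := by
  obtain ⟨h1, h2⟩ := mem_SAWs.1 hw
  have hne : w ≠ [] := by
    rintro rfl
    simp at h1
    omega
  have h3 := h2 w (List.infix_refl w) hne
  have h4 : (1 : ℤ) ≤ X w ^ 2 + Y w ^ 2 + Z w ^ 2 := by
    by_contra hcon
    have hx := sq_nonneg (X w)
    have hy := sq_nonneg (Y w)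
    have hz := sq_nonneg (Z w)
    exact h3 ⟨pow_eq_zero_iff (two_ne_zero) |>.1 (by omega),
      pow_eq_zero_iff (two_ne_zero) |>.1 (by omega), pow_eq_zero_iff (two_ne_zero) |>.1 (by omega)⟩
  unfold rho
  rw [Real.one_le_sqrt]
  exact_mod_cast h4

lemma sum_rho_eq (p : ℝ) (n : ℕ) :
    ∑ w ∈ SAWs n, rho w ^ p = moment p n * ((SAWs n).card : ℝ) := by
  rw [moment_eq, div_mul_cancel₀]
  exact_mod_cast (card_SAWs_pos n).ne'

lemma one_le_moment {p : ℝ} (hp : 0 < p) {n : ℕ} (hn : 1 ≤ n) : 1 ≤ moment p n := by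
  rw [moment_eq, le_div_iff₀ (by exact_mod_cast card_SAWs_pos n), one_mul]
  have : ∑ w ∈ SAWs n, (1 : ℝ) ≤ ∑ w ∈ SAWs n, rho w ^ p :=
    Finset.sum_le_sum fun w hw => Real.one_le_rpow (one_le_rho hn hw) hp.le
  simpa using this

open Classical in
lemma markov_L {p : ℝ} (hp : 0 < p) {n : ℕ} (hn : 1 ≤ n) {L : ℕ}
    (hL : 12 * moment p n ≤ (L : ℝ) ^ p) :
    12 * ((SAWs n).filter (fun w => ¬ (|X w| ≤ L ∧ |Y w| ≤ L))).card ≤ (SAWs n).card := by
  set F := (SAWs n).filter (fun w => ¬ (|X w| ≤ L ∧ |Y w| ≤ L)) with hF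
  have hR := one_le_moment hp hn
  have h1 : ∀ w ∈ F, 12 * moment p n ≤ rho w ^ p := by
    intro w hw
    rw [hF, Finset.mem_filter] at hw
    have hlt : (L : ℝ) ≤ rho w := by
      by_contra hcon
      push Not at hcon
      apply hw.2
      constructor
      · have : |(X w : ℝ)| < L := (abs_X_le_rho w).trans_lt hcon
        have h' : |X w| < (L : ℤ) := by exact_mod_cast this
        exact h'.le
      · have : |(Y w : ℝ)| < L := (abs_Y_le_rho w).trans_lt hcon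
        have h' : |Y w| < (L : ℤ) := by exact_mod_cast this
        exact h'.le
    exact hL.trans (Real.rpow_le_rpow (Nat.cast_nonneg L) hlt hp.le)
  have h2 : (F.card : ℝ) * (12 * moment p n) ≤ moment p n * ((SAWs n).card : ℝ) := by
    rw [← sum_rho_eq, ← nsmul_eq_mul]
    calc F.card • (12 * moment p n) ≤ ∑ w ∈ F, rho w ^ p := Finset.card_nsmul_le_sum _ _ _ h1
      _ ≤ ∑ w ∈ SAWs n, rho w ^ p :=
        Finset.sum_le_sum_of_subset_of_nonneg (Finset.filter_subset _ _)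
          fun w _ _ => Real.rpow_nonneg (rho_nonneg w) p
  have h3 : 12 * (F.card : ℝ) ≤ ((SAWs n).card : ℝ) := by
    have : moment p n * (12 * (F.card : ℝ)) ≤ moment p n * ((SAWs n).card : ℝ) := by linarith
    exact le_of_mul_le_mul_left this (by linarith)
  exact_mod_cast h3

open Classical in
lemma moment_ge {p : ℝ} (hp : 0 < p) (n S : ℕ) :
    (((SAWs n).filter (fun w => (S : ℤ) ≤ 2 * X w)).card : ℝ) * ((S : ℝ) / 2) ^ p ≤
      moment p n * ((SAWs n).card : ℝ) := by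
  rw [← sum_rho_eq, ← nsmul_eq_mul]
  refine (Finset.card_nsmul_le_sum _ (fun w => rho w ^ p) _ ?_).trans
    (Finset.sum_le_sum_of_subset_of_nonneg (Finset.filter_subset _ _)
          fun w _ _ => Real.rpow_nonneg (rho_nonneg w) p)
  intro w hw
  rw [Finset.mem_filter] at hw
  refine Real.rpow_le_rpow (by positivity) ?_ hp.le
  have h1 : (S : ℝ) ≤ 2 * (X w : ℝ) := by exact_mod_cast hw.2
  have h2 := (le_abs_self (X w : ℝ)).trans (abs_X_le_rho w)
  linarith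

lemma pow403 : (90 : ℝ) ≤ (90 / 89) ^ 403 := by
  have h : (90 / 89 : ℝ) ^ 403 = (90 / 89) ^ 201 * (90 / 89) ^ 202 := by rw [← pow_add]
  rw [h]
  norm_num

/-- The saving exponent. -/
noncomputable def lam : ℝ := 1 / 60450

lemma lam_pos : 0 < lam := by unfold lam; norm_num
lemma lam_lt : lam < 1 := by unfold lam; norm_num

lemma gain {J K' : ℕ} (h : J < 150 * (K' + 1)) :
    (89 / 90 : ℝ) * (90 : ℝ) ^ (lam * J) ≤ (90 / 89 : ℝ) ^ K' := by
  have h1 : (90 : ℝ) ^ (lam * J) ≤ ((90 / 89 : ℝ) ^ 403) ^ (lam * J) :=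
    Real.rpow_le_rpow (by norm_num) pow403 (mul_nonneg lam_pos.le (Nat.cast_nonneg J))
  have h2 : ((90 / 89 : ℝ) ^ 403) ^ (lam * J) = (90 / 89 : ℝ) ^ ((J : ℝ) / 150) := by
    rw [← Real.rpow_natCast, ← Real.rpow_mul (by norm_num)]
    congr 1
    unfold lam
    push_cast
    ring
  have h3 : (90 / 89 : ℝ) ^ ((J : ℝ) / 150) ≤ (90 / 89 : ℝ) ^ (((K' + 1 : ℕ) : ℝ)) := by
    refine Real.rpow_le_rpow_of_exponent_le (by norm_num) ?_
    have : (J : ℝ) < 150 * ((K' + 1 : ℕ) : ℝ) := by exact_mod_cast h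
    linarith
  rw [Real.rpow_natCast, pow_succ] at h3
  rw [h2] at h1
  have := h1.trans h3
  linarith

/-- The numerical core: `C` is the number of walks, `T` the number of walks with
`S ≤ 2 X`, `R` the moment. -/
lemma core_B {p R S C T : ℝ} {L J K' : ℕ} (hp : 0 < p) (hR : 1 ≤ R) (hC : 0 < C) (hT0 : 0 ≤ T)
    (hL : (L : ℝ) ≤ 2 * (12 * R) ^ (1 / p)) (hJ : 90 ^ J ≤ 90 * L) (hK : J < 150 * (K' + 1))
    (h : 90 ^ K' * C ≤ 48 * 90 ^ J * 89 ^ K' * T) (hT : T * (S / 2) ^ p ≤ R * C) :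
    (S / 2) ^ p ≤ 48 * (90 / 89) * (180 * 12 ^ (1 / p)) ^ (1 - lam) * R ^ ((p + 1 - lam) / p) := by
  have hl : 0 < 1 - lam := by linarith [lam_lt]
  have h1 : (90 / 89 : ℝ) ^ K' * C ≤ 48 * 90 ^ J * T := by
    have h89 : (0 : ℝ) < 89 ^ K' := by positivity
    rw [div_pow, div_mul_eq_mul_div, div_le_iff₀ h89]
    linarith
  have h2 := gain hK
  have h3 : (89 / 90 : ℝ) * (90 : ℝ) ^ (lam * J) * C ≤ 48 * 90 ^ J * T :=
    (mul_le_mul_of_nonneg_right h2 hC.le).trans h1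
  have h4 : (90 : ℝ) ^ J = (90 : ℝ) ^ (lam * J) * (90 : ℝ) ^ ((1 - lam) * J) := by
    rw [← Real.rpow_add (by norm_num), ← Real.rpow_natCast]
    congr 1
    ring
  have h5 : C ≤ 48 * (90 / 89) * (90 : ℝ) ^ ((1 - lam) * J) * T := by
    have hpos : (0 : ℝ) < (89 / 90 : ℝ) * (90 : ℝ) ^ (lam * J) := by positivity
    have : (89 / 90 : ℝ) * (90 : ℝ) ^ (lam * J) * C ≤ (89 / 90 : ℝ) * (90 : ℝ) ^ (lam * J) *
        (48 * (90 / 89) * (90 : ℝ) ^ ((1 - lam) * J) * T) := by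
      refine h3.trans (le_of_eq ?_)
      rw [h4]
      ring
    exact le_of_mul_le_mul_left this hpos
  have hR0 : 0 < R := by linarith
  have h6 : (90 : ℝ) ^ ((1 - lam) * J) ≤ (180 * 12 ^ (1 / p)) ^ (1 - lam) * R ^ ((1 - lam) / p) := by
    have e1 : (90 : ℝ) ^ ((1 - lam) * J) = ((90 : ℝ) ^ J) ^ (1 - lam) := by
      rw [← Real.rpow_natCast, ← Real.rpow_mul (by norm_num)]
      congr 1
      ring
    have e2 : (90 : ℝ) ^ J ≤ 180 * 12 ^ (1 / p) * R ^ (1 / p) := by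
      have : (90 : ℝ) ^ J ≤ 90 * L := by exact_mod_cast hJ
      rw [Real.mul_rpow (by norm_num) hR0.le] at hL
      nlinarith
    have e3 : (180 * 12 ^ (1 / p) * R ^ (1 / p) : ℝ) ^ (1 - lam) =
        (180 * 12 ^ (1 / p)) ^ (1 - lam) * R ^ ((1 - lam) / p) := by
      rw [Real.mul_rpow (by positivity) (by positivity), ← Real.rpow_mul hR0.le]
      congr 2
      ring
    rw [e1, ← e3]
    exact Real.rpow_le_rpow (by positivity) e2 hl.le
  have h7 : C ≤ 48 * (90 / 89) * ((180 * 12 ^ (1 / p)) ^ (1 - lam) * R ^ ((1 - lam) / p)) * T :=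
    h5.trans (mul_le_mul_of_nonneg_right (mul_le_mul_of_nonneg_left h6 (by norm_num)) hT0)
  have hTpos : 0 < T := by
    rcases hT0.lt_or_eq with h | h
    · exact h
    · rw [← h] at h7; simp at h7; linarith
  have h8 : T * (S / 2) ^ p ≤ T * (48 * (90 / 89) * (180 * 12 ^ (1 / p)) ^ (1 - lam) *
      R ^ ((p + 1 - lam) / p)) := by
    refine hT.trans ((mul_le_mul_of_nonneg_left h7 hR0.le).trans (le_of_eq ?_))
    have e4 : R ^ ((p + 1 - lam) / p) = R * R ^ ((1 - lam) / p) := by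
      nth_rw 2 [← Real.rpow_one R]
      rw [← Real.rpow_add hR0]
      congr 1
      field_simp
      ring
    rw [e4]
    ring
  exact le_of_mul_le_mul_left h8 hTpos

lemma core_B0 {p R S C T D : ℝ} (hp : 0 < p) (hR : 1 ≤ R) (hC : 0 < C)
    (hT0 : 0 ≤ T) (hD : 0 ≤ D) (h : C ≤ D * T) (hT : T * (S / 2) ^ p ≤ R * C) :
    (S / 2) ^ p ≤ D * R ^ ((p + 1 - lam) / p) := by
  have hR0 : 0 < R := by linarith
  have hTpos : 0 < T := by
    rcases hT0.lt_or_eq with h' | h'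
    · exact h'
    · rw [← h'] at h; simp at h; linarith
  have h1 : R ≤ R ^ ((p + 1 - lam) / p) := by
    nth_rw 1 [← Real.rpow_one R]
    refine Real.rpow_le_rpow_of_exponent_le hR ?_
    rw [le_div_iff₀ hp]
    linarith [lam_lt]
  have h2 : T * (S / 2) ^ p ≤ T * (D * R) := by
    refine hT.trans ((mul_le_mul_of_nonneg_left h hR0.le).trans (le_of_eq (by ring)))
  exact (le_of_mul_le_mul_left h2 hTpos).trans (mul_le_mul_of_nonneg_left h1 hD)

lemma ceil_L {p R : ℝ} (hp : 0 < p) (hR : 1 ≤ R) :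
    ∃ L : ℕ, 1 ≤ L ∧ 12 * R ≤ (L : ℝ) ^ p ∧ (L : ℝ) ≤ 2 * (12 * R) ^ (1 / p) := by
  have h0 : 0 ≤ 12 * R := by linarith
  have h1 : 1 ≤ (12 * R) ^ (1 / p) := Real.one_le_rpow (by linarith) (by positivity)
  refine ⟨⌈(12 * R) ^ (1 / p)⌉₊, Nat.one_le_ceil_iff.2 (by linarith), ?_, ?_⟩
  · have h2 : (12 * R) ^ (1 / p) ≤ (⌈(12 * R) ^ (1 / p)⌉₊ : ℝ) := Nat.le_ceil _
    have h3 : ((12 * R) ^ (1 / p)) ^ p = 12 * R := by
      rw [← Real.rpow_mul h0, one_div_mul_cancel hp.ne', Real.rpow_one]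
    calc 12 * R = ((12 * R) ^ (1 / p)) ^ p := h3.symm
      _ ≤ _ := Real.rpow_le_rpow (by positivity) h2 hp.le
  · have := Nat.ceil_lt_add_one (show 0 ≤ (12 * R) ^ (1 / p) by positivity)
    linarith

/-- The three cases give one inequality. -/
lemma core_A {p R S : ℝ} (hp : 0 < p) (hR : 1 ≤ R) (hS : 0 ≤ S)
    (h : S ≤ 120 * (12 * R) ^ (1 / p)) :
    (S / 2) ^ p ≤ 12 * 60 ^ p * R ^ ((p + 1 - lam) / p) := by
  have hR0 : 0 < R := by linarith
  have h1 : R ≤ R ^ ((p + 1 - lam) / p) := by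
    nth_rw 1 [← Real.rpow_one R]
    refine Real.rpow_le_rpow_of_exponent_le hR ?_
    rw [le_div_iff₀ hp]
    linarith [lam_lt]
  have h2 : (S / 2) ^ p ≤ (60 * (12 * R) ^ (1 / p)) ^ p :=
    Real.rpow_le_rpow (by positivity) (by linarith) hp.le
  have h3 : (60 * (12 * R) ^ (1 / p)) ^ p = 60 ^ p * (12 * R) := by
    rw [Real.mul_rpow (by norm_num) (by positivity), ← Real.rpow_mul (by positivity),
      one_div_mul_cancel hp.ne', Real.rpow_one]
  rw [h3] at h2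
  refine h2.trans ?_
  have h4 : (0 : ℝ) ≤ 12 * 60 ^ p := by positivity
  calc (60 : ℝ) ^ p * (12 * R) = 12 * 60 ^ p * R := by ring
    _ ≤ _ := mul_le_mul_of_nonneg_left h1 h4

/-- The constant of the common inequality. -/
noncomputable def DD (p : ℝ) : ℝ :=
  12 * 60 ^ p + 12 * 90 ^ 150 + 48 * (90 / 89) * (180 * 12 ^ (1 / p)) ^ (1 - lam)

lemma DD_pos (p : ℝ) : 0 < DD p := by unfold DD; positivity

open Classical in
/-- The statement of `thmA`. -/
def StA : Prop := ∀ N S L J K' : ℕ, 8 * S ^ 3 ≤ N + 1 → 40 * (L + 1) ≤ S →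
    12 * ((SAWs N).filter (fun w => ¬ (|X w| ≤ L ∧ |Y w| ≤ L))).card ≤ (SAWs N).card →
    L + 1 ≤ 90 ^ J → 90 ^ J ≤ 90 * L → 150 * K' ≤ J → 1 ≤ K' →
    90 ^ K' * (SAWs N).card ≤
      48 * 90 ^ J * 89 ^ K' * ((SAWs N).filter (fun w => (S : ℤ) ≤ 2 * X w)).card

open Classical in
/-- The statement of `thmA0`. -/
def StA0 : Prop := ∀ N S L : ℕ, 8 * S ^ 3 ≤ N + 1 → L < S →
    12 * ((SAWs N).filter (fun w => ¬ (|X w| ≤ L ∧ |Y w| ≤ L))).card ≤ (SAWs N).card →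
    (SAWs N).card ≤ 12 * (L + 1) * ((SAWs N).filter (fun w => (S : ℤ) ≤ 2 * X w)).card

lemma core_all (hA : StA) (hA0 : StA0) {p : ℝ} (hp : 0 < p) {n S : ℕ} (hn : 1 ≤ n)
    (hS : 8 * S ^ 3 ≤ n + 1) :
    ((S : ℝ) / 2) ^ p ≤ DD p * (moment p n) ^ ((p + 1 - lam) / p) := by
  classical
  have hR := one_le_moment hp hn
  set R := moment p n with hRdef
  have hR0 : 0 < R := by linarith
  have hRp : 0 < R ^ ((p + 1 - lam) / p) := Real.rpow_pos_of_pos hR0 _
  have hC : (0 : ℝ) < ((SAWs n).card : ℝ) := by exact_mod_cast card_SAWs_pos n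
  obtain ⟨L, hL1, hL2, hL3⟩ := ceil_L hp hR
  have hM := markov_L hp hn hL2
  have hT := moment_ge hp n S
  have d1 : (0 : ℝ) ≤ 12 * 60 ^ p := by positivity
  have d2 : (0 : ℝ) ≤ 12 * 90 ^ 150 := by positivity
  have d3 : (0 : ℝ) ≤ 48 * (90 / 89) * (180 * 12 ^ (1 / p)) ^ (1 - lam) := by positivity
  by_cases hSL : 40 * (L + 1) ≤ S
  · by_cases hJ0 : Nat.clog 90 (L + 1) < 150
    · -- the scale is bounded
      have hLb : L + 1 ≤ 90 ^ 150 :=
        (Nat.le_pow_clog (by norm_num) (L + 1)).trans (Nat.pow_le_pow_right (by norm_num) hJ0.le)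
      have h1 := hA0 n S L hS (by omega) hM
      have h2 : ((SAWs n).card : ℝ) ≤ 12 * 90 ^ 150 *
          (((SAWs n).filter (fun w => (S : ℤ) ≤ 2 * X w)).card : ℝ) := by
        have h3 : ((SAWs n).card : ℝ) ≤ 12 * ((L : ℝ) + 1) *
            (((SAWs n).filter (fun w => (S : ℤ) ≤ 2 * X w)).card : ℝ) := by exact_mod_cast h1
        refine h3.trans (mul_le_mul_of_nonneg_right ?_ (Nat.cast_nonneg _))
        have : ((L : ℝ) + 1) ≤ 90 ^ 150 := by exact_mod_cast hLb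
        linarith
      refine (core_B0 hp hR hC (Nat.cast_nonneg _) d2 h2 hT).trans
        (mul_le_mul_of_nonneg_right ?_ hRp.le)
      unfold DD
      linarith
    · -- the main case
      push Not at hJ0
      set J := Nat.clog 90 (L + 1) with hJ
      have e1 : L + 1 ≤ 90 ^ J := Nat.le_pow_clog (by norm_num) (L + 1)
      have e2 : 90 ^ J ≤ 90 * L := by
        have h3 : 90 ^ (J - 1) < L + 1 := by
          rw [hJ]
          exact Nat.pow_pred_clog_lt_self (by norm_num) (by omega)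
        have h4 : 90 ^ J = 90 * 90 ^ (J - 1) := by
          rw [← pow_succ']
          congr 1
          omega
        rw [h4]
        exact Nat.mul_le_mul_left _ (by omega)
      have h1 := hA n S L J (J / 150) hS hSL hM e1 e2 (Nat.mul_div_le J 150) (by omega)
      have h2 : (90 : ℝ) ^ (J / 150) * ((SAWs n).card : ℝ) ≤ 48 * 90 ^ J * 89 ^ (J / 150) *
          (((SAWs n).filter (fun w => (S : ℤ) ≤ 2 * X w)).card : ℝ) := by exact_mod_cast h1
      refine (core_B (L := L) (J := J) (K' := J / 150) hp hR hC (Nat.cast_nonneg _) hL3 e2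
        (by omega) h2 hT).trans (mul_le_mul_of_nonneg_right ?_ hRp.le)
      unfold DD
      linarith
  · -- the walk is already long
    push Not at hSL
    have h1 : (S : ℝ) ≤ 120 * (12 * R) ^ (1 / p) := by
      have h2 : (S : ℝ) < 40 * ((L : ℝ) + 1) := by exact_mod_cast hSL
      have h3 : 1 ≤ (12 * R) ^ (1 / p) := Real.one_le_rpow (by linarith) (by positivity)
      linarith
    refine (core_A hp hR (Nat.cast_nonneg S) h1).trans (mul_le_mul_of_nonneg_right ?_ hRp.le)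
    unfold DD
    linarith

/-- A natural number of size about `n ^ (1/3) / 2`. -/
lemma exists_S {n : ℕ} (hn : 64 ≤ n) : ∃ S : ℕ, 8 * S ^ 3 ≤ n + 1 ∧
    (n : ℝ) ^ (1 / 3 : ℝ) / 4 ≤ S := by
  refine ⟨⌊(n : ℝ) ^ (1 / 3 : ℝ) / 2⌋₊, ?_, ?_⟩
  · have h1 : (⌊(n : ℝ) ^ (1 / 3 : ℝ) / 2⌋₊ : ℝ) ≤ (n : ℝ) ^ (1 / 3 : ℝ) / 2 :=
      Nat.floor_le (by positivity)
    have h2 : (⌊(n : ℝ) ^ (1 / 3 : ℝ) / 2⌋₊ : ℝ) ^ 3 ≤ ((n : ℝ) ^ (1 / 3 : ℝ) / 2) ^ 3 :=
      pow_le_pow_left₀ (Nat.cast_nonneg _) h1 3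
    have h3 : ((n : ℝ) ^ (1 / 3 : ℝ) / 2) ^ 3 = n / 8 := by
      rw [div_pow, ← Real.rpow_natCast ((n : ℝ) ^ (1 / 3 : ℝ)), ← Real.rpow_mul (Nat.cast_nonneg n)]
      norm_num
    have h4 : (8 : ℝ) * (⌊(n : ℝ) ^ (1 / 3 : ℝ) / 2⌋₊ : ℝ) ^ 3 ≤ (n : ℝ) + 1 := by
      rw [h3] at h2
      linarith
    exact_mod_cast h4
  · have h1 := Nat.lt_floor_add_one ((n : ℝ) ^ (1 / 3 : ℝ) / 2)
    have h2 : (4 : ℝ) ≤ (n : ℝ) ^ (1 / 3 : ℝ) := by
      have h3 : (4 : ℝ) = (64 : ℝ) ^ (1 / 3 : ℝ) := by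
        rw [show (64 : ℝ) = 4 ^ (3 : ℝ) by norm_num, ← Real.rpow_mul (by norm_num)]
        norm_num
      rw [h3]
      exact Real.rpow_le_rpow (by norm_num) (by exact_mod_cast hn) (by norm_num)
    linarith

theorem main_of (hA : StA) (hA0 : StA0) (p : ℝ) (hp : 0 < p) :
    ∃ c : ℝ, 0 < c ∧ ∀ n : ℕ, 1 ≤ n →
      c * (n : ℝ) ^ (p ^ 2 / (3 * (p + 1 - 1 / 60450))) ≤ moment p n := by
  have hlam : (1 / 60450 : ℝ) = lam := rfl
  rw [hlam]
  have he : 0 < p + 1 - lam := by linarith [lam_lt]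
  set e := p + 1 - lam with hedef
  have hx : 0 ≤ p ^ 2 / (3 * e) := by positivity
  -- constants
  set c1 : ℝ := ((1 / DD p) * (1 / 8) ^ p) ^ (p / e) with hc1
  have hc1pos : 0 < c1 := by
    have := DD_pos p
    positivity
  refine ⟨min c1 ((64 : ℝ) ^ (p ^ 2 / (3 * e)))⁻¹, lt_min hc1pos (by positivity), ?_⟩
  intro n hn
  have hR := one_le_moment hp hn
  by_cases hn64 : 64 ≤ n
  · obtain ⟨S, hS1, hS2⟩ := exists_S hn64
    have h1 := core_all hA hA0 hp hn hS1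
    set R := moment p n with hRdef
    have hR0 : 0 < R := by linarith
    have hD := DD_pos p
    have h2 : (1 / 8 : ℝ) ^ p * (n : ℝ) ^ (p / 3) ≤ ((S : ℝ) / 2) ^ p := by
      have h3 : (1 / 8 : ℝ) ^ p * (n : ℝ) ^ (p / 3) = ((1 / 8) * (n : ℝ) ^ (1 / 3 : ℝ)) ^ p := by
        rw [Real.mul_rpow (by norm_num) (by positivity), ← Real.rpow_mul (Nat.cast_nonneg n)]
        congr 2
        ring
      rw [h3]
      exact Real.rpow_le_rpow (by positivity) (by linarith) hp.le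
    have h4 : (1 / DD p) * (1 / 8) ^ p * (n : ℝ) ^ (p / 3) ≤ R ^ (e / p) := by
      have h5 := h2.trans h1
      rw [mul_assoc, one_div, inv_mul_le_iff₀ hD]
      exact h5
    have h6 : ((1 / DD p) * (1 / 8) ^ p * (n : ℝ) ^ (p / 3)) ^ (p / e) ≤ (R ^ (e / p)) ^ (p / e) :=
      Real.rpow_le_rpow (by positivity) h4 (by positivity)
    have h7 : (R ^ (e / p)) ^ (p / e) = R := by
      rw [← Real.rpow_mul hR0.le]
      have : e / p * (p / e) = 1 := by field_simp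
      rw [this, Real.rpow_one]
    have h8 : ((1 / DD p) * (1 / 8) ^ p * (n : ℝ) ^ (p / 3)) ^ (p / e) =
        c1 * (n : ℝ) ^ (p ^ 2 / (3 * e)) := by
      rw [Real.mul_rpow (by positivity) (by positivity), ← Real.rpow_mul (Nat.cast_nonneg n)]
      congr 2
      field_simp
    rw [h7, h8] at h6
    refine (mul_le_mul_of_nonneg_right (min_le_left _ _) (by positivity)).trans h6
  · push Not at hn64
    have h1 : (n : ℝ) ^ (p ^ 2 / (3 * e)) ≤ (64 : ℝ) ^ (p ^ 2 / (3 * e)) :=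
      Real.rpow_le_rpow (Nat.cast_nonneg n) (by exact_mod_cast hn64.le) hx
    have h2 : (0 : ℝ) < (64 : ℝ) ^ (p ^ 2 / (3 * e)) := by positivity
    calc min c1 ((64 : ℝ) ^ (p ^ 2 / (3 * e)))⁻¹ * (n : ℝ) ^ (p ^ 2 / (3 * e))
        ≤ ((64 : ℝ) ^ (p ^ 2 / (3 * e)))⁻¹ * (64 : ℝ) ^ (p ^ 2 / (3 * e)) :=
          mul_le_mul (min_le_right _ _) h1 (by positivity) (by positivity)
      _ = 1 := inv_mul_cancel₀ h2.ne'
      _ ≤ _ := hR

end SW64
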