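import Pool.Agent.SW64.Defs

/-! A self-avoiding walk has a large extent in one of the six directions (MP_26a5d6_pr). -/

namespace SW64

open St

/-- Letterwise maps that move one of the six directions to the direction `a`. -/
def gA : St → St
  | a => A | A => a | b => b | B => B | c => c | C => C
def gb : St → St
  | a => b | b => a | A => B | B => A | c => c | C => C
def gB : St → St
  | a => B | B => a | A => b | b => A | c => c | C => C
def gc : St → St
  | a => c | c => a | A => C | C => A | b => b | B => B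
def gC : St → St
  | a => C | C => a | A => c | c => A | b => b | B => B

lemma SAW_map (f : St → St)
    (h : ∀ v : W, X (v.map f) = 0 → Y (v.map f) = 0 → Z (v.map f) = 0 → X v = 0 ∧ Y v = 0 ∧ Z v = 0)
    {w : W} (hw : SAW w) : SAW (w.map f) := by
  intro v hv hne h0
  obtain ⟨v', hv', rfl⟩ := map_infix hv
  exact hw v' hv' (by rintro rfl; simp at hne) (h v' h0.1 h0.2.1 h0.2.2)

open Classical in
/-- The walks with an extent at least `S` in the direction `D`. -/
noncomputable def EF (N : ℕ) (S : ℤ) (D : W → ℤ) : Finset W :=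
  (SAWs N).filter (fun w => ∃ p, p <+: w ∧ S ≤ D p)

open Classical in
lemma mem_EF {N : ℕ} {S : ℤ} {D : W → ℤ} {w : W} :
    w ∈ EF N S D ↔ w ∈ SAWs N ∧ ∃ p, p <+: w ∧ S ≤ D p := by
  unfold EF
  exact Finset.mem_filter

lemma dir_count (f : St → St) (hf : Function.Injective f)
    (h : ∀ v : W, X (v.map f) = 0 → Y (v.map f) = 0 → Z (v.map f) = 0 → X v = 0 ∧ Y v = 0 ∧ Z v = 0)
    (D : W → ℤ) (hD : ∀ v : W, X (v.map f) = D v) (N : ℕ) (S : ℤ) :
    (EF N S D).card ≤ (EF N S X).card := by
  apply Finset.card_le_card_of_injOn (fun w => w.map f)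
  · intro w hw
    rw [Finset.mem_coe, mem_EF] at hw
    rw [Finset.mem_coe, mem_EF]
    obtain ⟨hw1, p, hp, hS⟩ := hw
    rw [mem_SAWs] at hw1 ⊢
    refine ⟨⟨by rw [List.length_map]; exact hw1.1, SAW_map f h hw1.2⟩, p.map f, hp.map f, ?_⟩
    rw [hD]
    exact hS
  · intro w _ w' _ hww
    exact List.map_injective_iff.2 hf hww

lemma X_gA (v : W) : X (v.map gA) = - X v ∧ Y (v.map gA) = Y v ∧ Z (v.map gA) = Z v := by
  induction v with
  | nil => simp
  | cons s v ih =>
    obtain ⟨h1, h2, h3⟩ := ih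
    cases s <;> simp [gA, h1, h2, h3] <;> omega

lemma X_gb (v : W) : X (v.map gb) = Y v ∧ Y (v.map gb) = X v ∧ Z (v.map gb) = Z v := by
  induction v with
  | nil => simp
  | cons s v ih =>
    obtain ⟨h1, h2, h3⟩ := ih
    cases s <;> simp [gb, h1, h2, h3]

lemma X_gB (v : W) : X (v.map gB) = - Y v ∧ Y (v.map gB) = - X v ∧ Z (v.map gB) = Z v := by
  induction v with
  | nil => simp
  | cons s v ih =>
    obtain ⟨h1, h2, h3⟩ := ih
    cases s <;> simp [gB, h1, h2, h3] <;> omega

lemma X_gc (v : W) : X (v.map gc) = Z v ∧ Y (v.map gc) = Y v ∧ Z (v.map gc) = X v := by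
  induction v with
  | nil => simp
  | cons s v ih =>
    obtain ⟨h1, h2, h3⟩ := ih
    cases s <;> simp [gc, h1, h2, h3]

lemma X_gC (v : W) : X (v.map gC) = - Z v ∧ Y (v.map gC) = Y v ∧ Z (v.map gC) = - X v := by
  induction v with
  | nil => simp
  | cons s v ih =>
    obtain ⟨h1, h2, h3⟩ := ih
    cases s <;> simp [gC, h1, h2, h3] <;> omega

lemma extent_exists {N S : ℕ} (hS : 8 * S ^ 3 ≤ N + 1) {w : W} (hw : w ∈ SAWs N) :
    ∃ p, p <+: w ∧ ((S : ℤ) ≤ X p ∨ (S : ℤ) ≤ - X p ∨ (S : ℤ) ≤ Y p ∨ (S : ℤ) ≤ - Y p ∨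
      (S : ℤ) ≤ Z p ∨ (S : ℤ) ≤ - Z p) := by
  rw [mem_SAWs] at hw
  obtain ⟨hlen, hsaw⟩ := hw
  by_contra hcon
  push Not at hcon
  have hS1 : 1 ≤ S := by
    have := (hcon [] (List.nil_prefix)).1
    simp at this
    omega
  set box : Finset (ℤ × ℤ × ℤ) := Finset.Icc (-(S : ℤ) + 1) (S - 1) ×ˢ
    (Finset.Icc (-(S : ℤ) + 1) (S - 1) ×ˢ Finset.Icc (-(S : ℤ) + 1) (S - 1)) with hbox
  have hcard : box.card < N + 1 := by
    rw [hbox, Finset.card_product, Finset.card_product, Int.card_Icc]
    have e1 : ((S : ℤ) - 1 + 1 - (-(S : ℤ) + 1)).toNat = 2 * S - 1 := by omega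
    rw [e1]
    refine lt_of_lt_of_le ?_ hS
    obtain ⟨s, rfl⟩ := Nat.exists_eq_add_of_le hS1
    have e2 : 2 * (1 + s) - 1 = 2 * s + 1 := by omega
    rw [e2]
    nlinarith
  have hmaps : ∀ i ∈ Finset.range (N + 1), (X (w.take i), Y (w.take i), Z (w.take i)) ∈ box := by
    intro i _
    have h := hcon (w.take i) (List.take_prefix _ _)
    rw [hbox, Finset.mem_product, Finset.mem_product, Finset.mem_Icc, Finset.mem_Icc,
      Finset.mem_Icc]
    dsimp only
    omega
  obtain ⟨i, hi, j, hj, hij, heq⟩ := Finset.exists_ne_map_eq_of_card_lt_of_maps_to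
    (by rw [Finset.card_range]; exact hcard) hmaps
  have key : ∀ i j : ℕ, i < j → j ≤ N → X (w.take i) = X (w.take j) → Y (w.take i) = Y (w.take j) →
      Z (w.take i) = Z (w.take j) → False := by
    intro i j hij hjN h1 h2 h3
    have e : w.take j = w.take i ++ (w.drop i).take (j - i) := by
      rw [← List.take_add]
      congr 1
      omega
    rw [e] at h1 h2 h3
    rw [X_append] at h1
    rw [Y_append] at h2
    rw [Z_append] at h3
    have hinf : (w.drop i).take (j - i) <:+: w :=
      (List.take_prefix _ _).isInfix.trans (List.drop_suffix _ _).isInfix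
    refine hsaw _ hinf ?_ ⟨by omega, by omega, by omega⟩
    intro h
    have := congrArg List.length h
    rw [List.length_take, List.length_drop] at this
    simp at this
    omega
  rw [Finset.mem_range] at hi hj
  simp only [Prod.mk.injEq] at heq
  rcases Nat.lt_or_gt_of_ne hij with h | h
  · exact key i j h (by omega) heq.1 heq.2.1 heq.2.2
  · exact key j i h (by omega) heq.1.symm heq.2.1.symm heq.2.2.symm

open Classical in
theorem extent_count {N S : ℕ} (hS : 8 * S ^ 3 ≤ N + 1) :
    (SAWs N).card ≤ 6 * ((SAWs N).filter (fun w => ∃ p, p <+: w ∧ (S : ℤ) ≤ X p)).card := by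
  have h1 := dir_count gA (by intro x y; cases x <;> cases y <;> simp [gA])
    (fun v h1 h2 h3 => by have := X_gA v; omega) (fun v => - X v) (fun v => (X_gA v).1) N S
  have h2 := dir_count gb (by intro x y; cases x <;> cases y <;> simp [gb])
    (fun v h1 h2 h3 => by have := X_gb v; omega) (fun v => Y v) (fun v => (X_gb v).1) N S
  have h3 := dir_count gB (by intro x y; cases x <;> cases y <;> simp [gB])
    (fun v h1 h2 h3 => by have := X_gB v; omega) (fun v => - Y v) (fun v => (X_gB v).1) N S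
  have h4 := dir_count gc (by intro x y; cases x <;> cases y <;> simp [gc])
    (fun v h1 h2 h3 => by have := X_gc v; omega) (fun v => Z v) (fun v => (X_gc v).1) N S
  have h5 := dir_count gC (by intro x y; cases x <;> cases y <;> simp [gC])
    (fun v h1 h2 h3 => by have := X_gC v; omega) (fun v => - Z v) (fun v => (X_gC v).1) N S
  have hsub : SAWs N ⊆ EF N S X ∪ (EF N S (fun v => - X v) ∪ (EF N S (fun v => Y v) ∪
      (EF N S (fun v => - Y v) ∪ (EF N S (fun v => Z v) ∪ EF N S (fun v => - Z v))))) := by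
    intro w hw
    obtain ⟨p, hp, h⟩ := extent_exists hS hw
    simp only [Finset.mem_union, mem_EF]
    rcases h with h | h | h | h | h | h
    · exact Or.inl ⟨hw, p, hp, h⟩
    · exact Or.inr (Or.inl ⟨hw, p, hp, h⟩)
    · exact Or.inr (Or.inr (Or.inl ⟨hw, p, hp, h⟩))
    · exact Or.inr (Or.inr (Or.inr (Or.inl ⟨hw, p, hp, h⟩)))
    · exact Or.inr (Or.inr (Or.inr (Or.inr (Or.inl ⟨hw, p, hp, h⟩))))
    · exact Or.inr (Or.inr (Or.inr (Or.inr (Or.inr ⟨hw, p, hp, h⟩))))
  have hc := Finset.card_le_card hsub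
  have u1 := Finset.card_union_le (EF N S X) (EF N S (fun v => - X v) ∪ (EF N S (fun v => Y v) ∪
      (EF N S (fun v => - Y v) ∪ (EF N S (fun v => Z v) ∪ EF N S (fun v => - Z v)))))
  have u2 := Finset.card_union_le (EF N S (fun v => - X v)) (EF N S (fun v => Y v) ∪
      (EF N S (fun v => - Y v) ∪ (EF N S (fun v => Z v) ∪ EF N S (fun v => - Z v))))
  have u3 := Finset.card_union_le (EF N S (fun v => Y v))
      (EF N S (fun v => - Y v) ∪ (EF N S (fun v => Z v) ∪ EF N S (fun v => - Z v)))
  have u4 := Finset.card_union_le (EF N S (fun v => - Y v))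
    (EF N S (fun v => Z v) ∪ EF N S (fun v => - Z v))
  have u5 := Finset.card_union_le (EF N S (fun v => Z v)) (EF N S (fun v => - Z v))
  change (SAWs N).card ≤ 6 * (EF N S X).card
  omega

open Classical in
theorem last_letter {N : ℕ} {s : ℤ} :
    ((SAWs (N+1)).filter (fun w => s ≤ X w)).card ≤
      6 * ((SAWs N).filter (fun w => s - 1 ≤ X w)).card := by
  have hsub : (SAWs (N+1)).filter (fun w => s ≤ X w) ⊆
      (((SAWs N).filter (fun w => s - 1 ≤ X w)) ×ˢ (Finset.univ : Finset St)).image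
        (fun p => p.1 ++ [p.2]) := by
    intro w hw
    rw [Finset.mem_filter, mem_SAWs] at hw
    obtain ⟨⟨hlen, hsaw⟩, hs⟩ := hw
    have hne : w ≠ [] := by rintro rfl; simp at hlen
    have e := List.dropLast_append_getLast hne
    rw [Finset.mem_image]
    refine ⟨(w.dropLast, w.getLast hne), ?_, e⟩
    rw [Finset.mem_product, Finset.mem_filter, mem_SAWs]
    refine ⟨⟨⟨by rw [List.length_dropLast]; omega, ?_⟩, ?_⟩, Finset.mem_univ _⟩
    · rw [← e] at hsaw
      exact hsaw.left
    · rw [← e, X_append, X_cons, X_nil] at hs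
      have := abs_dx_le (w.getLast hne)
      rw [abs_le] at this
      dsimp only
      omega
  refine (Finset.card_le_card hsub).trans (Finset.card_image_le.trans ?_)
  rw [Finset.card_product]
  have : (Finset.univ : Finset St).card = 6 := rfl
  rw [this, mul_comm]

end SW64
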