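import Pool.Agent.SW64.Regions

/-! Cut levels in full regions: the greedy parse, and good pairs (MP_26a5d6_pr, blueprint T4). -/

namespace SW64

open St

/-! ### Children of a region -/

/-- The region of scale `i` is a union of 45 children, each with at least `τ` elements. -/
lemma child_card {U : Finset ℤ} {o h : ℤ} {i τ : ℕ} (hf : Full U o h i τ) (k : ℕ) (hk : k < 45) :
    τ ≤ (U.filter (fun g => rlo o h i + k * 90 ^ i ≤ g ∧
      g < rlo o h i + (k + 1) * 90 ^ i)).card := by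
  unfold rlo
  split_ifs with h1
  · have h2 := hf (45 + k) (by omega)
    refine h2.trans (Finset.card_le_card ?_)
    intro g hg
    rw [Finset.mem_filter] at hg ⊢
    refine ⟨hg.1, ?_, ?_⟩
    · have := hg.2.1
      push_cast at this
      linarith
    · have := hg.2.2
      push_cast at this
      linarith
  · exact hf k (by omega)

/-- A child which starts between `r` and `r + y - 1`. -/
lemma child_near {o h : ℤ} {i : ℕ} {r : ℤ} (h1 : rlo o h i ≤ r)
    (h2 : r ≤ rlo o h i + 44 * 90 ^ i) : ∃ k : ℕ, k < 45 ∧ r ≤ rlo o h i + k * 90 ^ i ∧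
      rlo o h i + k * 90 ^ i < r + 90 ^ i := by
  have hp := pow90_pos i
  set y : ℤ := 90 ^ i with hy
  set b := rlo o h i with hb
  have h3 := Int.mul_ediv_add_emod (r - b + y - 1) y
  have h4 := Int.emod_nonneg (r - b + y - 1) hp.ne'
  have h5 := Int.emod_lt_of_pos (r - b + y - 1) hp
  set k := (r - b + y - 1) / y with hk
  have hk0 : 0 ≤ k := Int.ediv_nonneg (by omega) hp.le
  have hk1 : k < 45 := by
    by_contra hc
    have : y * 45 ≤ y * k := mul_le_mul_of_nonneg_left (by omega) hp.le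
    omega
  refine ⟨k.toNat, by omega, ?_, ?_⟩
  · have : ((k.toNat : ℕ) : ℤ) = k := Int.toNat_of_nonneg hk0
    rw [this, mul_comm k y]
    omega
  · have : ((k.toNat : ℕ) : ℤ) = k := Int.toNat_of_nonneg hk0
    rw [this, mul_comm k y]
    omega

/-- A cut level near a given level of a full region. -/
lemma cut_near {L : ℤ} {w : W} {o h : ℤ} {i τ : ℕ} (hτ : 1 ≤ τ) (hf : Full (US L w) o h i τ)
    {r : ℤ} (h1 : rlo o h i ≤ r) (h2 : r ≤ rlo o h i + 44 * 90 ^ i) :
    ∃ g, Cut w g ∧ r ≤ g ∧ g < r + 2 * 90 ^ i := by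
  obtain ⟨k, hk, h3, h4⟩ := child_near h1 h2
  have h5 := child_card hf k hk
  have h6 : 0 < ((US L w).filter (fun g => rlo o h i + k * 90 ^ i ≤ g ∧
      g < rlo o h i + (k + 1) * 90 ^ i)).card := by omega
  obtain ⟨g, hg⟩ := Finset.card_pos.1 h6
  rw [Finset.mem_filter, mem_US] at hg
  refine ⟨g, hg.1.cut, ?_, ?_⟩
  · have := hg.2.1
    omega
  · have := hg.2.2
    have h7 : ((k : ℤ) + 1) * 90 ^ i = k * 90 ^ i + 90 ^ i := by ring
    omega

/-! ### The greedy parse -/

/-- The least cut level `≥ r`. -/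
lemma least_cut {w : W} {g r : ℤ} (hg : Cut w g) (hr : r ≤ g) :
    ∃ u t, CutAt w u t ∧ Pre r u ∧ X u ≤ g := by
  have key : ∀ n : ℕ, ∀ g, Cut w g → r ≤ g → g < r + n → ∃ u t, CutAt w u t ∧ Pre r u ∧ X u ≤ g := by
    intro n
    induction n with
    | zero =>
      intro g _ h1 h2
      push_cast at h2
      omega
    | succ n ih =>
      intro g hg h1 h2
      obtain ⟨u, t, hut, rfl⟩ := hg
      by_cases hc : ∃ g', Cut u g' ∧ r ≤ g'
      · obtain ⟨g', hg', h3⟩ := hc
        have h4 := hg'.range.2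
        have h5 : Cut w g' := by
          rw [hut.1, Cut_append_iff hut.2.1 hut.2.2]
          exact Or.inl hg'
        push_cast at h2
        obtain ⟨u', t', h6, h7, h8⟩ := ih g' h5 h3 (by omega)
        exact ⟨u', t', h6, h7, by omega⟩
      · refine ⟨u, t, hut, ⟨hut.2.1, h1, ?_⟩, le_rfl⟩
        intro g' hg'
        by_contra hc'
        exact hc ⟨g', hg', not_lt.1 hc'⟩
  exact key (g - r + 1).toNat g hg hr (by
    rw [Int.toNat_of_nonneg (by omega)]
    omega)

/-- Cut levels of the tail. -/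
lemma cut_tail {w u t : W} (h : CutAt w u t) {g : ℤ} (hg : Cut w g) (hlt : X u < g) :
    Cut t (g - X u - 1) := by
  rw [h.1, Cut_append_iff h.2.1 h.2.2] at hg
  rcases hg with h1 | h1 | h1
  · have := h1.range
    omega
  · omega
  · exact h1

/-- The next block. -/
lemma next_blk {w u t : W} (h : CutAt w u t) {g x : ℤ} (hg : Cut w g) (hx : 1 ≤ x)
    (hlt : X u + x ≤ g) : ∃ β t', t = β ++ a :: t' ∧ Blk x β ∧ CutAt w (u ++ a :: β) t' ∧
      X u + 1 + X β ≤ g := by
  have h1 := cut_tail h hg (by omega)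
  obtain ⟨β, t', h2, h3, h4⟩ := least_cut h1 (r := x - 1) (by omega)
  have hb : Bot t := h.2.2
  rw [h2.1] at hb
  have hβ : Bot β := hb.left
  refine ⟨β, t', h2.1, ⟨h2.2.1, hβ, ?_, ?_⟩, ⟨?_, ?_, h2.2.2⟩, ?_⟩
  · have := h3.2.1
    omega
  · intro g' hg'
    have := h3.2.2 g' hg'
    omega
  · rw [h.1, h2.1]
    simp
  · exact h.2.1.append h2.2.1.cons_a
  · omega

theorem full_parse {L : ℤ} {w : W} {o h : ℤ} {i τ : ℕ} (hτ : 1 ≤ τ) (hf : Full (US L w) o h i τ) :
    Good (rlo o h i) (rhi o h i) (12 * 90 ^ i) w ∨ Bad (rlo o h i) (rhi o h i) (12 * 90 ^ i) w := by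
  have hp := pow90_pos i
  obtain ⟨g0, hg0, h1, h2⟩ := cut_near hτ hf (r := rlo o h i) le_rfl (by omega)
  obtain ⟨u, t1, hu, hpre, hu2⟩ := least_cut hg0 h1
  have hlo := hpre.2.1
  obtain ⟨g1, hg1, h3, h4⟩ := cut_near hτ hf (r := X u + 12 * 90 ^ i) (by omega) (by omega)
  obtain ⟨β1, t2, ht1, hb1, hc1, h5⟩ := next_blk hu hg1 (x := 12 * 90 ^ i) (by omega) h3
  have hX1 : X (u ++ a :: β1) = X u + 1 + X β1 := by
    rw [X_append, X_cons, dx_a]; ring
  have hb1x := hb1.2.2.1
  obtain ⟨g2, hg2, h6, h7⟩ := cut_near hτ hf (r := X (u ++ a :: β1) + 12 * 90 ^ i)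
    (by omega) (by omega)
  obtain ⟨β2, t3, ht2, hb2, hc2, h8⟩ := next_blk hc1 hg2 (x := 12 * 90 ^ i) (by omega) h6
  have hX2 : X ((u ++ a :: β1) ++ a :: β2) = X u + 1 + X β1 + 1 + X β2 := by
    rw [X_append, X_cons, dx_a, hX1]; ring
  have hb2x := hb2.2.2.1
  obtain ⟨g3, hg3, h9, h10⟩ := cut_near hτ hf (r := X ((u ++ a :: β1) ++ a :: β2) + 12 * 90 ^ i)
    (by omega) (by omega)
  obtain ⟨β3, t, ht3, hb3, hc3, h11⟩ := next_blk hc2 hg3 (x := 12 * 90 ^ i) (by omega) h9
  have hpar : Parse (rlo o h i) (rhi o h i) (12 * 90 ^ i) u β1 β2 β3 t := by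
    refine ⟨hpre, hb1, hb2, hb3, hc3.2.2, ?_⟩
    unfold rhi
    omega
  have hw : w = asm u β1 β2 β3 t := by
    rw [hu.1, ht1, ht2, ht3]
    rfl
  by_cases hE : EE β1 β2 β3
  · exact Or.inl ⟨u, β1, β2, β3, t, hw, hpar, hE⟩
  · exact Or.inr ⟨u, β1, β2, β3, t, hw, hpar, hE⟩

/-! ### Good pairs -/

private lemma up_nn (β : W) : 0 ≤ up β := by
  cases β with
  | nil => exact le_refl _
  | cons s β => exact le_max_left _ _

private lemma le_up_pre {β p : W} (hp : p <+: β) : Y p ≤ up β := by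
  induction β generalizing p with
  | nil => rw [List.prefix_nil.1 hp]; exact le_refl _
  | cons s β ih =>
    rcases prefix_cons_iff' hp with rfl | ⟨p', rfl, hp'⟩
    · exact up_nn _
    · have h1 := ih hp'
      rw [Y_cons]
      exact le_trans (by omega) (le_max_right _ _)

private lemma up_attained (β : W) : ∃ v, v <+: β ∧ Y v = up β := by
  induction β with
  | nil => exact ⟨[], List.prefix_refl _, rfl⟩
  | cons s β ih =>
    obtain ⟨v, hv, h⟩ := ih
    rcases le_total 0 (dy s + up β) with h1 | h1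
    · refine ⟨s :: v, List.cons_prefix_cons.2 ⟨rfl, hv⟩, ?_⟩
      rw [Y_cons, h]
      exact (max_eq_right h1).symm
    · refine ⟨[], List.nil_prefix, ?_⟩
      rw [Y_nil]
      exact (max_eq_left h1).symm

/-- Between the cut levels `c0` and `c3` the highest value of `Y` is attained at the end of
`u ++ a :: (β1 ++ a :: v)`. -/
lemma asm_max {u β1 β2 β3 t v p' : W} (hu : Top u) (ht : Bot t) (hE : EE β1 β2 β3)
    (hv : Y v = up β2) (hp : p' <+: asm u β1 β2 β3 t) (h1 : X u < X p')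
    (h2 : X p' ≤ X u + X β1 + X β2 + X β3 + 3) : Y p' ≤ Y u + Y β1 + Y v := by
  obtain ⟨hE1, hE2⟩ := hE
  have hn := up_nn β2
  unfold asm at hp
  rcases prefix_app hp with hq | ⟨p1, rfl, q1⟩
  · have := hu.prefix_le hq
    omega
  rcases prefix_cons_iff' q1 with rfl | ⟨p2, rfl, q2⟩
  · rw [List.append_nil] at h1
    omega
  rcases prefix_app q2 with hq | ⟨p3, rfl, q3⟩
  · have h3 := le_up_pre hq
    rw [Y_append, Y_cons, dy_a]
    omega
  rcases prefix_cons_iff' q3 with rfl | ⟨p4, rfl, q4⟩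
  · rw [Y_append, Y_cons, dy_a, List.append_nil]
    omega
  rcases prefix_app q4 with hq | ⟨p5, rfl, q5⟩
  · have h3 := le_up_pre hq
    simp only [Y_append, Y_cons, dy_a]
    omega
  rcases prefix_cons_iff' q5 with rfl | ⟨p6, rfl, q6⟩
  · have h3 := le_up_pre (List.prefix_refl β2)
    simp only [Y_append, Y_cons, dy_a, Y_nil]
    omega
  rcases prefix_app q6 with hq | ⟨p7, rfl, q7⟩
  · have h3 := le_up_pre hq
    simp only [Y_append, Y_cons, dy_a]
    omega
  rcases prefix_cons_iff' q7 with rfl | ⟨p8, rfl, q8⟩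
  · have h3 := le_up_pre (List.prefix_refl β3)
    simp only [Y_append, Y_cons, dy_a, Y_nil]
    omega
  · have h3 := ht p8 q8
    simp only [X_append, X_cons, dx_a] at h2
    omega

/-- A pair of elements of `U`, one below and one above a point with the largest `Y`. -/
lemma gt_of {L y : ℤ} {w zp : W} {h1 h2 : ℤ} (hz : zp <+: w) (hu1 : UU L w h1) (hu2 : UU L w h2)
    (hy : 0 < y) (e1 : X zp - 4 * y ≤ h1) (e2 : h1 < X zp - 2 * y) (e3 : X zp + 2 * y < h2)
    (e4 : h2 ≤ X zp + 4 * y)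
    (hm : ∀ p', p' <+: w → X zp - 12 * y ≤ X p' → X p' ≤ X zp + 12 * y → Y p' ≤ Y zp) :
    ∃ p v1 v2 q, GT L y w p v1 v2 q ∧ X p = h1 ∧ X p + 1 + X v1 + X v2 = h2 := by
  obtain ⟨hY, hX, u1, t1, hc1, rfl, hf1⟩ := hu1
  obtain ⟨-, -, u2, t2, hc2, rfl, hf2⟩ := hu2
  obtain ⟨v, hv1, hv2, hv3, hv4⟩ := cut_lt hc1 hc2 (by omega)
  have hw := hc1.1
  have hX2 : X u2 = X u1 + 1 + X v := by
    rw [hv1, X_append, X_cons, dx_a]; ring
  have key : ∃ v1 v2, v = v1 ++ v2 ∧ zp = u1 ++ a :: v1 := by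
    rw [hw, hv2] at hz
    rcases prefix_app hz with hq | ⟨p1, rfl, q1⟩
    · have := hc1.2.1.prefix_le hq
      omega
    rcases prefix_cons_iff' q1 with rfl | ⟨p2, rfl, q2⟩
    · rw [List.append_nil] at e2
      omega
    rcases prefix_app q2 with hq | ⟨p3, rfl, q3⟩
    · obtain ⟨v2, rfl⟩ := hq
      exact ⟨p2, v2, rfl, rfl⟩
    rcases prefix_cons_iff' q3 with rfl | ⟨p4, rfl, q4⟩
    · exact ⟨v, [], by simp, by simp⟩
    · have h3 := hc2.2.2 p4 q4
      simp only [X_append, X_cons, dx_a] at e3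
      omega
  obtain ⟨v1, v2, rfl, rfl⟩ := key
  have hzX : X (u1 ++ a :: v1) = X u1 + 1 + X v1 := by
    rw [X_append, X_cons, dx_a]; ring
  have hzY : Y (u1 ++ a :: v1) = Y u1 + Y v1 := by
    rw [Y_append, Y_cons, dy_a]; ring
  rw [X_append] at hX2
  rw [hzX] at e1 e2 e3 e4
  rw [hzX, hzY] at hm
  refine ⟨u1, v1, v2, t2, ⟨?_, hc1.2.1, hv4, hv3, hc2.2.2, ?_, ?_, hY, hX, ?_, ?_, ?_, ?_, ?_⟩,
    rfl, by omega⟩
  · rw [hw, hv2]; simp
  · rw [hv2] at hf1
    simpa using hf1
  · rw [hv1] at hf2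
    exact hf2
  · omega
  · omega
  · omega
  · omega
  · intro p' hp' h3 h4
    exact hm p' hp' (by omega) (by omega)

/-- For a fixed node of level `i + 1` the elements `h` in it. -/
lemma al_eq_of {o h T : ℤ} {i : ℕ} (h1 : al o h i ≤ T) (h2 : T < al o h i + 90 ^ i) :
    al o T i = al o h i := by
  have hp := pow90_pos i
  unfold al at h1 h2 ⊢
  set y : ℤ := 90 ^ i with hy
  have h3 : (T - o) / y = (h - o) / y := by
    set k := (h - o) / y with hk
    have h4 : T - o = (T - o - y * k) + y * k := by ring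
    rw [h4, Int.add_mul_ediv_left _ _ hp.ne', Int.ediv_eq_zero_of_lt (by omega) (by omega)]
    ring
  rw [h3]

open Classical in
theorem good_pairs {N : ℕ} {w : W} (hw : w.length = N) (hs : SAW w) (L o : ℤ) (i τ : ℕ) :
    τ ^ 2 * ((US L w).filter (fun h => Full (US L w) o h i τ ∧
      Good (rlo o h i) (rhi o h i) (12 * 90 ^ i) w)).card ≤ 90 ^ (i + 1) * (GPs N L (90 ^ i) w).card := by
  have hp := pow90_pos i
  have key := Finset.card_mul_le_card_mul
    (s := (US L w).filter (fun h => Full (US L w) o h i τ ∧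
      Good (rlo o h i) (rhi o h i) (12 * 90 ^ i) w)) (t := GPs N L (90 ^ i) w)
    (m := τ ^ 2) (n := 90 ^ (i + 1))
    (fun (h : ℤ) (m : ℕ × ℕ × ℕ) => al o h (i + 1) ≤ X (w.take m.1) ∧
      X (w.take m.1) < al o h (i + 1) + 90 ^ (i + 1)) ?_ ?_
  · rw [mul_comm, mul_comm (90 ^ (i + 1))]
    exact key
  · -- many triples above each `h`
    intro h hh
    rw [Finset.mem_filter] at hh
    obtain ⟨-, hf, u, β1, β2, β3, t, hwe, hpar, hE⟩ := hh
    obtain ⟨hpre, hb1, hb2, hb3, hbt, hlt⟩ := hpar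
    obtain ⟨v, hv, hvY⟩ := up_attained β2
    have hlo := hpre.2.1
    have hx1 := hb1.2.2.1
    have hx3 := hb3.2.2.1
    have hv0 : 0 ≤ X v := hb2.2.1 v hv
    have hv1 : X v ≤ X β2 := hb2.1.prefix_le hv
    have hrhi : rhi o h i = rlo o h i + 45 * 90 ^ i := rfl
    set zp : W := u ++ a :: (β1 ++ a :: v) with hzp
    have hzX : X zp = X u + 1 + X β1 + 1 + X v := by
      simp only [hzp, X_append, X_cons, dx_a]; ring
    have hzY : Y zp = Y u + Y β1 + Y v := by
      simp only [hzp, Y_append, Y_cons, dy_a]; ring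
    have hz : zp <+: w := by
      rw [hwe]
      unfold asm
      rw [List.prefix_append_right_inj]
      refine List.cons_prefix_cons.2 ⟨rfl, ?_⟩
      rw [List.prefix_append_right_inj]
      exact List.cons_prefix_cons.2 ⟨rfl, hv.trans (List.prefix_append _ _)⟩
    have hm : ∀ p', p' <+: w → X zp - 12 * 90 ^ i ≤ X p' → X p' ≤ X zp + 12 * 90 ^ i →
        Y p' ≤ Y zp := by
      intro p' hp' h3 h4
      rw [hzY]
      exact asm_max hpre.1 hbt hE hvY (hwe ▸ hp') (by omega) (by omega)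
    obtain ⟨k1, hk1, h3, h4⟩ := child_near (o := o) (h := h) (i := i) (r := X zp - 4 * 90 ^ i)
      (by omega) (by omega)
    obtain ⟨k2, hk2, h5, h6⟩ := child_near (o := o) (h := h) (i := i) (r := X zp + 2 * 90 ^ i + 1)
      (by omega) (by omega)
    have hc1 := child_card hf k1 hk1
    have hc2 := child_card hf k2 hk2
    set A := (US L w).filter (fun g => rlo o h i + k1 * 90 ^ i ≤ g ∧
      g < rlo o h i + (k1 + 1) * 90 ^ i) with hA
    set B := (US L w).filter (fun g => rlo o h i + k2 * 90 ^ i ≤ g ∧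
      g < rlo o h i + (k2 + 1) * 90 ^ i) with hB
    have hsub : A ×ˢ B ⊆ ((GPs N L (90 ^ i) w).bipartiteAbove
      (fun (h : ℤ) (m : ℕ × ℕ × ℕ) => al o h (i + 1) ≤ X (w.take m.1) ∧
      X (w.take m.1) < al o h (i + 1) + 90 ^ (i + 1)) h).image
        (fun m => (X (w.take m.1), X (w.take (m.1 + 1 + m.2.1 + m.2.2)))) := by
      rintro ⟨g1, g2⟩ hg
      rw [Finset.mem_product] at hg
      obtain ⟨hg1, hg2⟩ := hg
      simp only [hA, Finset.mem_filter, mem_US] at hg1
      simp only [hB, Finset.mem_filter, mem_US] at hg2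
      obtain ⟨hU1, ha1, ha2⟩ := hg1
      obtain ⟨hU2, hb1', hb2'⟩ := hg2
      have e1 : ((k1 : ℤ) + 1) * 90 ^ i = k1 * 90 ^ i + 90 ^ i := by ring
      have e2 : ((k2 : ℤ) + 1) * 90 ^ i = k2 * 90 ^ i + 90 ^ i := by ring
      rw [e1] at ha2
      rw [e2] at hb2'
      obtain ⟨p, v1, v2, q, hGT, hX1, hX2⟩ := gt_of hz hU1 hU2 hp (by omega) (by omega)
        (by omega) (by omega) hm
      have hwp : w = p ++ a :: (v1 ++ (v2 ++ a :: q)) := hGT.1
      have hlen : N = p.length + (1 + (v1.length + (v2.length + (1 + q.length)))) := by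
        rw [← hw, hwp]
        simp only [List.length_append, List.length_cons]
        ring
      have ht1 : w.take p.length = p := by
        rw [hwp, List.take_append_of_le_length le_rfl, List.take_length]
      have ht2 : w.take (p.length + 1 + v1.length + v2.length) = p ++ a :: (v1 ++ v2) := by
        have h7 : w = (p ++ a :: (v1 ++ v2)) ++ (a :: q) := by
          rw [hwp]; simp
        have h8 : p.length + 1 + v1.length + v2.length = (p ++ a :: (v1 ++ v2)).length := by
          simp only [List.length_append, List.length_cons]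
          ring
        rw [h8, h7, List.take_append_of_le_length le_rfl, List.take_length]
      have hreg := region_sub o h i
      rw [Finset.mem_image]
      refine ⟨(p.length, v1.length, v2.length), ?_, ?_⟩
      · rw [Finset.mem_bipartiteAbove]
        refine ⟨?_, ?_⟩
        · unfold GPs
          rw [Finset.mem_filter]
          refine ⟨?_, p, v1, v2, q, hGT, rfl, rfl, rfl⟩
          simp only [Finset.mem_product, Finset.mem_range]
          omega
        · show al o h (i + 1) ≤ X (w.take p.length) ∧ X (w.take p.length) <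
            al o h (i + 1) + 90 ^ (i + 1)
          rw [ht1, hX1]
          constructor <;> omega
      · show (X (w.take p.length), X (w.take (p.length + 1 + v1.length + v2.length))) = (g1, g2)
        rw [ht1, ht2, hX1, X_append, X_cons, dx_a, X_append]
        congr 1
        omega
    have h7 := (Finset.card_le_card hsub).trans Finset.card_image_le
    rw [Finset.card_product] at h7
    calc τ ^ 2 = τ * τ := sq τ
      _ ≤ A.card * B.card := Nat.mul_le_mul hc1 hc2
      _ ≤ _ := h7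
  · -- few `h` below each triple
    intro m _
    have hsub : (((US L w).filter (fun h => Full (US L w) o h i τ ∧
      Good (rlo o h i) (rhi o h i) (12 * 90 ^ i) w)).bipartiteBelow
      (fun (h : ℤ) (m : ℕ × ℕ × ℕ) => al o h (i + 1) ≤ X (w.take m.1) ∧
      X (w.take m.1) < al o h (i + 1) + 90 ^ (i + 1)) m) ⊆
      Finset.Ico (al o (X (w.take m.1)) (i + 1)) (al o (X (w.take m.1)) (i + 1) + 90 ^ (i + 1)) := by
      intro h hh
      rw [Finset.mem_bipartiteBelow] at hh
      obtain ⟨-, h1, h2⟩ := hh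
      rw [Finset.mem_Ico, al_eq_of h1 h2]
      exact al_range o h (i + 1)
    refine (Finset.card_le_card hsub).trans ?_
    rw [Int.card_Ico]
    have h3 : al o (X (w.take m.1)) (i + 1) + 90 ^ (i + 1) - al o (X (w.take m.1)) (i + 1) =
      ((90 ^ (i + 1) : ℕ) : ℤ) := by
      push_cast
      ring
    rw [h3, Int.toNat_natCast]

end SW64
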