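import Pool.Agent.SW64.Defs

/-! Counting light nodes and non-full nodes in the 90-adic tree (MP_26a5d6_pr). -/

namespace SW64

/-- The node with index `q` of level `j`. -/
noncomputable def nd (o : ℤ) (j : ℕ) (q : ℤ) : Finset ℤ :=
  Finset.Ico (o + 90 ^ j * q) (o + 90 ^ j * q + 90 ^ j)

lemma mem_nd {o : ℤ} {j : ℕ} {q h : ℤ} : h ∈ nd o j q ↔ (h - o) / 90 ^ j = q := by
  unfold nd
  rw [Finset.mem_Ico]
  have hp : (0 : ℤ) < 90 ^ j := by positivity
  rw [Int.ediv_eq_iff_of_pos hp]
  constructor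
  · rintro ⟨h1, h2⟩
    constructor <;> nlinarith
  · rintro ⟨h1, h2⟩
    constructor <;> nlinarith

lemma al_of_mem {o : ℤ} {j : ℕ} {q h : ℤ} (hh : h ∈ nd o j q) : al o h j = o + 90 ^ j * q := by
  unfold al
  rw [mem_nd.1 hh]

/-- Number of elements of `U` in a node. -/
noncomputable def cn (U : Finset ℤ) (o : ℤ) (j : ℕ) (q : ℤ) : ℕ :=
  (U.filter (fun g => o + 90 ^ j * q ≤ g ∧ g < o + 90 ^ j * q + 90 ^ j)).card

lemma light_iff {U : Finset ℤ} {o : ℤ} {j τ : ℕ} {q h : ℤ} (hh : h ∈ nd o j q) :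
    Light U o h j τ ↔ cn U o j q < τ := by
  unfold Light cn
  rw [al_of_mem hh]

lemma full_iff {U : Finset ℤ} {o : ℤ} {j τ : ℕ} {q h : ℤ} (hh : h ∈ nd o (j + 1) q) :
    Full U o h j τ ↔ ∀ c : ℕ, c < 90 → τ ≤ cn U o j (90 * q + c) := by
  unfold Full cn
  rw [al_of_mem hh]
  refine forall_congr' (fun c => ?_)
  have e1 : o + 90 ^ (j + 1) * q + c * 90 ^ j = o + 90 ^ j * (90 * q + c) := by ring
  have e2 : o + 90 ^ (j + 1) * q + (c + 1) * 90 ^ j = o + 90 ^ j * (90 * q + c) + 90 ^ j := by ring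
  rw [e1, e2]

lemma nd_succ (o : ℤ) (j : ℕ) (q : ℤ) :
    nd o (j + 1) q = (Finset.range 90).biUnion (fun c => nd o j (90 * q + (c : ℕ))) := by
  ext h
  rw [Finset.mem_biUnion]
  have hp : (0 : ℤ) < 90 ^ j := by positivity
  have e : (h - o) / 90 ^ (j + 1) = ((h - o) / 90 ^ j) / 90 := by
    rw [pow_succ, Int.ediv_ediv_of_nonneg hp.le]
  rw [mem_nd, e]
  constructor
  · intro h1
    refine ⟨(((h - o) / 90 ^ j) % 90).toNat, ?_, ?_⟩
    · rw [Finset.mem_range]; omega
    · rw [mem_nd]; omega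
  · rintro ⟨c, hc, h1⟩
    rw [Finset.mem_range] at hc
    rw [mem_nd] at h1
    omega

lemma nd_disj (o : ℤ) (j : ℕ) (q : ℤ) :
    ((Finset.range 90 : Finset ℕ) : Set ℕ).PairwiseDisjoint (fun c => nd o j (90 * q + (c : ℕ))) := by
  intro c _ c' _ hcc
  rw [Function.onFun, Finset.disjoint_left]
  intro h h1 h2
  rw [mem_nd] at h1 h2
  omega

open Classical in
theorem light_count (U : Finset ℤ) (o : ℤ) (J K K' : ℕ) (hU : ∀ h ∈ U, o ≤ h ∧ h < o + 90 ^ J)
    (hK : K + K' ≤ J) :
    (U.filter (fun h => ∃ i ∈ Finset.Ico (J - K) J, Light U o h i (90 ^ (i - K')))).card ≤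
      K * 90 ^ (J - K') := by
  have h1 : U.filter (fun h => ∃ i ∈ Finset.Ico (J - K) J, Light U o h i (90 ^ (i - K'))) ⊆
      (Finset.Ico (J - K) J).biUnion (fun i => U.filter (fun h => Light U o h i (90 ^ (i - K')))) := by
    intro h hh
    rw [Finset.mem_filter] at hh
    obtain ⟨hU', i, hi, hl⟩ := hh
    rw [Finset.mem_biUnion]
    exact ⟨i, hi, Finset.mem_filter.2 ⟨hU', hl⟩⟩
  refine (Finset.card_le_card h1).trans (Finset.card_biUnion_le.trans ?_)
  have h2 : ∀ i ∈ Finset.Ico (J - K) J,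
      (U.filter (fun h => Light U o h i (90 ^ (i - K')))).card ≤ 90 ^ (J - K') := by
    intro i hi
    rw [Finset.mem_Ico] at hi
    have hp : (0 : ℤ) < 90 ^ i := by positivity
    -- map to the index of the node
    have h3 : ∀ h ∈ U.filter (fun h => Light U o h i (90 ^ (i - K'))),
        (h - o) / 90 ^ i ∈ Finset.Ico (0 : ℤ) (90 ^ (J - i)) := by
      intro h hh
      have := hU h (Finset.mem_filter.1 hh).1
      rw [Finset.mem_Ico]
      constructor
      · exact Int.ediv_nonneg (by omega) hp.le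
      · apply Int.ediv_lt_of_lt_mul hp
        rw [← pow_add, Nat.sub_add_cancel hi.2.le]
        omega
    have h4 := Finset.card_le_mul_card_image_of_maps_to h3 (90 ^ (i - K')) ?_
    · refine h4.trans ?_
      rw [Int.card_Ico]
      have e1 : ((90 : ℤ) ^ (J - i) - 0).toNat = 90 ^ (J - i) := by
        rw [sub_zero]
        have : ((90 : ℤ) ^ (J - i)) = ((90 ^ (J - i) : ℕ) : ℤ) := by push_cast; ring
        rw [this, Int.toNat_natCast]
      rw [e1, ← pow_add]
      apply Nat.pow_le_pow_right (by norm_num)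
      omega
    · intro q _
      by_cases hne : ((U.filter (fun h => Light U o h i (90 ^ (i - K')))).filter
          (fun h => (h - o) / 90 ^ i = q)).Nonempty
      · obtain ⟨h0, hh0⟩ := hne
        rw [Finset.mem_filter, Finset.mem_filter] at hh0
        have hm0 : h0 ∈ nd o i q := mem_nd.2 hh0.2
        have hl := (light_iff hm0).1 hh0.1.2
        refine le_trans (Finset.card_le_card ?_) hl.le
        intro h hh
        rw [Finset.mem_filter, Finset.mem_filter] at hh
        rw [Finset.mem_filter]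
        have hm : h ∈ nd o i q := mem_nd.2 hh.2
        unfold nd at hm
        rw [Finset.mem_Ico] at hm
        exact ⟨hh.1.1, hm⟩
      · rw [Finset.not_nonempty_iff_eq_empty] at hne
        rw [hne]
        simp
  refine (Finset.sum_le_card_nsmul _ _ _ h2).trans ?_
  rw [Nat.card_Ico, smul_eq_mul]
  apply Nat.mul_le_mul_right
  omega

open Classical in
/-- The weight of `h` after the levels in `[j0, j)`. -/
noncomputable def twt (U : Finset ℤ) (o : ℤ) (τ : ℕ → ℕ) (j0 j : ℕ) (h : ℤ) : ℝ :=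
  if (∀ i ∈ Finset.Ico j0 j, ¬ Light U o h i (τ i)) then
    (90 / 89 : ℝ) ^ ((Finset.Ico j0 j).filter (fun i => ¬ Full U o h i (τ i))).card else 0

open Classical in
lemma twt_nonneg (U : Finset ℤ) (o : ℤ) (τ : ℕ → ℕ) (j0 j : ℕ) (h : ℤ) :
    0 ≤ twt U o τ j0 j h := by
  unfold twt
  split
  · positivity
  · exact le_refl _

open Classical in
lemma twt_succ (U : Finset ℤ) (o : ℤ) (τ : ℕ → ℕ) (j0 j : ℕ) (hj : j0 ≤ j) (h : ℤ) :
    twt U o τ j0 (j + 1) h = (if Light U o h j (τ j) then 0 else twt U o τ j0 j h) *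
      (if Full U o h j (τ j) then 1 else (90 / 89 : ℝ)) := by
  have e1 : Finset.Ico j0 (j + 1) = insert j (Finset.Ico j0 j) := by
    ext x
    rw [Finset.mem_insert, Finset.mem_Ico, Finset.mem_Ico]
    omega
  have e2 : j ∉ Finset.Ico j0 j := by simp
  unfold twt
  rw [e1]
  by_cases h1 : Light U o h j (τ j)
  · rw [if_pos h1, zero_mul, if_neg]
    intro h2
    exact h2 j (Finset.mem_insert_self _ _) h1
  · rw [if_neg h1]
    by_cases h2 : ∀ i ∈ Finset.Ico j0 j, ¬ Light U o h i (τ i)
    · rw [if_pos h2, if_pos]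
      · rw [Finset.filter_insert]
        by_cases h3 : Full U o h j (τ j)
        · rw [if_neg (not_not.2 h3), if_pos h3, mul_one]
        · rw [if_pos h3, if_neg h3, Finset.card_insert_of_notMem, pow_succ]
          intro h4
          exact e2 (Finset.mem_filter.1 h4).1
      · intro i hi
        rcases Finset.mem_insert.1 hi with rfl | hi
        · exact h1
        · exact h2 i hi
    · rw [if_neg h2, zero_mul, if_neg]
      intro h3
      exact h2 (fun i hi => h3 i (Finset.mem_insert_of_mem hi))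

lemma twt_sum (U : Finset ℤ) (o : ℤ) (τ : ℕ → ℕ) (j0 k : ℕ) (q : ℤ) :
    ∑ h ∈ nd o (j0 + k) q, twt U o τ j0 (j0 + k) h ≤ 90 ^ (j0 + k) := by
  classical
  induction k generalizing q with
  | zero =>
    have h1 : ∀ h ∈ nd o (j0 + 0) q, twt U o τ j0 (j0 + 0) h = 1 := by
      intro h _
      unfold twt
      simp
    rw [Finset.sum_congr rfl h1, Finset.sum_const, nsmul_eq_mul, mul_one]
    unfold nd
    rw [Int.card_Ico]
    have : (o + 90 ^ (j0 + 0) * q + 90 ^ (j0 + 0) - (o + 90 ^ (j0 + 0) * q)) =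
        ((90 ^ (j0 + 0) : ℕ) : ℤ) := by push_cast; ring
    rw [this, Int.toNat_natCast]
    push_cast
    exact le_refl _
  | succ k ih =>
    set j := j0 + k with hj
    have hjj : j0 + (k + 1) = j + 1 := by omega
    rw [hjj, nd_succ, Finset.sum_biUnion (nd_disj o j q)]
    have hmem : ∀ c ∈ Finset.range 90, ∀ h ∈ nd o j (90 * q + (c : ℕ)), h ∈ nd o (j + 1) q := by
      intro c hc h hh
      rw [nd_succ, Finset.mem_biUnion]
      exact ⟨c, hc, hh⟩
    by_cases hfull : ∀ c : ℕ, c < 90 → τ j ≤ cn U o j (90 * q + c)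
    · have h1 : ∀ c ∈ Finset.range 90, ∑ h ∈ nd o j (90 * q + (c : ℕ)), twt U o τ j0 (j + 1) h ≤
          90 ^ j := by
        intro c hc
        refine le_trans (Finset.sum_le_sum ?_) (ih (90 * q + (c : ℕ)))
        intro h hh
        rw [twt_succ U o τ j0 j (by omega) h]
        have hF : Full U o h j (τ j) := (full_iff (hmem c hc h hh)).2 hfull
        rw [if_pos hF, mul_one]
        split
        · exact twt_nonneg _ _ _ _ _ _
        · exact le_refl _
      refine (Finset.sum_le_card_nsmul _ _ _ h1).trans ?_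
      rw [Finset.card_range, nsmul_eq_mul, pow_succ]
      push_cast
      linarith
    · push Not at hfull
      obtain ⟨c0, hc0, hlt⟩ := hfull
      have h1 : ∀ c ∈ Finset.range 90, ∑ h ∈ nd o j (90 * q + (c : ℕ)), twt U o τ j0 (j + 1) h ≤
          if c = c0 then 0 else 90 ^ j * (90 / 89) := by
        intro c hc
        by_cases hcc : c = c0
        · rw [if_pos hcc]
          apply Finset.sum_nonpos
          intro h hh
          rw [twt_succ U o τ j0 j (by omega) h]
          have hL : Light U o h j (τ j) := by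
            rw [light_iff hh, hcc]; exact hlt
          rw [if_pos hL, zero_mul]
        · rw [if_neg hcc]
          have h2 : ∀ h ∈ nd o j (90 * q + (c : ℕ)), twt U o τ j0 (j + 1) h ≤
              twt U o τ j0 j h * (90 / 89) := by
            intro h _
            rw [twt_succ U o τ j0 j (by omega) h]
            have h0 := twt_nonneg U o τ j0 j h
            split
            · split <;> nlinarith
            · split <;> nlinarith
          refine (Finset.sum_le_sum h2).trans ?_
          rw [← Finset.sum_mul]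
          exact mul_le_mul_of_nonneg_right (ih _) (by norm_num)
      refine (Finset.sum_le_sum h1).trans ?_
      rw [← Finset.sum_erase_add _ _ (Finset.mem_range.2 hc0), if_pos rfl, add_zero]
      have h3 : ∀ c ∈ (Finset.range 90).erase c0, (if c = c0 then (0 : ℝ) else 90 ^ j * (90 / 89)) =
          90 ^ j * (90 / 89) := by
        intro c hc
        rw [if_neg (Finset.ne_of_mem_erase hc)]
      rw [Finset.sum_congr rfl h3, Finset.sum_const, Finset.card_erase_of_mem
        (Finset.mem_range.2 hc0), Finset.card_range, nsmul_eq_mul, pow_succ]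
      push_cast
      apply le_of_eq
      ring

open Classical in
theorem nonfull_count (U : Finset ℤ) (o : ℤ) (J K : ℕ) (hKJ : K ≤ J) (τ : ℕ → ℕ) (m : ℕ) :
    90 ^ m * ((Finset.Ico o (o + 90 ^ J)).filter (fun h =>
      (∀ i ∈ Finset.Ico (J - K) J, ¬ Light U o h i (τ i)) ∧
      m ≤ ((Finset.Ico (J - K) J).filter (fun i => ¬ Full U o h i (τ i))).card)).card ≤
    89 ^ m * 90 ^ J := by
  have h1 := twt_sum U o τ (J - K) K 0
  rw [Nat.sub_add_cancel hKJ] at h1
  have e1 : nd o J 0 = Finset.Ico o (o + 90 ^ J) := by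
    unfold nd
    rw [mul_zero, add_zero]
  rw [e1] at h1
  set S := (Finset.Ico o (o + 90 ^ J)).filter (fun h =>
      (∀ i ∈ Finset.Ico (J - K) J, ¬ Light U o h i (τ i)) ∧
      m ≤ ((Finset.Ico (J - K) J).filter (fun i => ¬ Full U o h i (τ i))).card) with hS
  have h2 : ∑ h ∈ S, (90 / 89 : ℝ) ^ m ≤ ∑ h ∈ S, twt U o τ (J - K) J h := by
    apply Finset.sum_le_sum
    intro h hh
    rw [hS, Finset.mem_filter] at hh
    unfold twt
    rw [if_pos hh.2.1]
    exact pow_le_pow_right₀ (by norm_num) hh.2.2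
  have h3 : ∑ h ∈ S, twt U o τ (J - K) J h ≤
      ∑ h ∈ Finset.Ico o (o + 90 ^ J), twt U o τ (J - K) J h :=
    Finset.sum_le_sum_of_subset_of_nonneg (Finset.filter_subset _ _)
      (fun h _ _ => twt_nonneg _ _ _ _ _ _)
  have h4 : (S.card : ℝ) * (90 / 89 : ℝ) ^ m ≤ 90 ^ J := by
    rw [Finset.sum_const, nsmul_eq_mul] at h2
    linarith
  have h5 : (90 : ℝ) ^ m * S.card ≤ 89 ^ m * 90 ^ J := by
    rw [div_pow] at h4
    have h6 : (0 : ℝ) < 89 ^ m := by positivity
    have h7 : (90 : ℝ) ^ m * S.card = 89 ^ m * (S.card * (90 ^ m / 89 ^ m)) := by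
      field_simp
    rw [h7]
    exact mul_le_mul_of_nonneg_left h4 h6.le
  exact_mod_cast h5

end SW64
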