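import Pool.Agent.SW64.Defs

/-! Unfolding at the last maximum (MP_26a5d6_pr, blueprint T6). -/

namespace SW64

open St

/-- Decomposition at the last maximum. -/
lemma last_max (w : W) : ∃ u v, w = u ++ v ∧ Top u ∧
    (∀ p, p <+: w → X p ≤ X u) ∧ (v = [] ∨ ∃ v', v = A :: v' ∧ Bot (R1 v')) := by
  induction w with
  | nil =>
    refine ⟨[], [], rfl, Top_nil, ?_, Or.inl rfl⟩
    intro p hp
    rw [List.prefix_nil.1 hp]
  | cons s w ih =>
    obtain ⟨u, v, rfl, h1, h2, h3⟩ := ih
    by_cases h : 0 ≤ dx s + X u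
    · refine ⟨s :: u, v, rfl, ?_, ?_, h3⟩
      · intro q hq
        rcases List.suffix_cons_iff.1 hq with rfl | hq
        · rw [X_cons]; exact h
        · exact h1 q hq
      · intro p hp
        rcases prefix_cons_iff' hp with rfl | ⟨p', rfl, hp'⟩
        · rw [X_cons]; simpa using h
        · have := h2 p' hp'
          rw [X_cons, X_cons]; omega
    · have hu := h1.nonneg
      have hs : s = A := by
        cases s <;> simp at h ⊢ <;> omega
      subst hs
      rw [dx_A] at h
      have hu0 : X u = 0 := by omega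
      refine ⟨[], A :: (u ++ v), rfl, Top_nil, ?_, Or.inr ⟨u ++ v, rfl, ?_⟩⟩
      · intro p hp
        rcases prefix_cons_iff' hp with rfl | ⟨p', rfl, hp'⟩
        · simp
        · have := h2 p' hp'
          rw [X_cons, dx_A, X_nil]; omega
      · intro p hp
        obtain ⟨r, hr⟩ := hp
        have h4 : R1 p <+: u ++ v := ⟨R1 r, by rw [← R1_append, hr, R1_R1]⟩
        have := h2 _ h4
        rw [X_R1] at this
        omega

open Classical in
theorem unfold_count {N : ℕ} {S L : ℤ} (hLS : L < S) :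
    ((SAWs N).filter (fun w => (∃ p, p <+: w ∧ S ≤ X p) ∧ |X w| ≤ L ∧ |Y w| ≤ L)).card ≤
    ∑ w ∈ (SAWs N).filter (fun w => S ≤ X w), (US L w).card := by
  rw [← Finset.card_sigma]
  refine Finset.card_le_card_of_forall_subsingleton
    (fun w (x : (_ : W) × ℤ) => ∃ u t, w = fold u t ∧ CutAt x.1 u t ∧ X u = x.2) ?_ ?_
  · intro w hw
    rw [Finset.mem_filter, mem_SAWs] at hw
    obtain ⟨⟨hlen, hsaw⟩, ⟨p, hp, hpS⟩, hX, hY⟩ := hw
    obtain ⟨u, v, rfl, h1, h2, h3⟩ := last_max w
    have hu : S ≤ X u := hpS.trans (h2 p hp)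
    rcases h3 with rfl | ⟨v', rfl, h3⟩
    · exfalso
      rw [List.append_nil, abs_le] at hX
      omega
    · have hf : u ++ A :: v' = fold u (R1 v') := by rw [fold, R1_R1]
      rw [hf] at hX hY hlen
      have hc : CutAt (u ++ a :: R1 v') u (R1 v') := ⟨rfl, h1, h3⟩
      rw [X_fold] at hX
      rw [Y_fold] at hY
      rw [abs_le] at hX
      refine ⟨⟨u ++ a :: R1 v', X u⟩, ?_, ⟨u, R1 v', hf, hc, rfl⟩⟩
      rw [Finset.mem_sigma]
      constructor
      · rw [Finset.mem_filter, mem_SAWs]
        refine ⟨⟨?_, ?_⟩, ?_⟩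
        · rw [length_fold] at hlen
          simp only [List.length_append, List.length_cons]
          omega
        · exact glue hsaw.left (SAW_R1 hsaw.right.tail') h1 h3
        · change S ≤ X (u ++ a :: R1 v')
          rw [X_append, X_cons, dx_a]
          omega
      · change X u ∈ US L (u ++ a :: R1 v')
        rw [mem_US]
        refine ⟨?_, ?_, u, R1 v', hc, rfl, by rw [← hf]; exact hsaw⟩
        · rw [Y_append, Y_cons, dy_a, zero_add]
          exact hY
        · rw [abs_le, X_append, X_cons, dx_a]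
          constructor <;> omega
  · rintro ⟨w', h⟩ - w1 ⟨-, u1, t1, rfl, h1, h2⟩ w2 ⟨-, u2, t2, rfl, h3, h4⟩
    obtain ⟨rfl, rfl⟩ := cut_unique h1 h3 (by rw [h2, h4])
    rfl

end SW64
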