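import Pool.Agent.SW64.Defs

/-! The Z-operation (MP_26a5d6_pr, blueprint T6): from a good triple of an `N`-step
self-avoiding word to an `(N+1)`-step one, and the bound for the number of good triples. -/

namespace SW64

open St

/-- Fold at the first cut, put a step `b` at `z`, and reflect the rest. -/
def zop (p v1 v2 q : W) : W := fold p v1 ++ b :: R2 (R1 v2 ++ a :: q)

lemma R1_prefix {r v : W} (h : r <+: R1 v) : ∃ r1, r = R1 r1 ∧ r1 <+: v := by
  obtain ⟨t, ht⟩ := h
  refine ⟨R1 r, by simp, R1 t, ?_⟩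
  rw [← R1_append, ht, R1_R1]

lemma R2_prefix {r v : W} (h : r <+: R2 v) : ∃ r1, r = R2 r1 ∧ r1 <+: v := by
  obtain ⟨t, ht⟩ := h
  refine ⟨R2 r, by simp, R2 t, ?_⟩
  rw [← R2_append, ht, R2_R2]

section
variable {L y : ℤ} {w p v1 v2 q : W}

lemma GT.strip (h : GT L y w p v1 v2 q) {s : W} (hs : s <+: fold p v1)
    (hX : X p - (1 + X v1 + X v2) ≤ X s) : X s ≤ X p ∧ Y s ≤ Y p + Y v1 := by
  obtain ⟨rfl, hp, hb, ht, hq, hf1, hf2, hY, hXL, h1, h2, h3, h4, hm⟩ := h
  unfold fold at hs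
  rcases prefix_app hs with hs | ⟨t, rfl, ht'⟩
  · have h5 := hp.prefix_le hs
    refine ⟨h5, hm s (hs.trans (List.prefix_append _ _)) hX ?_⟩
    have := hb.nonneg
    rw [X_append] at this
    omega
  · rcases prefix_cons_iff' ht' with rfl | ⟨t', rfl, ht2⟩
    · rw [List.append_nil] at hX ⊢
      refine ⟨le_refl _, hm p (List.prefix_append _ _) hX ?_⟩
      have := hb.nonneg
      rw [X_append] at this
      omega
    · obtain ⟨r1, rfl, hr1⟩ := R1_prefix ht2
      have h5 : 0 ≤ X r1 := hb r1 (hr1.trans (List.prefix_append _ _))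
      rw [X_append, X_cons, dx_A, X_R1] at hX
      have h6 : p ++ a :: r1 <+: p ++ a :: (v1 ++ (v2 ++ a :: q)) := by
        rw [List.prefix_append_right_inj]
        exact List.cons_prefix_cons.2 ⟨rfl, hr1.trans (List.prefix_append _ _)⟩
      have h7 := hm _ h6 (by rw [X_append, X_cons, dx_a]; omega)
        (by rw [X_append, X_cons, dx_a]; omega)
      rw [Y_append, Y_cons, dy_a] at h7
      rw [X_append, X_cons, dx_A, X_R1, Y_append, Y_cons, dy_A, Y_R1]
      constructor <;> omega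

lemma GT.tailprop (h : GT L y w p v1 v2 q) {r : W} (hr : r <+: R1 v2 ++ a :: q) :
    - X v2 ≤ X r ∧ (X p - 1 - X v1 + X r ≤ X p → Y r ≤ 0) := by
  obtain ⟨rfl, hp, hb, ht, hq, hf1, hf2, hY, hXL, h1, h2, h3, h4, hm⟩ := h
  rcases prefix_app hr with hr | ⟨t, rfl, ht'⟩
  · obtain ⟨r1, rfl, hr1⟩ := R1_prefix hr
    have h5 : X r1 ≤ X v2 := ht.right.prefix_le hr1
    have h5' : 0 ≤ X (v1 ++ r1) := hb _ (by rw [List.prefix_append_right_inj]; exact hr1)
    rw [X_append] at h5'
    rw [X_R1, Y_R1]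
    refine ⟨by omega, fun h6 => ?_⟩
    have h6 : p ++ a :: (v1 ++ r1) <+: p ++ a :: (v1 ++ (v2 ++ a :: q)) := by
      rw [List.prefix_append_right_inj]
      refine List.cons_prefix_cons.2 ⟨rfl, ?_⟩
      rw [List.prefix_append_right_inj]
      exact hr1.trans (List.prefix_append _ _)
    have h7 := hm _ h6 (by rw [X_append, X_cons, dx_a, X_append]; omega)
      (by rw [X_append, X_cons, dx_a, X_append]; omega)
    rw [Y_append, Y_cons, dy_a, Y_append] at h7
    omega
  · rcases prefix_cons_iff' ht' with rfl | ⟨t', rfl, ht2⟩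
    · rw [List.append_nil, X_R1, Y_R1]
      refine ⟨le_refl _, fun h6 => ?_⟩
      have h6 : p ++ a :: (v1 ++ v2) <+: p ++ a :: (v1 ++ (v2 ++ a :: q)) := by
        rw [List.prefix_append_right_inj]
        refine List.cons_prefix_cons.2 ⟨rfl, ?_⟩
        rw [List.prefix_append_right_inj]
        exact List.prefix_append _ _
      have h7 := hm _ h6 (by rw [X_append, X_cons, dx_a, X_append]; omega)
        (by rw [X_append, X_cons, dx_a, X_append]; omega)
      rw [Y_append, Y_cons, dy_a, Y_append] at h7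
      omega
    · have h5 : 0 ≤ X t' := hq t' ht2
      rw [X_append, X_cons, dx_a, X_R1, Y_append, Y_cons, dy_a, Y_R1]
      refine ⟨by omega, fun h8 => ?_⟩
      have h6 : p ++ a :: (v1 ++ (v2 ++ a :: t')) <+: p ++ a :: (v1 ++ (v2 ++ a :: q)) := by
        rw [List.prefix_append_right_inj]
        refine List.cons_prefix_cons.2 ⟨rfl, ?_⟩
        rw [List.prefix_append_right_inj, List.prefix_append_right_inj]
        exact List.cons_prefix_cons.2 ⟨rfl, ht2⟩
      have h7 := hm _ h6 (by simp only [X_append, X_cons, dx_a]; omega)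
        (by simp only [X_append, X_cons, dx_a]; omega)
      simp only [Y_append, Y_cons, dy_a] at h7
      omega

lemma GT.saw (h : GT L y w p v1 v2 q) : SAW (zop p v1 v2 q) := by
  have hS : SAW (fold p v1) := by
    obtain ⟨rfl, hp, hb, ht, hq, hf1, hf2, hY, hXL, h1, h2, h3, h4, hm⟩ := h
    refine hf1.sub' (List.IsPrefix.isInfix ?_)
    unfold fold
    rw [List.prefix_append_right_inj, R1_append]
    exact List.cons_prefix_cons.2 ⟨rfl, List.prefix_append _ _⟩
  have hT : SAW (R1 v2 ++ a :: q) := by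
    obtain ⟨rfl, hp, hb, ht, hq, hf1, hf2, hY, hXL, h1, h2, h3, h4, hm⟩ := h
    have h5 := SAW_R1 hf2
    refine h5.sub' (List.IsSuffix.isInfix ?_)
    unfold fold
    refine ⟨R1 p ++ A :: R1 v1, ?_⟩
    simp
  intro v hv hne h0
  unfold zop at hv
  have key : ∀ s r : W, s <:+ fold p v1 → r <+: R2 (R1 v2 ++ a :: q) →
      X (s ++ b :: r) = 0 → Y (s ++ b :: r) = 0 → False := by
    intro s r hs hr hX0 hY0
    obtain ⟨r1, rfl, hr1⟩ := R2_prefix hr
    obtain ⟨S0, hS0⟩ := hs
    have h1 := h.tailprop hr1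
    have h2 := h.strip (s := S0) ⟨s, hS0⟩
    have h3 : X (fold p v1) = X S0 + X s := by rw [← hS0, X_append]
    have h4 : Y (fold p v1) = Y S0 + Y s := by rw [← hS0, Y_append]
    rw [X_fold] at h3
    rw [Y_fold] at h4
    rw [X_append, X_cons, dx_b, X_R2] at hX0
    rw [Y_append, Y_cons, dy_b, Y_R2] at hY0
    have h5 := h2 (by omega)
    have h6 := h1.2 (by omega)
    omega
  rcases infix_app hv with h1 | h1 | ⟨s, r, rfl, hs, hr⟩
  · exact hS v h1 hne h0
  · rcases List.infix_cons_iff.1 h1 with h1 | h1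
    · rcases prefix_cons_iff' h1 with rfl | ⟨p', rfl, hp'⟩
      · exact hne rfl
      · exact key [] p' (List.nil_suffix) hp' (by simpa using h0.1) (by simpa using h0.2.1)
    · exact SAW_R2 hT v h1 hne h0
  · rcases prefix_cons_iff' hr with rfl | ⟨p', rfl, hp'⟩
    · exact hS s hs.isInfix (by simpa using hne) (by simpa using h0)
    · exact key s p' hs hp' h0.1 h0.2.1

lemma GT.length (h : GT L y w p v1 v2 q) : (zop p v1 v2 q).length = w.length + 1 := by
  obtain ⟨rfl, hp, hb, ht, hq, hf1, hf2, hY, hXL, h1, h2, h3, h4, hm⟩ := h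
  unfold zop
  simp only [List.length_append, List.length_cons, length_R2, length_R1, length_fold]
  omega

lemma GT.X_zop (h : GT L y w p v1 v2 q) :
    X (zop p v1 v2 q) = X w - 2 * (1 + X v1 + X v2) := by
  obtain ⟨rfl, hp, hb, ht, hq, hf1, hf2, hY, hXL, h1, h2, h3, h4, hm⟩ := h
  unfold zop
  simp only [X_append, X_cons, X_R2, X_R1, X_fold, dx_a, dx_b]
  omega

lemma GT.Y_zop (h : GT L y w p v1 v2 q) :
    Y (zop p v1 v2 q) = 2 * (Y p + Y v1) + 1 - Y w := by
  obtain ⟨rfl, hp, hb, ht, hq, hf1, hf2, hY, hXL, h1, h2, h3, h4, hm⟩ := h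
  unfold zop
  simp only [Y_append, Y_cons, Y_R2, Y_R1, Y_fold, dy_a, dy_b]
  omega

end

lemma ediv_close {m n k : ℤ} (hk : 0 < k) (h : m / k = n / k) : m < n + k := by
  have h1 := Int.emod_add_mul_ediv m k
  have h2 := Int.emod_add_mul_ediv n k
  have h3 := Int.emod_lt_of_pos m hk
  have h4 := Int.emod_nonneg n hk.ne'
  rw [h] at h1
  omega

lemma zop_inj_aux {L y : ℤ} {p v1 w' p' v1' v2' q' : W} (hy : 1 ≤ y)
    (h' : GT L y w' p' v1' v2' q')
    (hc : (X p - 1 - X v1) / (2 * y) = (X p' - 1 - X v1') / (2 * y))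
    (hb : Y p + Y v1 = Y p' + Y v1') {D : W} (hD : fold p' v1' = fold p v1 ++ b :: D) : False := by
  have h1 : fold p v1 ++ [b] <+: fold p' v1' := ⟨D, by rw [hD]; simp⟩
  have h2 := h'.strip h1
  have h3 := ediv_close (by omega) hc.symm
  obtain ⟨rfl, hp, hb', ht, hq, hf1, hf2, hY, hXL, h5, h6, h7, h8, hm⟩ := h'
  rw [X_append, Y_append, X_fold, Y_fold, X_cons, Y_cons, dx_b, dy_b, X_nil, Y_nil] at h2
  have h9 := h2 (by omega)
  omega

lemma zop_inj {L y : ℤ} {w p v1 v2 q w' p' v1' v2' q' : W} (hy : 1 ≤ y)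
    (h : GT L y w p v1 v2 q) (h' : GT L y w' p' v1' v2' q')
    (hz : zop p v1 v2 q = zop p' v1' v2' q')
    (hc : (X p - 1 - X v1) / (2 * y) = (X p' - 1 - X v1') / (2 * y))
    (hb : Y p + Y v1 = Y p' + Y v1') : p = p' ∧ v1 = v1' ∧ v2 = v2' ∧ q = q' := by
  have fin : fold p v1 = fold p' v1' → R2 (R1 v2 ++ a :: q) = R2 (R1 v2' ++ a :: q') →
      p = p' ∧ v1 = v1' ∧ v2 = v2' ∧ q = q' := by
    intro h1 h2
    have h3 := fold_unique h.2.1 h.2.2.1.left h'.2.1 h'.2.2.1.left h1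
    have h4 := congrArg R1 (R2_inj h2)
    simp only [R1_append, R1_R1, R1_cons, r1_a] at h4
    have h5 := fold_unique (t := q) (t' := q') h.2.2.2.1.right h.2.2.2.2.1 h'.2.2.2.1.right
      h'.2.2.2.2.1 h4
    exact ⟨h3.1, h3.2, h5.1, h5.2⟩
  unfold zop at hz
  rcases List.append_eq_append_iff.1 hz with ⟨as, h4, h5⟩ | ⟨bs, h4, h5⟩
  · rcases as with _ | ⟨x, D⟩
    · simp only [List.nil_append, List.cons.injEq, true_and] at h5
      simp only [List.append_nil] at h4
      exact fin h4.symm h5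
    · simp only [List.cons_append, List.cons.injEq] at h5
      obtain ⟨rfl, h5⟩ := h5
      exact (zop_inj_aux hy h' hc hb h4).elim
  · rcases bs with _ | ⟨x, D⟩
    · simp only [List.nil_append, List.cons.injEq, true_and] at h5
      simp only [List.append_nil] at h4
      exact fin h4 h5.symm
    · simp only [List.cons_append, List.cons.injEq] at h5
      obtain ⟨rfl, h5⟩ := h5
      exact (zop_inj_aux hy h hc.symm hb.symm h4).elim

lemma class_range {L y : ℕ} (hy : 1 ≤ y) {β lam e : ℤ} (h1 : 0 ≤ β) (h2 : β ≤ L)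
    (h3 : 2 * (y:ℤ) < e) (h4 : e ≤ 4 * y) (base : ℤ) (hlam : lam = base + β + e) :
    0 ≤ lam / (2 * y) - (base + 2 * y + 1) / (2 * y) ∧
    lam / (2 * y) - (base + 2 * y + 1) / (2 * y) < ((L / (2 * y) + 3 : ℕ) : ℤ) := by
  have hk : (0:ℤ) < 2 * y := by omega
  subst hlam
  constructor
  · have := Int.ediv_le_ediv hk (show base + 2 * y + 1 ≤ base + β + e by omega)
    omega
  · push_cast
    have a1 := Int.emod_add_mul_ediv (base + β + e) (2 * y)
    have a2 := Int.emod_add_mul_ediv (base + 2 * y + 1) (2 * y)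
    have a3 := Int.emod_add_mul_ediv (L : ℤ) (2 * y)
    have b1 := Int.emod_nonneg (base + β + e) hk.ne'
    have b2 := Int.emod_lt_of_pos (base + 2 * y + 1) hk
    have b3 := Int.emod_lt_of_pos (L : ℤ) hk
    by_contra hcon
    push Not at hcon
    have hmul := mul_le_mul_of_nonneg_left hcon hk.le
    nlinarith

open Classical in
theorem GPs_count {N : ℕ} {S : ℤ} {L y : ℕ} (hy : 1 ≤ y) :
    ∑ w ∈ (SAWs N).filter (fun w => S ≤ X w), (GPs N L y w).card ≤
    (L / (2 * y) + 3) * (L + 1) *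
      ((SAWs (N + 1)).filter (fun w => S - 16 * y ≤ X w)).card := by
  rw [← Finset.card_sigma]
  have hcard : (L / (2 * y) + 3) * (L + 1) *
      ((SAWs (N + 1)).filter (fun w => S - 16 * y ≤ X w)).card =
      (((SAWs (N + 1)).filter (fun w => S - 16 * y ≤ X w)) ×ˢ
        (Finset.range (L / (2 * y) + 3) ×ˢ Finset.range (L + 1))).card := by
    rw [Finset.card_product, Finset.card_product, Finset.card_range, Finset.card_range]
    ring
  rw [hcard]
  refine Finset.card_le_card_of_forall_subsingleton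
    (fun (x : (_ : W) × (ℕ × ℕ × ℕ)) (z : W × (ℕ × ℕ)) => ∃ p v1 v2 q,
      GT L y x.1 p v1 v2 q ∧ p.length = x.2.1 ∧ v1.length = x.2.2.1 ∧ v2.length = x.2.2.2 ∧
      z.1 = zop p v1 v2 q ∧
      (z.2.1 : ℤ) = (X p - 1 - X v1) / (2 * y) - (a0 L (X z.1) + 2 * y + 1) / (2 * y) ∧
      (z.2.2 : ℤ) = (Y p + Y v1) - a0 L (Y z.1 - 1)) ?_ ?_
  · rintro ⟨w, m⟩ hx
    rw [Finset.mem_sigma] at hx
    obtain ⟨hw, hm⟩ := hx
    simp only [Finset.mem_filter, mem_SAWs] at hw
    unfold GPs at hm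
    simp only [Finset.mem_filter] at hm
    obtain ⟨-, p, v1, v2, q, hG, hp, hv1, hv2⟩ := hm
    have hX := hG.X_zop
    have hY := hG.Y_zop
    have hlen := hG.length
    have hsaw := hG.saw
    have hG' := hG
    obtain ⟨hw', -, -, -, -, -, -, hYw, hXw, h1, h2, h3, h4, -⟩ := hG'
    have hr := a0_range (L := L) (s := X (zop p v1 v2 q)) (h := X p - (1 + X v1 + X v2))
      (by rw [hX]; rw [show X w - 2 * (1 + X v1 + X v2) - 2 * (X p - (1 + X v1 + X v2)) =
        X w - 2 * X p by ring]; exact hXw)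
    have hr2 := a0_range (L := L) (s := Y (zop p v1 v2 q) - 1) (h := Y p + Y v1)
      (by rw [hY]; rw [show 2 * (Y p + Y v1) + 1 - Y w - 1 - 2 * (Y p + Y v1) =
        - Y w by ring, abs_neg]; exact hYw)
    have hc := class_range (L := L) hy (β := X p - (1 + X v1 + X v2) - a0 L (X (zop p v1 v2 q)))
      (e := X v2) (by omega) (by omega) h3 h4 (a0 L (X (zop p v1 v2 q)))
      (lam := X p - 1 - X v1) (by ring)
    refine ⟨(zop p v1 v2 q,
      (((X p - 1 - X v1) / (2 * y) -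
        (a0 L (X (zop p v1 v2 q)) + 2 * y + 1) / (2 * y)).toNat,
       (Y p + Y v1 - a0 L (Y (zop p v1 v2 q) - 1)).toNat)), ?_, ?_⟩
    · rw [Finset.mem_product, Finset.mem_product, Finset.mem_filter, mem_SAWs,
        Finset.mem_range, Finset.mem_range]
      refine ⟨⟨⟨?_, hsaw⟩, ?_⟩, ?_, ?_⟩
      · rw [hlen]; omega
      · change S - 16 * (y:ℤ) ≤ X (zop p v1 v2 q)
        rw [hX]
        omega
      · change Int.toNat _ < _
        omega
      · change Int.toNat _ < _
        omega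
    · refine ⟨p, v1, v2, q, hG, hp, hv1, hv2, rfl, ?_, ?_⟩
      · exact Int.toNat_of_nonneg hc.1
      · refine Int.toNat_of_nonneg ?_
        omega
  · rintro ⟨z, c, e⟩ - ⟨w, m1, m2, m3⟩ ⟨-, p, v1, v2, q, hG, hp, hv1, hv2, hz, hc, he⟩
      ⟨w', m1', m2', m3'⟩ ⟨-, p', v1', v2', q', hG', hp', hv1', hv2', hz', hc', he'⟩
    simp only at hG hp hv1 hv2 hz hc he hG' hp' hv1' hv2' hz' hc' he'
    obtain ⟨rfl, rfl, rfl, rfl⟩ := zop_inj (by exact_mod_cast hy) hG hG' (by rw [← hz, ← hz'])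
      (by omega) (by omega)
    have hw : w = w' := by rw [hG.1, hG'.1]
    subst hw
    subst hp hv1 hv2 hp' hv1' hv2'
    rfl

end SW64
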