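import Pool.Agent.SW64.Exchange
import Pool.Agent.SW64.Extents
import Pool.Agent.SW64.Tree
import Pool.Agent.SW64.PerW
import Pool.Agent.SW64.Unfold
import Pool.Agent.SW64.ZOp

/-! Assembly of the counting inequality (MP_26a5d6_pr, blueprint T6). -/

namespace SW64

open St

lemma US_window {L : ℤ} {w : W} {h : ℤ} (hh : h ∈ US L w) :
    a0 L (X w) ≤ h ∧ h ≤ a0 L (X w) + L := by
  rw [mem_US] at hh
  exact a0_range hh.2.1

open Classical in
lemma start_ineq {N S L : ℕ} (hS : 8 * S ^ 3 ≤ N + 1) (hSL : L < S)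
    (hL : 12 * ((SAWs N).filter (fun w => ¬ (|X w| ≤ L ∧ |Y w| ≤ L))).card ≤ (SAWs N).card) :
    (SAWs N).card ≤ 12 * ∑ w ∈ (SAWs N).filter (fun w => (S : ℤ) ≤ X w), (US L w).card := by
  have h1 := extent_count hS
  have h2 := unfold_count (N := N) (S := S) (L := L) (by exact_mod_cast hSL)
  have h3 : ((SAWs N).filter (fun w => ∃ p, p <+: w ∧ (S : ℤ) ≤ X p)).card ≤
      ((SAWs N).filter (fun w => (∃ p, p <+: w ∧ (S : ℤ) ≤ X p) ∧ |X w| ≤ L ∧ |Y w| ≤ L)).card +
      ((SAWs N).filter (fun w => ¬ (|X w| ≤ L ∧ |Y w| ≤ L))).card := by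
    refine le_trans (Finset.card_le_card ?_) (Finset.card_union_le _ _)
    intro w hw
    rw [Finset.mem_filter] at hw
    rw [Finset.mem_union, Finset.mem_filter, Finset.mem_filter]
    by_cases hc : |X w| ≤ L ∧ |Y w| ≤ L
    · exact Or.inl ⟨hw.1, hw.2, hc⟩
    · exact Or.inr ⟨hw.1, hc⟩
  omega

open Classical in
lemma F_le_T {N S : ℕ} : ((SAWs N).filter (fun w => (S : ℤ) ≤ X w)).card ≤
    ((SAWs N).filter (fun w => (S : ℤ) ≤ 2 * X w)).card := by
  refine Finset.card_le_card ?_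
  intro w hw
  rw [Finset.mem_filter] at hw ⊢
  exact ⟨hw.1, by omega⟩

open Classical in
theorem thmA0 {N S L : ℕ} (hS : 8 * S ^ 3 ≤ N + 1) (hSL : L < S)
    (hL : 12 * ((SAWs N).filter (fun w => ¬ (|X w| ≤ L ∧ |Y w| ≤ L))).card ≤ (SAWs N).card) :
    (SAWs N).card ≤ 12 * (L + 1) * ((SAWs N).filter (fun w => (S : ℤ) ≤ 2 * X w)).card := by
  have h1 := start_ineq hS hSL hL
  have h2 : ∑ w ∈ (SAWs N).filter (fun w => (S : ℤ) ≤ X w), (US L w).card ≤
      ((SAWs N).filter (fun w => (S : ℤ) ≤ X w)).card * (L + 1) := by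
    refine Finset.sum_le_card_nsmul _ _ _ ?_
    intro w _
    have : US L w ⊆ Finset.Icc (a0 L (X w)) (a0 L (X w) + L) := by
      intro h hh
      rw [Finset.mem_Icc]
      exact US_window hh
    have h3 := Finset.card_le_card this
    rw [Int.card_Icc] at h3
    omega
  have h3 := F_le_T (N := N) (S := S)
  have h4 := Nat.mul_le_mul_right (L + 1) h3
  calc (SAWs N).card ≤ _ := h1
    _ ≤ 12 * (((SAWs N).filter (fun w => (S : ℤ) ≤ 2 * X w)).card * (L + 1)) := by omega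
    _ = _ := by ring

section perw
variable (N L J K' : ℕ) (w : W)

/-- `h` has a light node. -/
def cLight (h : ℤ) : Prop :=
  ∃ i ∈ Finset.Ico (J - 69 * K') J, Light (US L w) (a0 L (X w)) h i (90 ^ (i - K'))

open Classical in
/-- `h` has no light node and many non-full ones. -/
def cNon (h : ℤ) : Prop :=
  (∀ i ∈ Finset.Ico (J - 69 * K') J, ¬ Light (US L w) (a0 L (X w)) h i (90 ^ (i - K'))) ∧
  K' ≤ ((Finset.Ico (J - 69 * K') J).filter
    (fun i => ¬ Full (US L w) (a0 L (X w)) h i (90 ^ (i - K')))).card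

open Classical in
/-- `h` is a cut level with many bad and few good scales (regions taken for base point `o`). -/
def cBad (o : ℤ) (h : ℤ) : Prop :=
  Cut w h ∧
  68 * K' ≤ ((Finset.Ico (J - 69 * K') J).filter
    (fun i => Bad (rlo o h i) (rhi o h i) (12 * 90 ^ i) w)).card ∧
  ((Finset.Ico (J - 69 * K') J).filter
    (fun i => Good (rlo o h i) (rhi o h i) (12 * 90 ^ i) w)).card ≤ K'

variable {N L J K' w}

open Classical in
lemma perw_cover (hK : 69 * K' ≤ J) {h : ℤ} (hh : h ∈ US L w) :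
    cLight L J K' w h ∨ cNon L J K' w h ∨ cBad J K' w (a0 L (X w)) h ∨
    ∃ i ∈ Finset.Ico (J - 69 * K') J, Full (US L w) (a0 L (X w)) h i (90 ^ (i - K')) ∧
      Good (rlo (a0 L (X w)) h i) (rhi (a0 L (X w)) h i) (12 * 90 ^ i) w := by
  by_cases h1 : cLight L J K' w h
  · exact Or.inl h1
  right
  have h1' : ∀ i ∈ Finset.Ico (J - 69 * K') J,
      ¬ Light (US L w) (a0 L (X w)) h i (90 ^ (i - K')) := by
    intro i hi hl
    exact h1 ⟨i, hi, hl⟩
  by_cases h2 : K' ≤ ((Finset.Ico (J - 69 * K') J).filter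
    (fun i => ¬ Full (US L w) (a0 L (X w)) h i (90 ^ (i - K')))).card
  · exact Or.inl ⟨h1', h2⟩
  right
  by_cases h3 : ∃ i ∈ Finset.Ico (J - 69 * K') J,
      Full (US L w) (a0 L (X w)) h i (90 ^ (i - K')) ∧
      Good (rlo (a0 L (X w)) h i) (rhi (a0 L (X w)) h i) (12 * 90 ^ i) w
  · exact Or.inr h3
  left
  push Not at h2 h3
  have hcard := Finset.card_filter_add_card_filter_not (s := Finset.Ico (J - 69 * K') J)
    (fun i => Full (US L w) (a0 L (X w)) h i (90 ^ (i - K')))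
  rw [Nat.card_Ico] at hcard
  refine ⟨(mem_US.1 hh).cut, ?_, ?_⟩
  · have : ((Finset.Ico (J - 69 * K') J).filter
        (fun i => Full (US L w) (a0 L (X w)) h i (90 ^ (i - K')))).card ≤
        ((Finset.Ico (J - 69 * K') J).filter (fun i => Bad (rlo (a0 L (X w)) h i)
          (rhi (a0 L (X w)) h i) (12 * 90 ^ i) w)).card := by
      refine Finset.card_le_card ?_
      intro i hi
      rw [Finset.mem_filter] at hi ⊢
      refine ⟨hi.1, ?_⟩
      rcases full_parse (Nat.one_le_pow _ _ (by norm_num)) hi.2 with hg | hb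
      · exact (h3 i hi.1 hi.2 hg).elim
      · exact hb
    omega
  · have : ((Finset.Ico (J - 69 * K') J).filter (fun i => Good (rlo (a0 L (X w)) h i)
          (rhi (a0 L (X w)) h i) (12 * 90 ^ i) w)).card ≤
        ((Finset.Ico (J - 69 * K') J).filter
        (fun i => ¬ Full (US L w) (a0 L (X w)) h i (90 ^ (i - K')))).card := by
      refine Finset.card_le_card ?_
      intro i hi
      rw [Finset.mem_filter] at hi ⊢
      exact ⟨hi.1, fun hf => h3 i hi.1 hf hi.2⟩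
    omega

open Classical in
lemma perw_ineq (hK : 70 * K' ≤ J) (hJ : L + 1 ≤ 90 ^ J) :
    90 ^ K' * (US L w).card ≤ 69 * K' * 90 ^ J + 89 ^ K' * 90 ^ J +
      90 ^ K' * ((Finset.Ico (a0 L (X w)) (a0 L (X w) + 90 ^ J)).filter
        (cBad J K' w (a0 L (X w)))).card +
      90 ^ K' * ∑ i ∈ Finset.Ico (J - 69 * K') J, ((US L w).filter (fun h =>
        Full (US L w) (a0 L (X w)) h i (90 ^ (i - K')) ∧
        Good (rlo (a0 L (X w)) h i) (rhi (a0 L (X w)) h i) (12 * 90 ^ i) w)).card := by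
  have hJ' : ((L : ℤ) + 1) ≤ 90 ^ J := by exact_mod_cast hJ
  have hwin : ∀ h ∈ US L w, a0 L (X w) ≤ h ∧ h < a0 L (X w) + 90 ^ J := by
    intro h hh
    have := US_window hh
    constructor <;> omega
  have hcov : US L w ⊆ (US L w).filter (cLight L J K' w) ∪
      ((Finset.Ico (a0 L (X w)) (a0 L (X w) + 90 ^ J)).filter (cNon L J K' w) ∪
      ((Finset.Ico (a0 L (X w)) (a0 L (X w) + 90 ^ J)).filter (cBad J K' w (a0 L (X w))) ∪
      (Finset.Ico (J - 69 * K') J).biUnion (fun i => (US L w).filter (fun h =>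
        Full (US L w) (a0 L (X w)) h i (90 ^ (i - K')) ∧
        Good (rlo (a0 L (X w)) h i) (rhi (a0 L (X w)) h i) (12 * 90 ^ i) w)))) := by
    intro h hh
    have hw := hwin h hh
    have hw' : h ∈ Finset.Ico (a0 L (X w)) (a0 L (X w) + 90 ^ J) := by
      rw [Finset.mem_Ico]; exact hw
    rw [Finset.mem_union, Finset.mem_union, Finset.mem_union, Finset.mem_biUnion,
      Finset.mem_filter, Finset.mem_filter, Finset.mem_filter]
    rcases perw_cover (J := J) (K' := K') (by omega) hh with h1 | h1 | h1 | ⟨i, hi, h1⟩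
    · exact Or.inl ⟨hh, h1⟩
    · exact Or.inr (Or.inl ⟨hw', h1⟩)
    · exact Or.inr (Or.inr (Or.inl ⟨hw', h1⟩))
    · refine Or.inr (Or.inr (Or.inr ⟨i, hi, ?_⟩))
      rw [Finset.mem_filter]
      exact ⟨hh, h1⟩
  have c1 := Finset.card_le_card hcov
  have c2 := c1.trans (Finset.card_union_le _ _)
  have c3 := Finset.card_union_le
    ((Finset.Ico (a0 L (X w)) (a0 L (X w) + 90 ^ J)).filter (cNon L J K' w))
    ((Finset.Ico (a0 L (X w)) (a0 L (X w) + 90 ^ J)).filter (cBad J K' w (a0 L (X w))) ∪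
      (Finset.Ico (J - 69 * K') J).biUnion (fun i => (US L w).filter (fun h =>
        Full (US L w) (a0 L (X w)) h i (90 ^ (i - K')) ∧
        Good (rlo (a0 L (X w)) h i) (rhi (a0 L (X w)) h i) (12 * 90 ^ i) w)))
  have c4 := Finset.card_union_le
    ((Finset.Ico (a0 L (X w)) (a0 L (X w) + 90 ^ J)).filter (cBad J K' w (a0 L (X w))))
    ((Finset.Ico (J - 69 * K') J).biUnion (fun i => (US L w).filter (fun h =>
        Full (US L w) (a0 L (X w)) h i (90 ^ (i - K')) ∧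
        Good (rlo (a0 L (X w)) h i) (rhi (a0 L (X w)) h i) (12 * 90 ^ i) w)))
  have c5 := Finset.card_biUnion_le (s := Finset.Ico (J - 69 * K') J)
    (t := fun i => (US L w).filter (fun h =>
        Full (US L w) (a0 L (X w)) h i (90 ^ (i - K')) ∧
        Good (rlo (a0 L (X w)) h i) (rhi (a0 L (X w)) h i) (12 * 90 ^ i) w))
  have d1 : ((US L w).filter (cLight L J K' w)).card ≤ 69 * K' * 90 ^ (J - K') := by
    refine le_trans (Finset.card_le_card ?_)
      (light_count (US L w) (a0 L (X w)) J (69 * K') K' hwin (by omega))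
    intro h hh
    rw [Finset.mem_filter] at hh ⊢
    exact hh
  have d2 : 90 ^ K' * ((Finset.Ico (a0 L (X w)) (a0 L (X w) + 90 ^ J)).filter
      (cNon L J K' w)).card ≤ 89 ^ K' * 90 ^ J := by
    refine le_trans (Nat.mul_le_mul_left _ (Finset.card_le_card ?_))
      (nonfull_count (US L w) (a0 L (X w)) J (69 * K') (by omega) (fun i => 90 ^ (i - K')) K')
    intro h hh
    rw [Finset.mem_filter] at hh ⊢
    exact hh
  have d3 : 90 ^ K' * (69 * K' * 90 ^ (J - K')) = 69 * K' * 90 ^ J := by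
    rw [show (90:ℕ) ^ J = 90 ^ K' * 90 ^ (J - K') by rw [← pow_add]; congr 1; omega]
    ring
  have e1 := Nat.mul_le_mul_left (90 ^ K') (c2.trans (Nat.add_le_add_left (c3.trans
    (Nat.add_le_add_left (c4.trans (Nat.add_le_add_left c5 _)) _)) _))
  have e2 := Nat.mul_le_mul_left (90 ^ K') d1
  rw [d3] at e2
  rw [Nat.mul_add, Nat.mul_add, Nat.mul_add] at e1
  omega

end perw

open Classical in
lemma shift_card (P : ℤ → Prop) (o : ℤ) (n : ℕ) :
    ((Finset.Ico o (o + n)).filter P).card ≤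
      ∑ d ∈ Finset.range n, if P (o + d) then 1 else 0 := by
  rw [← Finset.card_filter]
  have : (Finset.Ico o (o + n)).filter P ⊆
      ((Finset.range n).filter (fun d => P (o + (d : ℕ)))).image (fun d => o + (d : ℕ)) := by
    intro h hh
    rw [Finset.mem_filter, Finset.mem_Ico] at hh
    rw [Finset.mem_image]
    have h1 : o + ((h - o).toNat : ℤ) = h := by
      rw [Int.toNat_of_nonneg (by omega)]; ring
    refine ⟨(h - o).toNat, ?_, h1⟩
    rw [Finset.mem_filter, Finset.mem_range, h1]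
    exact ⟨by omega, hh.2⟩
  exact (Finset.card_le_card this).trans Finset.card_image_le

open Classical in
lemma bad_sum (N L J K' S : ℕ) :
    2 ^ K' * ∑ w ∈ (SAWs N).filter (fun w => (S : ℤ) ≤ X w),
      ((Finset.Ico (a0 L (X w)) (a0 L (X w) + 90 ^ J)).filter
        (cBad J K' w (a0 L (X w)))).card ≤
    ((SAWs N).filter (fun w => (S : ℤ) ≤ X w)).card * 90 ^ J := by
  set F := (SAWs N).filter (fun w => (S : ℤ) ≤ X w) with hF
  have h1 : ∑ w ∈ F, ((Finset.Ico (a0 L (X w)) (a0 L (X w) + 90 ^ J)).filter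
        (cBad J K' w (a0 L (X w)))).card ≤
      ∑ w ∈ F, ∑ d ∈ Finset.range (90 ^ J),
        if cBad J K' w (a0 L (X w)) (a0 L (X w) + d) then 1 else 0 := by
    refine Finset.sum_le_sum fun w _ => ?_
    have := shift_card (cBad J K' w (a0 L (X w))) (a0 L (X w)) (90 ^ J)
    push_cast at this
    exact this
  rw [Finset.sum_comm] at h1
  have h2 : ∀ d ∈ Finset.range (90 ^ J), 2 ^ K' * (∑ w ∈ F,
      if cBad J K' w (a0 L (X w)) (a0 L (X w) + d) then 1 else 0) ≤ F.card := by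
    intro d _
    rw [← Finset.card_filter]
    rw [Finset.card_eq_sum_card_fiberwise (f := X) (t := F.image X)
      (s := F.filter (fun w => cBad J K' w (a0 L (X w)) (a0 L (X w) + d)))
      (fun w hw => Finset.mem_coe.2 (Finset.mem_image_of_mem X
        (Finset.mem_filter.1 (Finset.mem_coe.1 hw)).1))]
    rw [Finset.card_eq_sum_card_fiberwise (f := X) (t := F.image X) (s := F)
      (fun w hw => Finset.mem_coe.2 (Finset.mem_image_of_mem X (Finset.mem_coe.1 hw)))]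
    rw [Finset.mul_sum]
    refine Finset.sum_le_sum ?_
    intro s hs
    rw [Finset.mem_image] at hs
    obtain ⟨w0, hw0, hs0⟩ := hs
    have hSs : (S : ℤ) ≤ s := by
      rw [← hs0]
      exact (Finset.mem_filter.1 hw0).2
    have hex := exchange (N := N) s (a0 L s + d) (Finset.Ico (J - 69 * K') J)
      (rlo (a0 L s) (a0 L s + d)) (rhi (a0 L s) (a0 L s + d)) (fun i => 12 * 90 ^ i)
      (fun i _ j _ hij => regions_disj _ _ hij) (fun i _ => region_h _ _ _) K'
    refine le_trans (Nat.mul_le_mul_left _ (Finset.card_le_card ?_))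
      (hex.trans (Finset.card_le_card ?_))
    · intro w hw
      rw [Finset.mem_filter, Finset.mem_filter] at hw
      rw [Finset.mem_filter]
      obtain ⟨⟨hw1, hw2⟩, hw3⟩ := hw
      subst hw3
      exact ⟨(Finset.mem_filter.1 hw1).1, rfl, hw2.1, hw2.2⟩
    · intro w hw
      rw [Finset.mem_filter] at hw
      rw [Finset.mem_filter]
      refine ⟨?_, hw.2.1⟩
      rw [hF, Finset.mem_filter]
      exact ⟨hw.1, by rw [hw.2.1]; exact hSs⟩
  calc _ ≤ 2 ^ K' * ∑ d ∈ Finset.range (90 ^ J), ∑ w ∈ F,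
        (if cBad J K' w (a0 L (X w)) (a0 L (X w) + d) then 1 else 0) :=
          Nat.mul_le_mul_left _ h1
    _ = ∑ d ∈ Finset.range (90 ^ J), 2 ^ K' * ∑ w ∈ F,
        (if cBad J K' w (a0 L (X w)) (a0 L (X w) + d) then 1 else 0) := Finset.mul_sum _ _ _
    _ ≤ ∑ d ∈ Finset.range (90 ^ J), F.card := Finset.sum_le_sum h2
    _ = F.card * 90 ^ J := by
        rw [Finset.sum_const, Finset.card_range, smul_eq_mul, mul_comm]

open Classical in
lemma good_sum {N L J K' S i : ℕ} (hSL : 40 * (L + 1) ≤ S) (hJ : L + 1 ≤ 90 ^ J)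
    (hJ' : 90 ^ J ≤ 90 * L) (hi : J ≤ i + 69 * K') (hi' : i < J) (hK : 70 * K' ≤ J) :
    ∑ w ∈ (SAWs N).filter (fun w => (S : ℤ) ≤ X w), ((US L w).filter (fun h =>
        Full (US L w) (a0 L (X w)) h i (90 ^ (i - K')) ∧
        Good (rlo (a0 L (X w)) h i) (rhi (a0 L (X w)) h i) (12 * 90 ^ i) w)).card ≤
    90 ^ (140 * K' + 1) * (6 * ((SAWs N).filter (fun w => (S : ℤ) ≤ 2 * X w)).card) := by
  set F := (SAWs N).filter (fun w => (S : ℤ) ≤ X w) with hF
  set T := ((SAWs N).filter (fun w => (S : ℤ) ≤ 2 * X w)).card with hT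
  set G := ∑ w ∈ F, ((US L w).filter (fun h =>
        Full (US L w) (a0 L (X w)) h i (90 ^ (i - K')) ∧
        Good (rlo (a0 L (X w)) h i) (rhi (a0 L (X w)) h i) (12 * 90 ^ i) w)).card with hG
  have hpow : (90 : ℕ) ^ J = 90 ^ (J - i) * 90 ^ i := by
    rw [← pow_add]; congr 1; omega
  have hJi : 90 ≤ 90 ^ (J - i) := by
    calc 90 = 90 ^ 1 := by norm_num
      _ ≤ 90 ^ (J - i) := Nat.pow_le_pow_right (by norm_num) (by omega)
  have hy0 : 0 < 90 ^ i := Nat.pow_pos (by norm_num)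
  have hyL : 90 ^ i ≤ L := by
    have : 90 * 90 ^ i ≤ 90 ^ J := by
      rw [hpow]; exact Nat.mul_le_mul_right _ hJi
    omega
  have h1 : (90 ^ (i - K')) ^ 2 * G ≤ 90 ^ (i + 1) * ∑ w ∈ F, (GPs N L ((90 ^ i : ℕ) : ℤ) w).card := by
    rw [hG, Finset.mul_sum, Finset.mul_sum]
    refine Finset.sum_le_sum fun w hw => ?_
    have hw' := mem_SAWs.1 (Finset.mem_filter.1 hw).1
    have := good_pairs hw'.1 hw'.2 (L : ℤ) (a0 L (X w)) i (90 ^ (i - K'))
    push_cast
    exact this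
  have h2 := GPs_count (N := N) (S := S) (L := L) (y := 90 ^ i) hy0
  have h3 := last_letter (N := N) (s := (S : ℤ) - 16 * ((90 ^ i : ℕ) : ℤ))
  have h4 : ((SAWs N).filter (fun w => (S : ℤ) - 16 * ((90 ^ i : ℕ) : ℤ) - 1 ≤ X w)).card ≤ T := by
    refine Finset.card_le_card ?_
    intro w hw
    rw [Finset.mem_filter] at hw ⊢
    refine ⟨hw.1, ?_⟩
    have hyL' : ((90 ^ i : ℕ) : ℤ) ≤ L := by exact_mod_cast hyL
    have hSL' : 40 * ((L : ℤ) + 1) ≤ S := by exact_mod_cast hSL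
    have := hw.2
    omega
  have h5 : L / (2 * 90 ^ i) + 3 ≤ 90 ^ (J - i) := by
    have : L / (2 * 90 ^ i) < 90 ^ (J - i) / 2 + 1 := by
      rw [Nat.div_lt_iff_lt_mul (by positivity)]
      have e1 : 90 ^ (J - i) < 2 * (90 ^ (J - i) / 2 + 1) := by omega
      calc L < 90 ^ J := by omega
        _ = 90 ^ (J - i) * 90 ^ i := hpow
        _ ≤ (2 * (90 ^ (J - i) / 2 + 1)) * 90 ^ i := Nat.mul_le_mul_right _ e1.le
        _ = _ := by ring
    omega
  have h6 : ∑ w ∈ F, (GPs N L ((90 ^ i : ℕ) : ℤ) w).card ≤ 90 ^ (J - i) * 90 ^ J * (6 * T) := by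
    refine h2.trans (Nat.mul_le_mul (Nat.mul_le_mul h5 hJ) ?_)
    exact h3.trans (Nat.mul_le_mul_left _ h4)
  have h7 : (90 ^ (i - K')) ^ 2 * G ≤ (90 ^ (i - K')) ^ 2 * (90 ^ (140 * K' + 1) * (6 * T)) := by
    calc (90 ^ (i - K')) ^ 2 * G ≤ 90 ^ (i + 1) * (90 ^ (J - i) * 90 ^ J * (6 * T)) :=
          h1.trans (Nat.mul_le_mul_left _ h6)
      _ = 90 ^ ((i + 1) + (J - i) + J) * (6 * T) := by rw [pow_add, pow_add]; ring
      _ ≤ 90 ^ ((i - K') * 2 + (140 * K' + 1)) * (6 * T) := by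
          refine Nat.mul_le_mul_right _ (Nat.pow_le_pow_right (by norm_num) ?_)
          omega
      _ = _ := by rw [pow_add, pow_mul]; ring
  exact Nat.le_of_mul_le_mul_left h7 (by positivity)

lemma num1 (k : ℕ) (hk : 1 ≤ k) : 69 * k ≤ 89 ^ k := by
  induction k, hk using Nat.le_induction with
  | base => norm_num
  | succ n hn ih => rw [pow_succ]; omega

open Classical in
theorem thmA {N S L J K' : ℕ} (hS : 8 * S ^ 3 ≤ N + 1) (hSL : 40 * (L + 1) ≤ S)
    (hL : 12 * ((SAWs N).filter (fun w => ¬ (|X w| ≤ L ∧ |Y w| ≤ L))).card ≤ (SAWs N).card)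
    (hJ : L + 1 ≤ 90 ^ J) (hJ' : 90 ^ J ≤ 90 * L) (hK : 150 * K' ≤ J) (hK' : 1 ≤ K') :
    90 ^ K' * (SAWs N).card ≤
      48 * 90 ^ J * 89 ^ K' * ((SAWs N).filter (fun w => (S : ℤ) ≤ 2 * X w)).card := by
  have h1 := start_ineq hS (by omega) hL
  have h2 : 90 ^ K' * ∑ w ∈ (SAWs N).filter (fun w => (S : ℤ) ≤ X w), (US L w).card ≤
      ∑ w ∈ (SAWs N).filter (fun w => (S : ℤ) ≤ X w), (69 * K' * 90 ^ J + 89 ^ K' * 90 ^ J +
      90 ^ K' * ((Finset.Ico (a0 L (X w)) (a0 L (X w) + 90 ^ J)).filter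
        (cBad J K' w (a0 L (X w)))).card +
      90 ^ K' * ∑ i ∈ Finset.Ico (J - 69 * K') J, ((US L w).filter (fun h =>
        Full (US L w) (a0 L (X w)) h i (90 ^ (i - K')) ∧
        Good (rlo (a0 L (X w)) h i) (rhi (a0 L (X w)) h i) (12 * 90 ^ i) w)).card) := by
    rw [Finset.mul_sum]
    exact Finset.sum_le_sum fun w _ => perw_ineq (by omega) hJ
  rw [Finset.sum_add_distrib, Finset.sum_add_distrib, Finset.sum_const, smul_eq_mul,
    ← Finset.mul_sum, ← Finset.mul_sum, Finset.sum_comm] at h2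
  have h3 := bad_sum N L J K' S
  have h4 : ∑ i ∈ Finset.Ico (J - 69 * K') J, ∑ w ∈ (SAWs N).filter (fun w => (S : ℤ) ≤ X w),
      ((US L w).filter (fun h =>
        Full (US L w) (a0 L (X w)) h i (90 ^ (i - K')) ∧
        Good (rlo (a0 L (X w)) h i) (rhi (a0 L (X w)) h i) (12 * 90 ^ i) w)).card ≤
      69 * K' * (90 ^ (140 * K' + 1) *
        (6 * ((SAWs N).filter (fun w => (S : ℤ) ≤ 2 * X w)).card)) := by
    have : ∀ i ∈ Finset.Ico (J - 69 * K') J,
        ∑ w ∈ (SAWs N).filter (fun w => (S : ℤ) ≤ X w), ((US L w).filter (fun h =>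
        Full (US L w) (a0 L (X w)) h i (90 ^ (i - K')) ∧
        Good (rlo (a0 L (X w)) h i) (rhi (a0 L (X w)) h i) (12 * 90 ^ i) w)).card ≤
        (90 ^ (140 * K' + 1) *
        (6 * ((SAWs N).filter (fun w => (S : ℤ) ≤ 2 * X w)).card)) := by
      intro i hi
      rw [Finset.mem_Ico] at hi
      exact good_sum hSL hJ hJ' (by omega) hi.2 (by omega)
    refine (Finset.sum_le_card_nsmul _ _ _ this).trans ?_
    rw [Nat.card_Ico, smul_eq_mul]
    exact Nat.mul_le_mul_right _ (by omega)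
  have h5 := F_le_T (N := N) (S := S)
  set T := ((SAWs N).filter (fun w => (S : ℤ) ≤ 2 * X w)).card with hT
  set F := ((SAWs N).filter (fun w => (S : ℤ) ≤ X w)).card with hF
  set cN := (SAWs N).card with hcN
  set A3 := ∑ w ∈ (SAWs N).filter (fun w => (S : ℤ) ≤ X w),
      ((Finset.Ico (a0 L (X w)) (a0 L (X w) + 90 ^ J)).filter
        (cBad J K' w (a0 L (X w)))).card with hA3
  set A4 := ∑ i ∈ Finset.Ico (J - 69 * K') J,
      ∑ w ∈ (SAWs N).filter (fun w => (S : ℤ) ≤ X w), ((US L w).filter (fun h =>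
        Full (US L w) (a0 L (X w)) h i (90 ^ (i - K')) ∧
        Good (rlo (a0 L (X w)) h i) (rhi (a0 L (X w)) h i) (12 * 90 ^ i) w)).card with hA4
  -- the three bounds
  have b1 : F * (69 * K' * 90 ^ J + 89 ^ K' * 90 ^ J) ≤ 2 * (89 ^ K' * 90 ^ J * T) := by
    have := num1 K' hK'
    calc F * (69 * K' * 90 ^ J + 89 ^ K' * 90 ^ J)
        ≤ T * (89 ^ K' * 90 ^ J + 89 ^ K' * 90 ^ J) :=
          Nat.mul_le_mul h5 (Nat.add_le_add_right (Nat.mul_le_mul_right _ this) _)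
      _ = _ := by ring
  have b2 : 90 ^ K' * A3 ≤ 89 ^ K' * 90 ^ J * T := by
    have e : (90 : ℕ) ^ K' = 45 ^ K' * 2 ^ K' := by
      rw [show (90 : ℕ) = 45 * 2 by norm_num, mul_pow]
    calc 90 ^ K' * A3 = 45 ^ K' * (2 ^ K' * A3) := by rw [e]; ring
      _ ≤ 89 ^ K' * (T * 90 ^ J) := Nat.mul_le_mul (Nat.pow_le_pow_left (by norm_num) _)
          (h3.trans (Nat.mul_le_mul_right _ h5))
      _ = _ := by ring
  have b3 : 90 ^ K' * A4 ≤ 89 ^ K' * 90 ^ J * T := by
    have n1 := num1 K' hK'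
    have n2 : 6 ≤ 90 ^ (9 * K' - 1) := by
      calc 6 ≤ 90 ^ 1 := by norm_num
        _ ≤ _ := Nat.pow_le_pow_right (by norm_num) (by omega)
    calc 90 ^ K' * A4 ≤ 90 ^ K' * (69 * K' * (90 ^ (140 * K' + 1) * (6 * T))) :=
          Nat.mul_le_mul_left _ h4
      _ = (69 * K') * (90 ^ (K' + (140 * K' + 1)) * 6) * T := by rw [pow_add]; ring
      _ ≤ 89 ^ K' * (90 ^ (K' + (140 * K' + 1)) * 90 ^ (9 * K' - 1)) * T :=
          Nat.mul_le_mul_right _ (Nat.mul_le_mul n1 (Nat.mul_le_mul_left _ n2))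
      _ = 89 ^ K' * 90 ^ (K' + (140 * K' + 1) + (9 * K' - 1)) * T := by rw [← pow_add]
      _ ≤ 89 ^ K' * 90 ^ J * T := by
          refine Nat.mul_le_mul_right _ (Nat.mul_le_mul_left _
            (Nat.pow_le_pow_right (by norm_num) ?_))
          omega
  have h6 : 90 ^ K' * cN ≤ 12 * (4 * (89 ^ K' * 90 ^ J * T)) := by
    have h7 := Nat.mul_le_mul_left (90 ^ K') h1
    have h8 : 90 ^ K' * (12 * ∑ w ∈ (SAWs N).filter (fun w => (S : ℤ) ≤ X w), (US L w).card) =
      12 * (90 ^ K' * ∑ w ∈ (SAWs N).filter (fun w => (S : ℤ) ≤ X w), (US L w).card) := by ring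
    omega
  calc 90 ^ K' * cN ≤ _ := h6
    _ = _ := by ring

end SW64
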