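import Mathlib

/-! Basic vocabulary for self-avoiding words on the cubic lattice: steps, displacements,
reflections, cut levels, gluing. Used for MP_26a5d6_pr. -/

namespace SW64

/-- The six unit steps: `a = +e1`, `A = -e1`, `b = +e2`, `B = -e2`, `c = +e3`, `C = -e3`. -/
inductive St | a | A | b | B | c | C
  deriving DecidableEq, Fintype, Repr

open St

abbrev W := List St

def dx : St → ℤ
  | a => 1
  | A => -1
  | _ => 0

def dy : St → ℤ
  | b => 1
  | B => -1
  | _ => 0

def dz : St → ℤ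
  | c => 1
  | C => -1
  | _ => 0

/-- Displacements of a word along the three axes. -/
def X (w : W) : ℤ := (w.map dx).sum
def Y (w : W) : ℤ := (w.map dy).sum
def Z (w : W) : ℤ := (w.map dz).sum

@[simp] lemma X_nil : X [] = 0 := rfl
@[simp] lemma Y_nil : Y [] = 0 := rfl
@[simp] lemma Z_nil : Z [] = 0 := rfl
@[simp] lemma X_cons (s : St) (w : W) : X (s :: w) = dx s + X w := by simp [X]
@[simp] lemma Y_cons (s : St) (w : W) : Y (s :: w) = dy s + Y w := by simp [Y]
@[simp] lemma Z_cons (s : St) (w : W) : Z (s :: w) = dz s + Z w := by simp [Z]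
@[simp] lemma X_append (u v : W) : X (u ++ v) = X u + X v := by simp [X]
@[simp] lemma Y_append (u v : W) : Y (u ++ v) = Y u + Y v := by simp [Y]
@[simp] lemma Z_append (u v : W) : Z (u ++ v) = Z u + Z v := by simp [Z]
@[simp] lemma dx_a : dx a = 1 := rfl
@[simp] lemma dx_A : dx A = -1 := rfl
@[simp] lemma dx_b : dx b = 0 := rfl
@[simp] lemma dx_B : dx B = 0 := rfl
@[simp] lemma dx_c : dx c = 0 := rfl
@[simp] lemma dx_C : dx C = 0 := rfl
@[simp] lemma dy_a : dy a = 0 := rfl
@[simp] lemma dy_A : dy A = 0 := rfl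
@[simp] lemma dy_b : dy b = 1 := rfl
@[simp] lemma dy_B : dy B = -1 := rfl
@[simp] lemma dy_c : dy c = 0 := rfl
@[simp] lemma dy_C : dy C = 0 := rfl
@[simp] lemma dz_a : dz a = 0 := rfl
@[simp] lemma dz_A : dz A = 0 := rfl
@[simp] lemma dz_b : dz b = 0 := rfl
@[simp] lemma dz_B : dz B = 0 := rfl
@[simp] lemma dz_c : dz c = 1 := rfl
@[simp] lemma dz_C : dz C = -1 := rfl

lemma abs_dx_le (s : St) : |dx s| ≤ 1 := by cases s <;> simp
lemma abs_dy_le (s : St) : |dy s| ≤ 1 := by cases s <;> simp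
lemma abs_dz_le (s : St) : |dz s| ≤ 1 := by cases s <;> simp

lemma abs_X_le (w : W) : |X w| ≤ w.length := by
  induction w with
  | nil => simp
  | cons s w ih =>
    rw [X_cons]
    have := abs_dx_le s
    have h := abs_add_le (dx s) (X w)
    simp only [List.length_cons, Nat.cast_add, Nat.cast_one]
    omega

/-- Reflections in the first and in the second axis direction. -/
def r1 : St → St
  | a => A
  | A => a
  | s => s

def r2 : St → St
  | b => B
  | B => b
  | s => s

def R1 (w : W) : W := w.map r1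
def R2 (w : W) : W := w.map r2

@[simp] lemma r1_r1 (s : St) : r1 (r1 s) = s := by cases s <;> rfl
@[simp] lemma r2_r2 (s : St) : r2 (r2 s) = s := by cases s <;> rfl
@[simp] lemma r1_a : r1 a = A := rfl
@[simp] lemma r1_A : r1 A = a := rfl
@[simp] lemma r2_a : r2 a = a := rfl
@[simp] lemma r2_A : r2 A = A := rfl
@[simp] lemma r1_b : r1 b = b := rfl
@[simp] lemma r2_b : r2 b = B := rfl
@[simp] lemma r2_B : r2 B = b := rfl
@[simp] lemma R1_nil : R1 [] = [] := rfl
@[simp] lemma R2_nil : R2 [] = [] := rfl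
@[simp] lemma R1_cons (s : St) (w : W) : R1 (s :: w) = r1 s :: R1 w := rfl
@[simp] lemma R2_cons (s : St) (w : W) : R2 (s :: w) = r2 s :: R2 w := rfl
@[simp] lemma R1_append (u v : W) : R1 (u ++ v) = R1 u ++ R1 v := by simp [R1]
@[simp] lemma R2_append (u v : W) : R2 (u ++ v) = R2 u ++ R2 v := by simp [R2]
@[simp] lemma R1_R1 (w : W) : R1 (R1 w) = w := by
  induction w with
  | nil => rfl
  | cons s w ih => simp [ih]
@[simp] lemma R2_R2 (w : W) : R2 (R2 w) = w := by
  induction w with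
  | nil => rfl
  | cons s w ih => simp [ih]
@[simp] lemma length_R1 (w : W) : (R1 w).length = w.length := by simp [R1]
@[simp] lemma length_R2 (w : W) : (R2 w).length = w.length := by simp [R2]
@[simp] lemma R1_eq_nil (w : W) : R1 w = [] ↔ w = [] := by simp [R1]
@[simp] lemma R2_eq_nil (w : W) : R2 w = [] ↔ w = [] := by simp [R2]
@[simp] lemma X_R1 (w : W) : X (R1 w) = - X w := by
  induction w with
  | nil => simp
  | cons s w ih => cases s <;> simp [ih, r1] <;> omega
@[simp] lemma Y_R1 (w : W) : Y (R1 w) = Y w := by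
  induction w with
  | nil => simp
  | cons s w ih => cases s <;> simp [ih, r1]
@[simp] lemma Z_R1 (w : W) : Z (R1 w) = Z w := by
  induction w with
  | nil => simp
  | cons s w ih => cases s <;> simp [ih, r1]
@[simp] lemma X_R2 (w : W) : X (R2 w) = X w := by
  induction w with
  | nil => simp
  | cons s w ih => cases s <;> simp [ih, r2]
@[simp] lemma Y_R2 (w : W) : Y (R2 w) = - Y w := by
  induction w with
  | nil => simp
  | cons s w ih => cases s <;> simp [ih, r2] <;> omega
@[simp] lemma Z_R2 (w : W) : Z (R2 w) = Z w := by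
  induction w with
  | nil => simp
  | cons s w ih => cases s <;> simp [ih, r2]
lemma R1_inj {u v : W} (h : R1 u = R1 v) : u = v := by
  rw [← R1_R1 u, h, R1_R1]
lemma R2_inj {u v : W} (h : R2 u = R2 v) : u = v := by
  rw [← R2_R2 u, h, R2_R2]

lemma map_infix {f : St → St} {v w : W} (h : v <:+: w.map f) : ∃ v', v' <:+: w ∧ v = v'.map f := by
  obtain ⟨s, t, hst⟩ := h
  obtain ⟨l1, l2, h1, h2, h3⟩ := List.map_eq_append_iff.1 hst.symm
  obtain ⟨l3, l4, h4, h5, h6⟩ := List.map_eq_append_iff.1 h2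
  exact ⟨l4, ⟨l3, l2, by rw [h1, h4]⟩, h6.symm⟩

/-- Self-avoiding words: no nonempty contiguous subword has zero displacement. -/
def SAW (w : W) : Prop := ∀ v, v <:+: w → v ≠ [] → ¬ (X v = 0 ∧ Y v = 0 ∧ Z v = 0)

lemma SAW.sub' {w v : W} (h : SAW w) (hv : v <:+: w) : SAW v :=
  fun t ht => h t (ht.trans hv)

lemma SAW_nil : SAW [] := fun _ hv hne => absurd (List.infix_nil.1 hv) hne

lemma SAW.left {u v : W} (h : SAW (u ++ v)) : SAW u := h.sub' (List.prefix_append u v).isInfix
lemma SAW.right {u v : W} (h : SAW (u ++ v)) : SAW v := h.sub' (List.suffix_append u v).isInfix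
lemma SAW.tail' {s : St} {v : W} (h : SAW (s :: v)) : SAW v :=
  h.sub' (List.suffix_cons s v).isInfix

lemma SAW_R1 {w : W} (h : SAW w) : SAW (R1 w) := by
  intro v hv hne h0
  obtain ⟨v', hv', rfl⟩ := map_infix hv
  refine h v' hv' (by rintro rfl; simp at hne) ?_
  have h1 : X (R1 v') = 0 := h0.1
  have h2 : Y (R1 v') = 0 := h0.2.1
  have h3 : Z (R1 v') = 0 := h0.2.2
  rw [X_R1] at h1
  rw [Y_R1] at h2
  rw [Z_R1] at h3
  exact ⟨by omega, h2, h3⟩

lemma SAW_R2 {w : W} (h : SAW w) : SAW (R2 w) := by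
  intro v hv hne h0
  obtain ⟨v', hv', rfl⟩ := map_infix hv
  refine h v' hv' (by rintro rfl; simp at hne) ?_
  have h1 : X (R2 v') = 0 := h0.1
  have h2 : Y (R2 v') = 0 := h0.2.1
  have h3 : Z (R2 v') = 0 := h0.2.2
  rw [X_R2] at h1
  rw [Y_R2] at h2
  rw [Z_R2] at h3
  exact ⟨h1, by omega, h3⟩

@[simp] lemma SAW_R1_iff (w : W) : SAW (R1 w) ↔ SAW w :=
  ⟨fun h => by simpa using SAW_R1 h, SAW_R1⟩
@[simp] lemma SAW_R2_iff (w : W) : SAW (R2 w) ↔ SAW w :=
  ⟨fun h => by simpa using SAW_R2 h, SAW_R2⟩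

/-- `Top u`: the walk `u` ends at its highest level. -/
def Top (u : W) : Prop := ∀ s, s <:+ u → 0 ≤ X s
/-- `Bot t`: the walk `t` starts at its lowest level. -/
def Bot (t : W) : Prop := ∀ p, p <+: t → 0 ≤ X p

lemma Top_nil : Top [] := fun s hs => by rw [List.suffix_nil.1 hs]; simp
lemma Bot_nil : Bot [] := fun s hs => by rw [List.prefix_nil.1 hs]; simp
lemma Top.suffix' {u v : W} (h : Top u) (hv : v <:+ u) : Top v := fun s hs => h s (hs.trans hv)
lemma Bot.pre' {u v : W} (h : Bot u) (hv : v <+: u) : Bot v := fun s hs => h s (hs.trans hv)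
lemma Top.right {u v : W} (h : Top (u ++ v)) : Top v := h.suffix' (List.suffix_append u v)
lemma Bot.left {u v : W} (h : Bot (u ++ v)) : Bot u := h.pre' (List.prefix_append u v)
lemma Top.tail' {s : St} {v : W} (h : Top (s :: v)) : Top v := h.suffix' (List.suffix_cons s v)
lemma Top.nonneg {u : W} (h : Top u) : 0 ≤ X u := h u (List.suffix_refl u)
lemma Bot.nonneg {u : W} (h : Bot u) : 0 ≤ X u := h u (List.prefix_refl u)
lemma Top.prefix_le {u p : W} (h : Top u) (hp : p <+: u) : X p ≤ X u := by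
  obtain ⟨s, rfl⟩ := hp
  have := h s (List.suffix_append p s)
  rw [X_append]; omega
lemma Bot.suffix_le {u p : W} (h : Bot u) (hp : p <:+ u) : X p ≤ X u := by
  obtain ⟨s, rfl⟩ := hp
  have := h s (List.prefix_append s p)
  rw [X_append]; omega

lemma Top_single : Top [a] := by
  intro s hs
  obtain ⟨t, ht⟩ := hs
  rcases t with _ | ⟨x, t⟩
  · simp at ht; subst ht; simp
  · simp at ht; simp [ht.2]
lemma Bot_single : Bot [a] := by
  intro s hs
  obtain ⟨t, ht⟩ := hs
  rcases s with _ | ⟨x, s⟩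
  · simp
  · simp at ht; simp [ht]

lemma suffix_app {s u v : W} (h : s <:+ u ++ v) : s <:+ v ∨ ∃ t, s = t ++ v ∧ t <:+ u := by
  obtain ⟨t, ht⟩ := h
  rcases List.append_eq_append_iff.1 ht with ⟨as, h1, h2⟩ | ⟨bs, h1, h2⟩
  · exact Or.inr ⟨as, h2, ⟨t, h1.symm⟩⟩
  · exact Or.inl ⟨bs, h2.symm⟩

lemma prefix_app {p u v : W} (h : p <+: u ++ v) : p <+: u ∨ ∃ t, p = u ++ t ∧ t <+: v := by
  obtain ⟨t, ht⟩ := h
  rcases List.append_eq_append_iff.1 ht with ⟨as, h1, h2⟩ | ⟨bs, h1, h2⟩
  · exact Or.inl ⟨as, h1.symm⟩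
  · exact Or.inr ⟨bs, h1, ⟨t, h2.symm⟩⟩

lemma prefix_cons_iff' {x : St} {p t : W} (h : p <+: x :: t) : p = [] ∨ ∃ p', p = x :: p' ∧ p' <+: t := by
  rcases p with _ | ⟨y, p⟩
  · exact Or.inl rfl
  · obtain ⟨s, hs⟩ := h
    simp only [List.cons_append, List.cons.injEq] at hs
    exact Or.inr ⟨p, by rw [hs.1], ⟨s, hs.2⟩⟩

lemma infix_app {v l r : W} (h : v <:+: l ++ r) :
    v <:+: l ∨ v <:+: r ∨ ∃ s p, v = s ++ p ∧ s <:+ l ∧ p <+: r := by
  obtain ⟨s, t, hst⟩ := h
  rw [List.append_assoc] at hst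
  rcases List.append_eq_append_iff.1 hst with ⟨as, h1, h2⟩ | ⟨bs, h1, h2⟩
  · rcases List.append_eq_append_iff.1 h2 with ⟨cs, h3, h4⟩ | ⟨ds, h3, h4⟩
    · exact Or.inl ⟨s, cs, by rw [h1, h3, List.append_assoc]⟩
    · exact Or.inr (Or.inr ⟨as, ds, h3, ⟨s, h1.symm⟩, ⟨t, h4.symm⟩⟩)
  · exact Or.inr (Or.inl ⟨bs, t, by rw [h2, List.append_assoc]⟩)

lemma Top.append {u v : W} (hu : Top u) (hv : Top v) : Top (u ++ v) := by
  intro s hs
  rcases suffix_app hs with h | ⟨t, rfl, ht⟩
  · exact hv s h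
  · rw [X_append]
    have := hu t ht
    have := hv.nonneg
    omega

lemma Bot.append {u v : W} (hu : Bot u) (hv : Bot v) : Bot (u ++ v) := by
  intro s hs
  rcases prefix_app hs with h | ⟨t, rfl, ht⟩
  · exact hu s h
  · rw [X_append]
    have := hv t ht
    have := hu.nonneg
    omega

lemma Top.cons_a {u : W} (hu : Top u) : Top (a :: u) := Top_single.append hu
lemma Bot.cons_a {u : W} (hu : Bot u) : Bot (a :: u) := Bot_single.append hu

lemma Top_R2 {u : W} (h : Top u) : Top (R2 u) := by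
  intro s hs
  obtain ⟨t, ht⟩ := hs
  obtain ⟨l1, l2, h1, h2, h3⟩ := List.map_eq_append_iff.1 ht.symm
  have : X s = X l2 := by rw [← h3]; exact X_R2 l2
  rw [this]
  exact h l2 ⟨l1, h1.symm⟩

lemma Bot_R2 {u : W} (h : Bot u) : Bot (R2 u) := by
  intro s hs
  obtain ⟨t, ht⟩ := hs
  obtain ⟨l1, l2, h1, h2, h3⟩ := List.map_eq_append_iff.1 ht.symm
  have : X s = X l1 := by rw [← h2]; exact X_R2 l1
  rw [this]
  exact h l1 ⟨l2, h1.symm⟩

@[simp] lemma Top_R2_iff (u : W) : Top (R2 u) ↔ Top u := ⟨fun h => by simpa using Top_R2 h, Top_R2⟩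
@[simp] lemma Bot_R2_iff (u : W) : Bot (R2 u) ↔ Bot u := ⟨fun h => by simpa using Bot_R2 h, Bot_R2⟩

/-- Gluing along an upward step. -/
lemma glue {u t : W} (hu : SAW u) (ht : SAW t) (h1 : Top u) (h2 : Bot t) : SAW (u ++ a :: t) := by
  intro v hv hne h0
  rcases infix_app hv with h | h | ⟨s, p, rfl, hs, hp⟩
  · exact hu v h hne h0
  · rcases List.infix_cons_iff.1 h with h | h
    · rcases prefix_cons_iff' h with rfl | ⟨p', rfl, hp'⟩
      · exact hne rfl
      · have := h2 p' hp'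
        have h3 := h0.1
        rw [X_cons, dx_a] at h3
        omega
    · exact ht v h hne h0
  · rcases prefix_cons_iff' hp with rfl | ⟨p', rfl, hp'⟩
    · exact hu s hs.isInfix (by simpa using hne) (by simpa using h0)
    · have := h2 p' hp'
      have := h1 s hs
      have h3 := h0.1
      rw [X_append, X_cons, dx_a] at h3
      omega

/-- `w = u ++ a :: t` is a cut split: the walk stays weakly below the level of the end of `u`
before this step and weakly above the next level afterwards. -/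
def CutAt (w u t : W) : Prop := w = u ++ a :: t ∧ Top u ∧ Bot t

/-- `g` is a cut level of `w`. -/
def Cut (w : W) (g : ℤ) : Prop := ∃ u t, CutAt w u t ∧ X u = g

/-- Two cut splits of the same word are equal or nested. -/
lemma cut_cases {w u t u' t' : W} (h : CutAt w u t) (h' : CutAt w u' t') :
    (u = u' ∧ t = t') ∨
    (∃ v, u' = u ++ a :: v ∧ t = v ++ a :: t' ∧ Top v ∧ Bot v) ∨
    (∃ v, u = u' ++ a :: v ∧ t' = v ++ a :: t ∧ Top v ∧ Bot v) := by
  obtain ⟨h1, h2, h3⟩ := h
  obtain ⟨h1', h2', h3'⟩ := h'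
  rw [h1] at h1'
  rcases List.append_eq_append_iff.1 h1' with ⟨as, h4, h5⟩ | ⟨bs, h4, h5⟩
  · rcases as with _ | ⟨x, v⟩
    · left
      simp only [List.nil_append, List.cons.injEq, true_and] at h5
      simp only [List.append_nil] at h4
      exact ⟨h4.symm, h5⟩
    · right; left
      simp only [List.cons_append, List.cons.injEq] at h5
      obtain ⟨rfl, h5⟩ := h5
      subst h4
      refine ⟨v, rfl, h5, ?_, ?_⟩
      · exact h2'.right.tail'
      · rw [h5] at h3; exact h3.left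
  · rcases bs with _ | ⟨x, v⟩
    · left
      simp only [List.nil_append, List.cons.injEq, true_and] at h5
      simp only [List.append_nil] at h4
      exact ⟨h4, h5.symm⟩
    · right; right
      simp only [List.cons_append, List.cons.injEq] at h5
      obtain ⟨rfl, h5⟩ := h5
      subst h4
      refine ⟨v, rfl, h5, ?_, ?_⟩
      · exact h2.right.tail'
      · rw [h5] at h3'; exact h3'.left

/-- A cut split is determined by its level. -/
lemma cut_unique {w u t u' t' : W} (h : CutAt w u t) (h' : CutAt w u' t') (hX : X u = X u') :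
    u = u' ∧ t = t' := by
  rcases cut_cases h h' with h1 | ⟨v, h1, h2, h3, h4⟩ | ⟨v, h1, h2, h3, h4⟩
  · exact h1
  · exfalso
    have := h3.nonneg
    rw [h1, X_append, X_cons, dx_a] at hX
    omega
  · exfalso
    have := h3.nonneg
    rw [h1, X_append, X_cons, dx_a] at hX
    omega

/-- The higher one of two cut splits extends the lower one. -/
lemma cut_lt {w u t u' t' : W} (h : CutAt w u t) (h' : CutAt w u' t') (hX : X u < X u') :
    ∃ v, u' = u ++ a :: v ∧ t = v ++ a :: t' ∧ Top v ∧ Bot v := by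
  rcases cut_cases h h' with h1 | h1 | ⟨v, h1, h2, h3, h4⟩
  · rw [h1.1] at hX; omega
  · exact h1
  · exfalso
    have := h3.nonneg
    rw [h1, X_append, X_cons, dx_a] at hX
    omega

lemma Cut.range {w : W} {g : ℤ} (h : Cut w g) : 0 ≤ g ∧ g + 1 ≤ X w := by
  obtain ⟨u, t, ⟨rfl, h1, h2⟩, rfl⟩ := h
  have := h1.nonneg
  have := h2.nonneg
  rw [X_append, X_cons, dx_a]
  constructor <;> omega

/-- Cut levels of a glued word. -/
lemma Cut_append_iff {u t : W} (hu : Top u) (ht : Bot t) (g : ℤ) :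
    Cut (u ++ a :: t) g ↔ Cut u g ∨ g = X u ∨ Cut t (g - X u - 1) := by
  have h0 : CutAt (u ++ a :: t) u t := ⟨rfl, hu, ht⟩
  constructor
  · rintro ⟨u', t', h, rfl⟩
    rcases cut_cases h0 h with h1 | ⟨v, h1, h2, h3, h4⟩ | ⟨v, h1, h2, h3, h4⟩
    · right; left; rw [h1.1]
    · right; right
      refine ⟨v, t', ⟨h2, h3, h.2.2⟩, ?_⟩
      rw [h1, X_append, X_cons, dx_a]; omega
    · left
      exact ⟨u', v, ⟨h1, h.2.1, h4⟩, rfl⟩
  · rintro (⟨u', v, ⟨h1, h2, h3⟩, rfl⟩ | h | ⟨v, t', ⟨h1, h2, h3⟩, h4⟩)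
    · exact ⟨u', v ++ a :: t, ⟨by rw [h1]; simp, h2, h3.append ht.cons_a⟩, rfl⟩
    · exact ⟨u, t, h0, h.symm⟩
    · exact ⟨u ++ a :: v, t', ⟨by rw [h1]; simp, hu.append h2.cons_a, h3⟩, by
        rw [X_append, X_cons, dx_a]; omega⟩

@[simp] lemma Cut_R2_iff (w : W) (g : ℤ) : Cut (R2 w) g ↔ Cut w g := by
  have key : ∀ w : W, Cut w g → Cut (R2 w) g := by
    rintro w ⟨u, t, ⟨rfl, h1, h2⟩, rfl⟩
    exact ⟨R2 u, R2 t, ⟨by simp, Top_R2 h1, Bot_R2 h2⟩, by simp⟩
  exact ⟨fun h => by simpa using key _ h, key w⟩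

/-- Fold the part after the cut downwards. -/
def fold (u t : W) : W := u ++ A :: R1 t

@[simp] lemma length_fold (u t : W) : (fold u t).length = u.length + 1 + t.length := by
  simp [fold]; omega
@[simp] lemma X_fold (u t : W) : X (fold u t) = X u - 1 - X t := by
  simp [fold]; omega
@[simp] lemma Y_fold (u t : W) : Y (fold u t) = Y u + Y t := by simp [fold]
@[simp] lemma Z_fold (u t : W) : Z (fold u t) = Z u + Z t := by simp [fold]

/-- The decomposition of a word as a fold at its last maximum is unique. -/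
lemma fold_unique {u t u' t' : W} (h1 : Top u) (h2 : Bot t) (h1' : Top u') (h2' : Bot t')
    (h : fold u t = fold u' t') : u = u' ∧ t = t' := by
  have key : ∀ {u t u' t' : W}, Top u → Bot t → Top u' → Bot t' →
      (∃ v, u' = u ++ A :: v ∧ R1 t = v ++ A :: R1 t') → False := by
    rintro u t u' t' h1 h2 h1' h2' ⟨v, rfl, h4⟩
    have h5 := h1' (A :: v) (List.suffix_append _ _)
    have h6 := h2 (R1 v) ⟨R1 (A :: R1 t'), by rw [← R1_append, ← h4, R1_R1]⟩
    rw [X_cons, dx_A] at h5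
    rw [X_R1] at h6
    omega
  unfold fold at h
  rcases List.append_eq_append_iff.1 h with ⟨as, h4, h5⟩ | ⟨bs, h4, h5⟩
  · rcases as with _ | ⟨x, v⟩
    · simp only [List.nil_append, List.cons.injEq, true_and] at h5
      simp only [List.append_nil] at h4
      exact ⟨h4.symm, R1_inj h5⟩
    · simp only [List.cons_append, List.cons.injEq] at h5
      obtain ⟨rfl, h5⟩ := h5
      exact (key h1 h2 h1' h2' ⟨v, h4, h5⟩).elim
  · rcases bs with _ | ⟨x, v⟩
    · simp only [List.nil_append, List.cons.injEq, true_and] at h5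
      simp only [List.append_nil] at h4
      exact ⟨h4, (R1_inj h5.symm)⟩
    · simp only [List.cons_append, List.cons.injEq] at h5
      obtain ⟨rfl, h5⟩ := h5
      exact (key h1' h2' h1 h2 ⟨v, h4, h5⟩).elim

open Classical in
/-- Self-avoiding words of length `N`. -/
noncomputable def SAWs (N : ℕ) : Finset W :=
  ((Finset.univ : Finset (Fin N → St)).image List.ofFn).filter SAW

lemma mem_SAWs {N : ℕ} {w : W} : w ∈ SAWs N ↔ w.length = N ∧ SAW w := by
  classical
  unfold SAWs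
  rw [Finset.mem_filter]
  constructor
  · rintro ⟨h, h'⟩
    rw [Finset.mem_image] at h
    obtain ⟨f, -, rfl⟩ := h
    exact ⟨by simp, h'⟩
  · rintro ⟨rfl, h⟩
    refine ⟨Finset.mem_image.2 ⟨w.get, Finset.mem_univ _, by simp⟩, h⟩

end SW64
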