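import Mathlib

/-! Weights argument for the exchange lemma (MP_26a5d6_pr). -/

namespace SW64

open Classical in
/-- The weight of one index. -/
noncomputable def wt {α ι : Type*} (G B : ι → α → Prop) (i : ι) (w : α) : ℚ :=
  if B i w then 49 / 48 else if G i w then 1 / 2 else 1

lemma wt_pos {α ι : Type*} (G B : ι → α → Prop) (i : ι) (w : α) : 0 < wt G B i w := by
  unfold wt
  split_ifs <;> norm_num

open Classical in
lemma sum_wt_le {α ι : Type*} (D : Finset α) (I : Finset ι)
    (G B : ι → α → Prop) (F : ι → α → α)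
    (hF : ∀ k ∈ I, ∀ w ∈ D, B k w → F k w ∈ D ∧ G k (F k w) ∧
      ∀ j ∈ I, j ≠ k → (G j (F k w) ↔ G j w) ∧ (B j (F k w) ↔ B j w))
    (hfib : ∀ k ∈ I, ∀ v, (D.filter (fun w => B k w ∧ F k w = v)).card ≤ 24)
    (hGB : ∀ k w, G k w → ¬ B k w) :
    ∀ I' ⊆ I, ∑ w ∈ D, ∏ i ∈ I', wt G B i w ≤ D.card := by
  intro I'
  induction I' using Finset.induction_on with
  | empty => intro _; simp
  | insert k I' hk ih =>
    intro hsub
    have hkI : k ∈ I := hsub (Finset.mem_insert_self _ _)
    have hI'I : I' ⊆ I := fun i hi => hsub (Finset.mem_insert_of_mem hi)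
    refine le_trans ?_ (ih hI'I)
    set f : α → ℚ := fun w => ∏ i ∈ I', wt G B i w with hf
    have hfpos : ∀ w, 0 ≤ f w := fun w => Finset.prod_nonneg (fun i _ => (wt_pos G B i w).le)
    have hinv : ∀ w ∈ D, B k w → f (F k w) = f w := by
      intro w hw hb
      obtain ⟨-, -, h3⟩ := hF k hkI w hw hb
      refine Finset.prod_congr rfl ?_
      intro j hj
      have hjk : j ≠ k := fun h => hk (h ▸ hj)
      obtain ⟨h4, h5⟩ := h3 j (hI'I hj) hjk
      unfold wt
      simp only [h4, h5]
    have e1 : ∀ w ∈ D, ∏ i ∈ insert k I', wt G B i w =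
        f w + ((if B k w then f w / 48 else 0) - (if G k w then f w / 2 else 0)) := by
      intro w _
      rw [Finset.prod_insert hk]
      change wt G B k w * f w = _
      unfold wt
      by_cases hb : B k w
      · have hg : ¬ G k w := fun hg => hGB k w hg hb
        simp only [hb, hg, if_true, if_false]
        ring
      · by_cases hg : G k w
        · simp only [hb, hg, if_true, if_false]
          ring
        · simp only [hb, hg, if_false]
          ring
    rw [Finset.sum_congr rfl e1, Finset.sum_add_distrib, Finset.sum_sub_distrib]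
    have e2 : ∑ w ∈ D, (if B k w then f w / 48 else 0) ≤ ∑ w ∈ D, (if G k w then f w / 2 else 0) := by
      rw [← Finset.sum_filter, ← Finset.sum_filter]
      have hmap : ∀ w ∈ D.filter (B k), F k w ∈ D.filter (G k) := by
        intro w hw
        rw [Finset.mem_filter] at hw ⊢
        obtain ⟨h1, h2, -⟩ := hF k hkI w hw.1 hw.2
        exact ⟨h1, h2⟩
      rw [← Finset.sum_fiberwise_of_maps_to hmap]
      refine Finset.sum_le_sum ?_
      intro v hv
      have e3 : ∀ w ∈ (D.filter (B k)).filter (fun w => F k w = v), f w / 48 = f v / 48 := by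
        intro w hw
        rw [Finset.mem_filter, Finset.mem_filter] at hw
        rw [← hinv w hw.1.1 hw.1.2, hw.2]
      rw [Finset.sum_congr rfl e3, Finset.sum_const, nsmul_eq_mul]
      have e4 : (((D.filter (B k)).filter (fun w => F k w = v)).card : ℚ) ≤ 24 := by
        rw [Finset.filter_filter]
        exact_mod_cast hfib k hkI v
      have := hfpos v
      nlinarith
    change ∑ w ∈ D, f w + _ ≤ ∑ w ∈ D, f w
    linarith

open Classical in
theorem abstract_exchange {α ι : Type*} (D : Finset α) (I : Finset ι)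
    (G B : ι → α → Prop) (F : ι → α → α)
    (hF : ∀ k ∈ I, ∀ w ∈ D, B k w → F k w ∈ D ∧ G k (F k w) ∧
      ∀ j ∈ I, j ≠ k → (G j (F k w) ↔ G j w) ∧ (B j (F k w) ↔ B j w))
    (hfib : ∀ k ∈ I, ∀ v, (D.filter (fun w => B k w ∧ F k w = v)).card ≤ 24)
    (hGB : ∀ k w, G k w → ¬ B k w) (K' : ℕ) :
    2 ^ K' * (D.filter (fun w => 68 * K' ≤ (I.filter (fun i => B i w)).card ∧
      (I.filter (fun i => G i w)).card ≤ K')).card ≤ D.card := by
  have h0 := sum_wt_le D I G B F hF hfib hGB I (Finset.Subset.refl _)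
  set E := D.filter (fun w => 68 * K' ≤ (I.filter (fun i => B i w)).card ∧
      (I.filter (fun i => G i w)).card ≤ K') with hE
  have h1 : ∀ w ∈ E, (2 : ℚ) ^ K' ≤ ∏ i ∈ I, wt G B i w := by
    intro w hw
    rw [hE, Finset.mem_filter] at hw
    obtain ⟨-, hb, hg⟩ := hw
    have e1 : ∏ i ∈ I, wt G B i w = (49 / 48 : ℚ) ^ (I.filter (fun i => B i w)).card *
        (1 / 2 : ℚ) ^ (I.filter (fun i => G i w)).card := by
      rw [Finset.card_filter, Finset.card_filter, ← Finset.prod_pow_eq_pow_sum,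
        ← Finset.prod_pow_eq_pow_sum, ← Finset.prod_mul_distrib]
      refine Finset.prod_congr rfl ?_
      intro i _
      unfold wt
      by_cases hb : B i w
      · have hg : ¬ G i w := fun hg => hGB i w hg hb
        simp [hb, hg]
      · by_cases hg : G i w
        · simp [hb, hg]
        · simp [hb, hg]
    rw [e1]
    have e2 : (49 / 48 : ℚ) ^ (68 * K') ≤ (49 / 48 : ℚ) ^ (I.filter (fun i => B i w)).card :=
      pow_le_pow_right₀ (by norm_num) hb
    have e3 : (1 / 2 : ℚ) ^ K' ≤ (1 / 2 : ℚ) ^ (I.filter (fun i => G i w)).card :=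
      pow_le_pow_of_le_one (by norm_num) (by norm_num) hg
    have e4 : (4 : ℚ) ≤ (49 / 48 : ℚ) ^ 68 := by norm_num
    have e5 : (4 : ℚ) ^ K' ≤ (49 / 48 : ℚ) ^ (68 * K') := by
      rw [pow_mul]
      exact pow_le_pow_left₀ (by norm_num) e4 K'
    calc (2 : ℚ) ^ K' = 4 ^ K' * (1 / 2) ^ K' := by rw [← mul_pow]; norm_num
      _ ≤ _ := mul_le_mul (e5.trans e2) e3 (by positivity) (by positivity)
  have h2 : ∑ w ∈ E, (2 : ℚ) ^ K' ≤ ∑ w ∈ D, ∏ i ∈ I, wt G B i w := by
    refine le_trans (Finset.sum_le_sum h1) ?_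
    refine Finset.sum_le_sum_of_subset_of_nonneg (Finset.filter_subset _ _) ?_
    intro w _ _
    exact Finset.prod_nonneg (fun i _ => (wt_pos G B i w).le)
  rw [Finset.sum_const, nsmul_eq_mul] at h2
  have h3 : (E.card : ℚ) * 2 ^ K' ≤ D.card := h2.trans h0
  have h4 : E.card * 2 ^ K' ≤ D.card := by exact_mod_cast h3
  rw [mul_comm]
  exact h4

end SW64
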