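import Pool.Agent.SW64.Region
import Pool.Agent.SW64.Wt

/-! The exchange lemma for an abstract finite set of rearrangements (MP_26a5d6_pr). -/

namespace SW64

open St

lemma good_iff_hasP {r r' x : ℤ} {w : W} : Good r r' x w ↔ HasP r r' x EE w := Iff.rfl
lemma bad_iff_hasP {r r' x : ℤ} {w : W} :
    Bad r r' x w ↔ HasP r r' x (fun b1 b2 b3 => ¬ EE b1 b2 b3) w := Iff.rfl

section

variable {C : Type} (ar : C → W → W → W → W × W × W)

/-- `v` is obtained from `w` by rearranging the blocks of its parse with the code `c`. -/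
def Rr (r r' x : ℤ) (c : C) (w v : W) : Prop :=
  ∃ u β1 β2 β3 t, w = asm u β1 β2 β3 t ∧ Parse r r' x u β1 β2 β3 t ∧
    v = asm u (ar c β1 β2 β3).1 (ar c β1 β2 β3).2.1 (ar c β1 β2 β3).2.2 t

open Classical in
/-- The rearranged word. -/
noncomputable def rr (r r' x : ℤ) (c : C) (w : W) : W :=
  if h : ∃ v, Rr ar r r' x c w v then h.choose else w

open Classical in
theorem exchange_core [Fintype C] (hC : Fintype.card C ≤ 24)
    (hu : ∀ {r r' x : ℤ} {u β1 β2 β3 t u' β1' β2' β3' t' : W},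
      asm u β1 β2 β3 t = asm u' β1' β2' β3' t' → Parse r r' x u β1 β2 β3 t →
      Parse r r' x u' β1' β2' β3' t' → u = u' ∧ β1 = β1' ∧ β2 = β2' ∧ β3 = β3' ∧ t = t')
    (hEE : ∀ β1 β2 β3, ∃ c, EE (ar c β1 β2 β3).1 (ar c β1 β2 β3).2.1 (ar c β1 β2 β3).2.2)
    (hinv : ∀ c, ∃ c', ∀ β1 β2 β3,
      ar c' (ar c β1 β2 β3).1 (ar c β1 β2 β3).2.1 (ar c β1 β2 β3).2.2 = (β1, β2, β3))
    (hP : ∀ {r r' x : ℤ} {u β1 β2 β3 t : W} (c : C), Parse r r' x u β1 β2 β3 t →
      Parse r r' x u (ar c β1 β2 β3).1 (ar c β1 β2 β3).2.1 (ar c β1 β2 β3).2.2 t)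
    (hX : ∀ (c : C) (β1 β2 β3 : W), X β1 + X β2 + X β3 =
      X (ar c β1 β2 β3).1 + X (ar c β1 β2 β3).2.1 + X (ar c β1 β2 β3).2.2)
    (hlen : ∀ (c : C) (u β1 β2 β3 t : W),
      (asm u (ar c β1 β2 β3).1 (ar c β1 β2 β3).2.1 (ar c β1 β2 β3).2.2 t).length =
      (asm u β1 β2 β3 t).length)
    (hS : ∀ {r r' x : ℤ} {u β1 β2 β3 t : W} (c : C), Parse r r' x u β1 β2 β3 t →
      SAW (asm u β1 β2 β3 t) →
      SAW (asm u (ar c β1 β2 β3).1 (ar c β1 β2 β3).2.1 (ar c β1 β2 β3).2.2 t))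
    {N : ℕ} (s h : ℤ) (I : Finset ℕ) (r r' x : ℕ → ℤ)
    (hr : ∀ i ∈ I, ∀ j ∈ I, i ≠ j → r' i ≤ r j ∨ r' j ≤ r i)
    (hh : ∀ i ∈ I, h < r i ∨ r' i ≤ h) (K' : ℕ) :
    2 ^ K' * ((SAWs N).filter (fun w => X w = s ∧ Cut w h ∧
      68 * K' ≤ (I.filter (fun i => Bad (r i) (r' i) (x i) w)).card ∧
      (I.filter (fun i => Good (r i) (r' i) (x i) w)).card ≤ K')).card ≤
    ((SAWs N).filter (fun w => X w = s ∧ Cut w h)).card := by
  have hGB : ∀ (k : ℕ) (w : W), Good (r k) (r' k) (x k) w → ¬ Bad (r k) (r' k) (x k) w := by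
    rintro k w ⟨u, b1, b2, b3, t, h1, h2, h3⟩ ⟨u', b1', b2', b3', t', h1', h2', h3'⟩
    obtain ⟨-, e1, e2, e3, -⟩ := hu (h1.symm.trans h1') h2 h2'
    subst e1; subst e2; subst e3
    exact h3' h3
  -- the map
  have hFex : ∀ (k : ℕ) (w : W), Bad (r k) (r' k) (x k) w →
      ∃ v, (∃ c, Rr ar (r k) (r' k) (x k) c w v) ∧ Good (r k) (r' k) (x k) v := by
    rintro k w ⟨u, b1, b2, b3, t, h1, h2, -⟩
    obtain ⟨c, hc⟩ := hEE b1 b2 b3
    exact ⟨_, ⟨c, u, b1, b2, b3, t, h1, h2, rfl⟩, ⟨u, _, _, _, t, rfl, hP c h2, hc⟩⟩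
  set F : ℕ → W → W := fun k w =>
    if hb : Bad (r k) (r' k) (x k) w then (hFex k w hb).choose else w with hF
  have hFspec : ∀ (k : ℕ) (w : W), Bad (r k) (r' k) (x k) w →
      (∃ c, Rr ar (r k) (r' k) (x k) c w (F k w)) ∧ Good (r k) (r' k) (x k) (F k w) := by
    intro k w hb
    have := (hFex k w hb).choose_spec
    rw [hF]
    simp only [hb, dif_pos]
    exact this
  have hswap : ∀ (k : ℕ) (c : C) (w v : W), Rr ar (r k) (r' k) (x k) c w v →
      Swap (r k) (r' k) w v := by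
    rintro k c w v ⟨u, b1, b2, b3, t, h1, h2, h3⟩
    rw [h1, h3]
    exact swap_of_parse h2 (hP c h2) (hX c b1 b2 b3)
  have key := abstract_exchange ((SAWs N).filter (fun w => X w = s ∧ Cut w h)) I
    (fun k w => Good (r k) (r' k) (x k) w) (fun k w => Bad (r k) (r' k) (x k) w) F ?_ ?_ hGB K'
  · refine le_trans (le_of_eq ?_) key
    congr 2
    ext w
    simp only [Finset.mem_filter]
    tauto
  · intro k hk w hw hb
    obtain ⟨⟨c, hc⟩, hg⟩ := hFspec k w hb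
    have hsw := hswap k c w _ hc
    refine ⟨?_, hg, ?_⟩
    · rw [Finset.mem_filter, mem_SAWs] at hw ⊢
      obtain ⟨⟨hw1, hw2⟩, hw3, hw4⟩ := hw
      obtain ⟨u, b1, b2, b3, t, h1, h2, h3⟩ := hc
      refine ⟨⟨?_, ?_⟩, ?_, hsw.cut (hh k hk) hw4⟩
      · rw [h3, hlen, ← h1, hw1]
      · rw [h3]
        exact hS c h2 (h1 ▸ hw2)
      · rw [← hw3, h3, h1]
        have := hX c b1 b2 b3
        simp only [asm, X_append, X_cons, dx_a]
        omega
    · intro j hj hjk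
      have hq : r' j ≤ r k ∨ r' k ≤ r j := hr j hj k hk hjk
      exact ⟨hsw.hasP_iff hq, hsw.hasP_iff hq⟩
  · intro k hk v
    have hsub : ((SAWs N).filter (fun w => X w = s ∧ Cut w h)).filter
        (fun w => Bad (r k) (r' k) (x k) w ∧ F k w = v) ⊆
        Finset.univ.image (fun c => rr ar (r k) (r' k) (x k) c v) := by
      intro w hw
      rw [Finset.mem_filter] at hw
      obtain ⟨-, hb, hv⟩ := hw
      obtain ⟨⟨c, hc⟩, -⟩ := hFspec k w hb
      rw [hv] at hc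
      obtain ⟨u, b1, b2, b3, t, h1, h2, h3⟩ := hc
      obtain ⟨c', hc'⟩ := hinv c
      have hc'' := hc' b1 b2 b3
      have hp := hP c h2
      have hR : Rr ar (r k) (r' k) (x k) c' v w := by
        refine ⟨u, _, _, _, t, h3, hp, ?_⟩
        rw [hc'', h1]
      rw [Finset.mem_image]
      refine ⟨c', Finset.mem_univ _, ?_⟩
      have hex : ∃ v', Rr ar (r k) (r' k) (x k) c' v v' := ⟨w, hR⟩
      unfold rr
      rw [dif_pos hex]
      obtain ⟨u', d1, d2, d3, t', g1, g2, g3⟩ := hex.choose_spec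
      obtain ⟨e1, e2, e3, e4, e5⟩ := hu (h3.symm.trans g1) hp g2
      rw [g3, ← e1, ← e2, ← e3, ← e4, ← e5, hc'', h1]
    have h1 := Finset.card_le_card hsub
    have h2 : (Finset.univ.image (fun c => rr ar (r k) (r' k) (x k) c v)).card ≤
        (Finset.univ : Finset C).card := Finset.card_image_le
    rw [Finset.card_univ] at h2
    have h3 := (h1.trans h2).trans hC
    refine le_trans (le_of_eq ?_) h3
    congr 1
    ext w
    simp only [Finset.mem_filter]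

end

end SW64
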