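import Pool.Agent.SW64.Basic

/-! Shared definitions for MP_26a5d6_pr (see the blueprint
MP_26a5d6_blueprint_helper64.md in the team store). -/

namespace SW64

open St

/-- `h` is a cut level of `w`, the fold at `h` is self-avoiding, and the ends are close:
the element `h` of the set `U(w)` of the blueprint. -/
def UU (L : ℤ) (w : W) (h : ℤ) : Prop :=
  |Y w| ≤ L ∧ |X w - 2 * h| ≤ L ∧ ∃ u t, CutAt w u t ∧ X u = h ∧ SAW (fold u t)

open Classical in
/-- The finite set of all `h` with `UU L w h`. -/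
noncomputable def US (L : ℤ) (w : W) : Finset ℤ := (Finset.Ico 0 (X w)).filter (UU L w)

lemma mem_US {L : ℤ} {w : W} {h : ℤ} : h ∈ US L w ↔ UU L w h := by
  classical
  unfold US
  rw [Finset.mem_filter]
  constructor
  · exact fun h => h.2
  · intro hu
    refine ⟨?_, hu⟩
    obtain ⟨-, -, u, t, h1, h2, -⟩ := hu
    have := (Cut.range (w := w) (g := h) ⟨u, t, h1, h2⟩)
    rw [Finset.mem_Ico]
    omega

lemma UU.cut {L : ℤ} {w : W} {h : ℤ} (hu : UU L w h) : Cut w h := by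
  obtain ⟨-, -, u, t, h1, h2, -⟩ := hu
  exact ⟨u, t, h1, h2⟩

/-- Base point of the window: all `h` with `|s - 2h| ≤ L` lie in `[a0, a0 + L]`. -/
def a0 (L s : ℤ) : ℤ := (s - L + 1) / 2

lemma a0_range {L s h : ℤ} (hh : |s - 2 * h| ≤ L) : a0 L s ≤ h ∧ h ≤ a0 L s + L := by
  rw [abs_le] at hh
  unfold a0
  omega

/-- Start of the level-`i` node of `h`, with base point `o`. -/
def al (o h : ℤ) (i : ℕ) : ℤ := o + 90 ^ i * ((h - o) / 90 ^ i)

/-- The region of scale `i` for `h`: the half of the level-`(i+1)` node of `h` that does not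
contain `h`. It is the interval `[rlo, rhi)`. -/
def rlo (o h : ℤ) (i : ℕ) : ℤ :=
  if h - al o h (i + 1) < 45 * 90 ^ i then al o h (i + 1) + 45 * 90 ^ i else al o h (i + 1)
def rhi (o h : ℤ) (i : ℕ) : ℤ := rlo o h i + 45 * 90 ^ i

/-- The level-`i` node of `h` contains fewer than `τ` elements of `U`. -/
def Light (U : Finset ℤ) (o h : ℤ) (i τ : ℕ) : Prop :=
  (U.filter (fun g => al o h i ≤ g ∧ g < al o h i + 90 ^ i)).card < τ

/-- All 90 children of the level-`(i+1)` node of `h` contain at least `τ` elements of `U`. -/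
def Full (U : Finset ℤ) (o h : ℤ) (i τ : ℕ) : Prop :=
  ∀ j : ℕ, j < 90 → τ ≤ (U.filter (fun g => al o h (i + 1) + j * 90 ^ i ≤ g ∧
    g < al o h (i + 1) + (j + 1) * 90 ^ i)).card

/-- `u` ends at its top, at a level at least `r`, and has no cut level `≥ r`. -/
def Pre (r : ℤ) (u : W) : Prop := Top u ∧ r ≤ X u ∧ ∀ g, Cut u g → g < r

/-- A block: starts at its bottom, ends at its top, and is the shortest possible one with
`x ≤ X β + 1`. -/
def Blk (x : ℤ) (β : W) : Prop := Top β ∧ Bot β ∧ x ≤ X β + 1 ∧ ∀ g, Cut β g → g + 1 < x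

/-- The assembled word. -/
def asm (u β1 β2 β3 t : W) : W := u ++ a :: (β1 ++ a :: (β2 ++ a :: (β3 ++ a :: t)))

/-- Greedy parse into three blocks in the region `[r, r')`. -/
def Parse (r r' x : ℤ) (u β1 β2 β3 t : W) : Prop :=
  Pre r u ∧ Blk x β1 ∧ Blk x β2 ∧ Blk x β3 ∧ Bot t ∧ X u + X β1 + X β2 + X β3 + 3 < r'

/-- Maximum of `Y p` over the prefixes `p` of a word. -/
def up : W → ℤ
  | [] => 0
  | s :: t => max 0 (dy s + up t)

/-- The maximum of `x2` over the three blocks is attained in the middle one. -/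
def EE (β1 β2 β3 : W) : Prop := up β1 - Y β1 ≤ up β2 ∧ Y β2 + up β3 ≤ up β2

def Good (r r' x : ℤ) (w : W) : Prop :=
  ∃ u β1 β2 β3 t, w = asm u β1 β2 β3 t ∧ Parse r r' x u β1 β2 β3 t ∧ EE β1 β2 β3
def Bad (r r' x : ℤ) (w : W) : Prop :=
  ∃ u β1 β2 β3 t, w = asm u β1 β2 β3 t ∧ Parse r r' x u β1 β2 β3 t ∧ ¬ EE β1 β2 β3

/-- Good triples: two cut levels `h1 = X p < h2 = X p + 1 + X v1 + X v2` with self-avoiding
folds, and between them a point `z` (the end of `v1`) with the largest `x2` among all the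
points at the levels `[2 h1 - h2, 2 h2 - h1]`. -/
def GT (L y : ℤ) (w p v1 v2 q : W) : Prop :=
  w = p ++ a :: (v1 ++ (v2 ++ a :: q)) ∧ Top p ∧ Bot (v1 ++ v2) ∧ Top (v1 ++ v2) ∧ Bot q ∧
  SAW (fold p (v1 ++ (v2 ++ a :: q))) ∧ SAW (fold (p ++ a :: (v1 ++ v2)) q) ∧
  |Y w| ≤ L ∧ |X w - 2 * X p| ≤ L ∧
  2 * y < X v1 + 1 ∧ X v1 + 1 ≤ 4 * y ∧ 2 * y < X v2 ∧ X v2 ≤ 4 * y ∧
  (∀ p', p' <+: w → X p - (1 + X v1 + X v2) ≤ X p' → X p' ≤ X p + 2 * (1 + X v1 + X v2) →
    Y p' ≤ Y p + Y v1)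

open Classical in
/-- Position triples of the good triples of `w` (a word of length `N`). -/
noncomputable def GPs (N : ℕ) (L y : ℤ) (w : W) : Finset (ℕ × ℕ × ℕ) :=
  (Finset.range (N + 1) ×ˢ (Finset.range (N + 1) ×ˢ Finset.range (N + 1))).filter
    (fun m => ∃ p v1 v2 q, GT L y w p v1 v2 q ∧ p.length = m.1 ∧ v1.length = m.2.1 ∧
      v2.length = m.2.2)

end SW64
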