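import Pool.Agent.SW64.Core

/-! The exchange lemma (MP_26a5d6_pr): rearrangements of three blocks. -/

namespace SW64

open St

namespace Ex

lemma first_unique {w u t u' t' : W} {ρ : ℤ} (h : CutAt w u t) (h' : CutAt w u' t')
    (h1 : ρ ≤ X u) (h2 : ∀ g, Cut u g → g < ρ) (h1' : ρ ≤ X u') (h2' : ∀ g, Cut u' g → g < ρ) :
    u = u' ∧ t = t' := by
  rcases lt_trichotomy (X u) (X u') with hX | hX | hX
  · exfalso
    obtain ⟨v, e1, -, -, e4⟩ := cut_lt h h' hX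
    have := h2' (X u) ⟨u, v, ⟨e1, h.2.1, e4⟩, rfl⟩
    omega
  · exact cut_unique h h' hX
  · exfalso
    obtain ⟨v, e1, -, -, e4⟩ := cut_lt h' h hX
    have := h2 (X u') ⟨u', v, ⟨e1, h'.2.1, e4⟩, rfl⟩
    omega

lemma parse_unique' {r r' x : ℤ} {u β1 β2 β3 t u' β1' β2' β3' t' : W}
    (h : asm u β1 β2 β3 t = asm u' β1' β2' β3' t') (hp : Parse r r' x u β1 β2 β3 t)
    (hp' : Parse r r' x u' β1' β2' β3' t') :
    u = u' ∧ β1 = β1' ∧ β2 = β2' ∧ β3 = β3' ∧ t = t' := by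
  obtain ⟨p0, p1, p2, p3, p4, -⟩ := hp
  obtain ⟨q0, q1, q2, q3, q4, -⟩ := hp'
  have b3 := p3.2.1.append p4.cons_a
  have b2 := p2.2.1.append b3.cons_a
  have b1 := p1.2.1.append b2.cons_a
  have c3 := q3.2.1.append q4.cons_a
  have c2 := q2.2.1.append c3.cons_a
  have c1 := q1.2.1.append c2.cons_a
  obtain ⟨rfl, h1⟩ := first_unique (w := asm u β1 β2 β3 t) (ρ := r) ⟨rfl, p0.1, b1⟩
    ⟨h, q0.1, c1⟩ p0.2.1 p0.2.2 q0.2.1 q0.2.2
  have aux : ∀ {β s β' s' : W}, β ++ a :: s = β' ++ a :: s' → Blk x β → Blk x β' → Bot s → Bot s' →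
      β = β' ∧ s = s' := by
    intro β s β' s' hh k1 k2 k3 k4
    refine first_unique (w := β ++ a :: s) (ρ := x - 1) ⟨rfl, k1.1, k3⟩ ⟨hh, k2.1, k4⟩ ?_ ?_ ?_ ?_
    · have := k1.2.2.1; omega
    · intro g hg; have := k1.2.2.2 g hg; omega
    · have := k2.2.2.1; omega
    · intro g hg; have := k2.2.2.2 g hg; omega
  obtain ⟨rfl, h2⟩ := aux h1 p1 q1 b2 c2
  obtain ⟨rfl, h3⟩ := aux h2 p2 q2 b3 c3
  obtain ⟨rfl, h4⟩ := aux h3 p3 q3 p4 q4
  exact ⟨rfl, rfl, rfl, rfl, h4⟩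

/-- Reflection of a block if the flag is set. -/
def fl (f : Bool) (β : W) : W := if f then R2 β else β

@[simp] lemma fl_fl (f : Bool) (β : W) : fl f (fl f β) = β := by cases f <;> simp [fl]
@[simp] lemma X_fl (f : Bool) (β : W) : X (fl f β) = X β := by cases f <;> simp [fl]
@[simp] lemma length_fl (f : Bool) (β : W) : (fl f β).length = β.length := by
  cases f <;> simp [fl, R2]
lemma Blk_fl {x : ℤ} {f : Bool} {β : W} (h : Blk x β) : Blk x (fl f β) := by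
  cases f
  · simpa [fl] using h
  · obtain ⟨h1, h2, h3, h4⟩ := h
    refine ⟨Top_R2 h1, Bot_R2 h2, ?_, ?_⟩
    · simpa [fl] using h3
    · intro g hg
      exact h4 g (by simpa [fl] using hg)
lemma SAW_fl {f : Bool} {β : W} (h : SAW β) : SAW (fl f β) := by
  cases f
  · simpa [fl] using h
  · simpa [fl] using h

abbrev Cd := Fin 3 × Bool × Bool × Bool

/-- The 24 rearrangements. -/
def ar (c : Cd) (β1 β2 β3 : W) : W × W × W :=
  match c.1 with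
  | 0 => (fl c.2.1 β2, fl c.2.2.1 β1, fl c.2.2.2 β3)
  | 1 => (fl c.2.1 β1, fl c.2.2.1 β2, fl c.2.2.2 β3)
  | 2 => (fl c.2.1 β1, fl c.2.2.1 β3, fl c.2.2.2 β2)

lemma ar_inv (c : Cd) : ∃ c' : Cd, ∀ β1 β2 β3,
    ar c' (ar c β1 β2 β3).1 (ar c β1 β2 β3).2.1 (ar c β1 β2 β3).2.2 = (β1, β2, β3) := by
  obtain ⟨i, f1, f2, f3⟩ := c
  fin_cases i
  · exact ⟨(0, f2, f1, f3), fun β1 β2 β3 => by simp [ar]⟩
  · exact ⟨(1, f1, f2, f3), fun β1 β2 β3 => by simp [ar]⟩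
  · exact ⟨(2, f1, f3, f2), fun β1 β2 β3 => by simp [ar]⟩

/-- The best possible value of the smaller one of the two heights of a block. -/
def mu (β : W) : ℤ := max (min (up β) (up β - Y β)) (min (up (R2 β)) (up (R2 β) + Y β))

lemma ex_mid (β : W) : ∃ f, mu β ≤ up (fl f β) ∧ mu β ≤ up (fl f β) - Y (fl f β) := by
  rcases le_total (min (up (R2 β)) (up (R2 β) + Y β)) (min (up β) (up β - Y β)) with h | h
  · refine ⟨false, ?_⟩
    have : mu β = min (up β) (up β - Y β) := max_eq_left h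
    simp only [fl, this]
    exact ⟨min_le_left _ _, min_le_right _ _⟩
  · refine ⟨true, ?_⟩
    have : mu β = min (up (R2 β)) (up (R2 β) + Y β) := max_eq_right h
    simp only [fl, this, if_true, Y_R2, sub_neg_eq_add]
    exact ⟨min_le_left _ _, min_le_right _ _⟩

lemma ex_left (β : W) : ∃ f, up (fl f β) - Y (fl f β) ≤ mu β := by
  rcases le_total 0 (Y β) with h | h
  · refine ⟨false, ?_⟩
    have h1 : min (up β) (up β - Y β) ≤ mu β := le_max_left _ _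
    simp only [fl, Bool.false_eq_true, if_false]
    omega
  · refine ⟨true, ?_⟩
    have h1 : min (up (R2 β)) (up (R2 β) + Y β) ≤ mu β := le_max_right _ _
    simp only [fl, if_true, Y_R2]
    omega

lemma ex_right (β : W) : ∃ f, up (fl f β) ≤ mu β := by
  rcases le_total 0 (Y β) with h | h
  · refine ⟨true, ?_⟩
    have h1 : min (up (R2 β)) (up (R2 β) + Y β) ≤ mu β := le_max_right _ _
    simp only [fl, if_true]
    omega
  · refine ⟨false, ?_⟩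
    have h1 : min (up β) (up β - Y β) ≤ mu β := le_max_left _ _
    simp only [fl, Bool.false_eq_true, if_false]
    omega

lemma three {β γ δ : W} (h1 : mu β ≤ mu γ) (h2 : mu δ ≤ mu γ) :
    ∃ f1 f2 f3, EE (fl f1 β) (fl f2 γ) (fl f3 δ) := by
  obtain ⟨f1, e1⟩ := ex_left β
  obtain ⟨f2, e2, e3⟩ := ex_mid γ
  obtain ⟨f3, e4⟩ := ex_right δ
  refine ⟨f1, f2, f3, ?_, ?_⟩ <;> omega

lemma ar_EE (β1 β2 β3 : W) :
    ∃ c : Cd, EE (ar c β1 β2 β3).1 (ar c β1 β2 β3).2.1 (ar c β1 β2 β3).2.2 := by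
  rcases le_total (mu β1) (mu β2) with h12 | h12
  · rcases le_total (mu β2) (mu β3) with h23 | h23
    · obtain ⟨f1, f2, f3, h⟩ := three (β := β1) (γ := β3) (δ := β2) (h12.trans h23) h23
      exact ⟨(2, f1, f2, f3), h⟩
    · obtain ⟨f1, f2, f3, h⟩ := three (β := β1) (γ := β2) (δ := β3) h12 h23
      exact ⟨(1, f1, f2, f3), h⟩
  · rcases le_total (mu β1) (mu β3) with h13 | h13
    · obtain ⟨f1, f2, f3, h⟩ := three (β := β1) (γ := β3) (δ := β2) h13 (h12.trans h13)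
      exact ⟨(2, f1, f2, f3), h⟩
    · obtain ⟨f1, f2, f3, h⟩ := three (β := β2) (γ := β1) (δ := β3) h12 h13
      exact ⟨(0, f1, f2, f3), h⟩

lemma ar_X (c : Cd) (β1 β2 β3 : W) : X β1 + X β2 + X β3 =
    X (ar c β1 β2 β3).1 + X (ar c β1 β2 β3).2.1 + X (ar c β1 β2 β3).2.2 := by
  obtain ⟨i, f1, f2, f3⟩ := c
  fin_cases i <;> simp [ar] <;> ring

lemma ar_len (c : Cd) (u β1 β2 β3 t : W) :
    (asm u (ar c β1 β2 β3).1 (ar c β1 β2 β3).2.1 (ar c β1 β2 β3).2.2 t).length =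
      (asm u β1 β2 β3 t).length := by
  obtain ⟨i, f1, f2, f3⟩ := c
  fin_cases i <;> simp [ar, asm] <;> ring

lemma ar_parse {r r' x : ℤ} {u β1 β2 β3 t : W} (c : Cd) (h : Parse r r' x u β1 β2 β3 t) :
    Parse r r' x u (ar c β1 β2 β3).1 (ar c β1 β2 β3).2.1 (ar c β1 β2 β3).2.2 t := by
  obtain ⟨p0, p1, p2, p3, p4, p5⟩ := h
  have hX := ar_X c β1 β2 β3
  refine ⟨p0, ?_, ?_, ?_, p4, by omega⟩
  all_goals
    obtain ⟨i, f1, f2, f3⟩ := c
    fin_cases i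
  · exact Blk_fl p2
  · exact Blk_fl p1
  · exact Blk_fl p1
  · exact Blk_fl p1
  · exact Blk_fl p2
  · exact Blk_fl p3
  · exact Blk_fl p3
  · exact Blk_fl p3
  · exact Blk_fl p2

lemma SAW_asm {u β1 β2 β3 t : W} (h0 : SAW u) (h1 : SAW β1) (h2 : SAW β2) (h3 : SAW β3)
    (h4 : SAW t) {r r' x : ℤ} (hp : Parse r r' x u β1 β2 β3 t) : SAW (asm u β1 β2 β3 t) := by
  obtain ⟨p0, p1, p2, p3, p4, -⟩ := hp
  have b3 := p3.2.1.append p4.cons_a
  have b2 := p2.2.1.append b3.cons_a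
  have b1 := p1.2.1.append b2.cons_a
  exact glue h0 (glue h1 (glue h2 (glue h3 h4 p3.1 p4) p2.1 b3) p1.1 b2) p0.1 b1

lemma SAW_parts {u β1 β2 β3 t : W} (h : SAW (asm u β1 β2 β3 t)) :
    SAW u ∧ SAW β1 ∧ SAW β2 ∧ SAW β3 ∧ SAW t := by
  have h1 : SAW (β1 ++ a :: (β2 ++ a :: (β3 ++ a :: t))) :=
    h.sub' ⟨u ++ [a], [], by simp [asm]⟩
  have h2 : SAW (β2 ++ a :: (β3 ++ a :: t)) := h1.sub' ⟨β1 ++ [a], [], by simp⟩
  have h3 : SAW (β3 ++ a :: t) := h2.sub' ⟨β2 ++ [a], [], by simp⟩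
  exact ⟨h.sub' ⟨[], _, rfl⟩, h1.sub' ⟨[], _, rfl⟩, h2.sub' ⟨[], _, rfl⟩, h3.sub' ⟨[], _, rfl⟩,
    h3.sub' ⟨β3 ++ [a], [], by simp⟩⟩

lemma ar_SAW {r r' x : ℤ} {u β1 β2 β3 t : W} (c : Cd) (hp : Parse r r' x u β1 β2 β3 t)
    (h : SAW (asm u β1 β2 β3 t)) :
    SAW (asm u (ar c β1 β2 β3).1 (ar c β1 β2 β3).2.1 (ar c β1 β2 β3).2.2 t) := by
  obtain ⟨h0, h1, h2, h3, h4⟩ := SAW_parts h
  refine SAW_asm h0 ?_ ?_ ?_ h4 (ar_parse c hp)
  all_goals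
    obtain ⟨i, f1, f2, f3⟩ := c
    fin_cases i
  · exact SAW_fl h2
  · exact SAW_fl h1
  · exact SAW_fl h1
  · exact SAW_fl h1
  · exact SAW_fl h2
  · exact SAW_fl h3
  · exact SAW_fl h3
  · exact SAW_fl h3
  · exact SAW_fl h2

end Ex

/-- A word does not have both a good and a bad parse. -/
lemma Good.not_bad {r r' x : ℤ} {w : W} (hg : Good r r' x w) : ¬ Bad r r' x w := by
  obtain ⟨u, b1, b2, b3, t, h1, h2, h3⟩ := hg
  rintro ⟨u', b1', b2', b3', t', h1', h2', h3'⟩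
  obtain ⟨-, e1, e2, e3, -⟩ := Ex.parse_unique' (h1.symm.trans h1') h2 h2'
  subst e1; subst e2; subst e3
  exact h3' h3

open Classical in
theorem exchange {N : ℕ} (s h : ℤ) (I : Finset ℕ) (r r' x : ℕ → ℤ)
    (hr : ∀ i ∈ I, ∀ j ∈ I, i ≠ j → r' i ≤ r j ∨ r' j ≤ r i)
    (hh : ∀ i ∈ I, h < r i ∨ r' i ≤ h) (K' : ℕ) :
    2 ^ K' * ((SAWs N).filter (fun w => X w = s ∧ Cut w h ∧
      68 * K' ≤ (I.filter (fun i => Bad (r i) (r' i) (x i) w)).card ∧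
      (I.filter (fun i => Good (r i) (r' i) (x i) w)).card ≤ K')).card ≤
    ((SAWs N).filter (fun w => X w = s ∧ Cut w h)).card :=
  exchange_core (C := Ex.Cd) Ex.ar (by simp) Ex.parse_unique' Ex.ar_EE Ex.ar_inv
    (fun c hp => Ex.ar_parse c hp) Ex.ar_X Ex.ar_len (fun c hp hs => Ex.ar_SAW c hp hs)
    s h I r r' x hr hh K'

end SW64
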