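import Pool.Agent.SW64.Defs

/-! Changing the middle part of a word inside one region does not change the parses in the other
regions (MP_26a5d6_pr, exchange lemma). -/

namespace SW64

open St

/-- There is a parse whose blocks have the property `E`. -/
def HasP (r r' x : ℤ) (E : W → W → W → Prop) (w : W) : Prop :=
  ∃ u β1 β2 β3 t, w = asm u β1 β2 β3 t ∧ Parse r r' x u β1 β2 β3 t ∧ E β1 β2 β3

/-- The two words differ only by the middle part `m` resp. `m'` inside the region `[r, r')`. -/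
structure Swap (r r' : ℤ) (w v : W) : Prop where
  out : ∃ u m m' t, w = u ++ a :: (m ++ a :: t) ∧ v = u ++ a :: (m' ++ a :: t) ∧
    Top u ∧ Top m ∧ Bot m ∧ Top m' ∧ Bot m' ∧ Bot t ∧ X m = X m' ∧ r ≤ X u ∧ X u + 1 + X m < r'

lemma Swap.symm {r r' : ℤ} {w v : W} (h : Swap r r' w v) : Swap r r' v w := by
  obtain ⟨u, m, m', t, h1, h2, h3, h4, h5, h6, h7, h8, h9, h10, h11⟩ := h.out
  exact ⟨u, m', m, t, h2, h1, h3, h6, h7, h4, h5, h8, h9.symm, h10, by omega⟩

lemma cutAt_low {u m t : W} (hu : Top u) (hm : Bot m) (ht : Bot t) :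
    CutAt (u ++ a :: (m ++ a :: t)) u (m ++ a :: t) :=
  ⟨rfl, hu, hm.append ht.cons_a⟩

lemma cutAt_high {u m t : W} (hu : Top u) (hm : Top m) (ht : Bot t) :
    CutAt (u ++ a :: (m ++ a :: t)) (u ++ a :: m) t :=
  ⟨by simp, hu.append hm.cons_a, ht⟩

lemma Swap.below {r r' q q' x : ℤ} {E : W → W → W → Prop} {w v : W} (h : Swap r r' w v)
    (hq : q' ≤ r) (hw : HasP q q' x E w) : HasP q q' x E v := by
  obtain ⟨u, m, m', t, h1, h2, h3, h4, h5, h6, h7, h8, h9, h10, h11⟩ := h.out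
  obtain ⟨uj, b1, b2, b3, tj, h12, ⟨p1, p2, p3, p4, p5, p6⟩, h14⟩ := hw
  have c1 : CutAt w (uj ++ a :: (b1 ++ a :: (b2 ++ a :: b3))) tj := by
    refine ⟨?_, ?_, p5⟩
    · rw [h12]; simp [asm]
    · exact p1.1.append ((p2.1.append ((p3.1.append (p4.1.cons_a)).cons_a)).cons_a)
  have c2 : CutAt w u (m ++ a :: t) := by
    rw [h1]; exact cutAt_low h3 h5 h8
  have hX : X (uj ++ a :: (b1 ++ a :: (b2 ++ a :: b3))) < X u := by
    simp only [X_append, X_cons, dx_a]
    omega
  obtain ⟨v', e1, e2, e3, e4⟩ := cut_lt c1 c2 hX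
  refine ⟨uj, b1, b2, b3, v' ++ a :: (m' ++ a :: t), ?_, ⟨p1, p2, p3, p4, ?_, p6⟩, h14⟩
  · rw [h2, e1]; simp [asm]
  · exact e4.append (h7.append h8.cons_a).cons_a

lemma Swap.above {r r' q q' x : ℤ} {E : W → W → W → Prop} {w v : W} (h : Swap r r' w v)
    (hq : r' ≤ q) (hw : HasP q q' x E w) : HasP q q' x E v := by
  obtain ⟨u, m, m', t, h1, h2, h3, h4, h5, h6, h7, h8, h9, h10, h11⟩ := h.out
  obtain ⟨uj, b1, b2, b3, tj, h12, ⟨⟨p1, p1', p1''⟩, p2, p3, p4, p5, p6⟩, h14⟩ := hw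
  have c1 : CutAt w uj (b1 ++ a :: (b2 ++ a :: (b3 ++ a :: tj))) := by
    refine ⟨h12, p1, ?_⟩
    exact p2.2.1.append ((p3.2.1.append ((p4.2.1.append p5.cons_a).cons_a)).cons_a)
  have c2 : CutAt w (u ++ a :: m) t := by
    rw [h1]; exact cutAt_high h3 h4 h8
  have hX : X (u ++ a :: m) < X uj := by
    simp only [X_append, X_cons, dx_a]
    omega
  obtain ⟨v', e1, e2, e3, e4⟩ := cut_lt c2 c1 hX
  have hXe : X (u ++ a :: m') = X (u ++ a :: m) := by
    simp only [X_append, X_cons, dx_a]; omega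
  have hXe2 : X ((u ++ a :: m') ++ a :: v') = X uj := by
    rw [e1]
    simp only [X_append, X_cons, dx_a]; omega
  refine ⟨(u ++ a :: m') ++ a :: v', b1, b2, b3, tj, ?_, ⟨⟨?_, ?_, ?_⟩, p2, p3, p4, p5, ?_⟩, h14⟩
  · rw [h2, e2]; simp [asm]
  · exact (h3.append h6.cons_a).append e3.cons_a
  · rw [hXe2]; exact p1'
  · intro g hg
    rw [Cut_append_iff (h3.append h6.cons_a) e4] at hg
    rcases hg with hg | hg | hg
    · have := hg.range
      rw [hXe] at this
      simp only [X_append, X_cons, dx_a] at this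
      omega
    · rw [hXe] at hg
      simp only [X_append, X_cons, dx_a] at hg
      omega
    · apply p1''
      rw [e1, Cut_append_iff (h3.append h4.cons_a) e4]
      right; right
      rw [hXe] at hg
      exact hg
  · rw [hXe2]; exact p6

lemma Swap.hasP_iff {r r' q q' x : ℤ} {E : W → W → W → Prop} {w v : W} (h : Swap r r' w v)
    (hq : q' ≤ r ∨ r' ≤ q) : HasP q q' x E v ↔ HasP q q' x E w := by
  rcases hq with hq | hq
  · exact ⟨h.symm.below hq, h.below hq⟩
  · exact ⟨h.symm.above hq, h.above hq⟩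

lemma Swap.cut {r r' g : ℤ} {w v : W} (h : Swap r r' w v) (hg : g < r ∨ r' ≤ g) (hw : Cut w g) :
    Cut v g := by
  obtain ⟨u, m, m', t, h1, h2, h3, h4, h5, h6, h7, h8, h9, h10, h11⟩ := h.out
  rcases hg with hg | hg
  · rw [h1, Cut_append_iff h3 (h5.append h8.cons_a)] at hw
    rw [h2, Cut_append_iff h3 (h7.append h8.cons_a)]
    rcases hw with hw | hw | hw
    · exact Or.inl hw
    · exact Or.inr (Or.inl hw)
    · have := hw.range
      omega
  · have e1 : w = (u ++ a :: m) ++ a :: t := by rw [h1]; simp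
    have e2 : v = (u ++ a :: m') ++ a :: t := by rw [h2]; simp
    have hXe : X (u ++ a :: m') = X (u ++ a :: m) := by
      simp only [X_append, X_cons, dx_a]; omega
    rw [e1, Cut_append_iff (h3.append h4.cons_a) h8] at hw
    rw [e2, Cut_append_iff (h3.append h6.cons_a) h8, hXe]
    rcases hw with hw | hw | hw
    · have := hw.range
      simp only [X_append, X_cons, dx_a] at this
      omega
    · exact Or.inr (Or.inl hw)
    · exact Or.inr (Or.inr hw)

/-- Two parses with the same outer parts and the same total displacement of the blocks. -/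
lemma swap_of_parse {r r' x : ℤ} {u β1 β2 β3 γ1 γ2 γ3 t : W} (h : Parse r r' x u β1 β2 β3 t)
    (h' : Parse r r' x u γ1 γ2 γ3 t) (hX : X β1 + X β2 + X β3 = X γ1 + X γ2 + X γ3) :
    Swap r r' (asm u β1 β2 β3 t) (asm u γ1 γ2 γ3 t) := by
  obtain ⟨p1, p2, p3, p4, p5, p6⟩ := h
  obtain ⟨q1, q2, q3, q4, q5, q6⟩ := h'
  refine ⟨u, β1 ++ a :: (β2 ++ a :: β3), γ1 ++ a :: (γ2 ++ a :: γ3), t, by simp [asm],
    by simp [asm], p1.1, ?_, ?_, ?_, ?_, p5, ?_, p1.2.1, ?_⟩
  · exact p2.1.append ((p3.1.append p4.1.cons_a).cons_a)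
  · exact p2.2.1.append ((p3.2.1.append p4.2.1.cons_a).cons_a)
  · exact q2.1.append ((q3.1.append q4.1.cons_a).cons_a)
  · exact q2.2.1.append ((q3.2.1.append q4.2.1.cons_a).cons_a)
  · simp only [X_append, X_cons, dx_a]; omega
  · simp only [X_append, X_cons, dx_a]; omega

end SW64
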