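import Pool.Agent.SW64.Defs

/-! The regions of a tree path are disjoint (MP_26a5d6_pr, blueprint T4). -/

namespace SW64

lemma pow90_pos (i : ℕ) : (0 : ℤ) < 90 ^ i := by positivity

lemma al_range (o h : ℤ) (i : ℕ) : al o h i ≤ h ∧ h < al o h i + 90 ^ i := by
  have h1 := Int.mul_ediv_add_emod (h - o) (90 ^ i)
  have h2 := Int.emod_nonneg (h - o) (pow90_pos i).ne'
  have h3 := Int.emod_lt_of_pos (h - o) (pow90_pos i)
  unfold al
  constructor <;> omega

/-- The position of a node inside its parent. -/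
lemma al_step (o h : ℤ) (i : ℕ) : ∃ m : ℤ, 0 ≤ m ∧ m < 90 ∧
    al o h i = al o h (i + 1) + 90 ^ i * m := by
  refine ⟨((h - o) / 90 ^ i) % 90, Int.emod_nonneg _ (by norm_num), Int.emod_lt_of_pos _ (by norm_num),
    ?_⟩
  unfold al
  rw [pow_succ, ← Int.ediv_ediv_of_nonneg (pow90_pos i).le]
  have h1 := Int.mul_ediv_add_emod ((h - o) / 90 ^ i) 90
  linear_combination (90 ^ i : ℤ) * (-h1)

lemma al_half (o h : ℤ) (i : ℕ) :
    (h - al o h (i + 1) < 45 * 90 ^ i → al o h i + 90 ^ i ≤ al o h (i + 1) + 45 * 90 ^ i) ∧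
    (¬ h - al o h (i + 1) < 45 * 90 ^ i → al o h (i + 1) + 45 * 90 ^ i ≤ al o h i) := by
  obtain ⟨m, h0, h1, h2⟩ := al_step o h i
  obtain ⟨h3, h4⟩ := al_range o h i
  have hp := pow90_pos i
  constructor
  · intro h5
    have h6 : m < 45 := by
      by_contra hc
      have : (90 : ℤ) ^ i * 45 ≤ 90 ^ i * m := by
        apply mul_le_mul_of_nonneg_left _ hp.le
        omega
      omega
    have h7 : (90 : ℤ) ^ i * m ≤ 90 ^ i * 44 := by
      apply mul_le_mul_of_nonneg_left _ hp.le
      omega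
    omega
  · intro h5
    have h6 : 45 ≤ m := by
      by_contra hc
      have : (90 : ℤ) ^ i * m ≤ 90 ^ i * 44 := by
        apply mul_le_mul_of_nonneg_left _ hp.le
        omega
      omega
    have h7 : (90 : ℤ) ^ i * 45 ≤ 90 ^ i * m := by
      apply mul_le_mul_of_nonneg_left _ hp.le
      omega
    omega

lemma al_succ (o h : ℤ) (i : ℕ) :
    al o h (i + 1) ≤ al o h i ∧ al o h i + 90 ^ i ≤ al o h (i + 1) + 90 ^ (i + 1) := by
  obtain ⟨m, h0, h1, h2⟩ := al_step o h i
  have hp := pow90_pos i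
  have h3 : (90 : ℤ) ^ i * m ≤ 90 ^ i * 89 := by
    apply mul_le_mul_of_nonneg_left _ hp.le
    omega
  have h4 : 0 ≤ (90 : ℤ) ^ i * m := mul_nonneg hp.le h0
  rw [pow_succ]
  constructor <;> omega

lemma al_mono (o h : ℤ) {i j : ℕ} (hij : i ≤ j) :
    al o h j ≤ al o h i ∧ al o h i + 90 ^ i ≤ al o h j + 90 ^ j := by
  induction j, hij using Nat.le_induction with
  | base => exact ⟨le_rfl, le_rfl⟩
  | succ j _ ih =>
    have := al_succ o h j
    constructor <;> omega

lemma region_sub (o h : ℤ) (i : ℕ) :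
    al o h (i + 1) ≤ rlo o h i ∧ rhi o h i ≤ al o h (i + 1) + 90 ^ (i + 1) := by
  have hp := pow90_pos i
  unfold rhi rlo
  rw [pow_succ]
  split_ifs <;> constructor <;> omega

theorem regions_disj (o h : ℤ) {i j : ℕ} (hij : i ≠ j) :
    rhi o h i ≤ rlo o h j ∨ rhi o h j ≤ rlo o h i := by
  have key : ∀ {i j : ℕ}, i < j → rhi o h i ≤ rlo o h j ∨ rhi o h j ≤ rlo o h i := by
    intro i j hij
    have h1 := region_sub o h i
    have h2 := al_mono o h (Nat.succ_le_of_lt hij)
    have h3 := al_half o h j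
    by_cases h4 : h - al o h (j + 1) < 45 * 90 ^ j
    · left
      have h5 := h3.1 h4
      have h6 : rlo o h j = al o h (j + 1) + 45 * 90 ^ j := by
        unfold rlo
        rw [if_pos h4]
      have h7 := h2.2
      simp only [Nat.succ_eq_add_one] at h7
      omega
    · right
      have h5 := h3.2 h4
      have h6 : rhi o h j = al o h (j + 1) + 45 * 90 ^ j := by
        unfold rhi rlo
        rw [if_neg h4]
      have h7 := h2.1
      simp only [Nat.succ_eq_add_one] at h7
      omega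
  rcases lt_or_gt_of_ne hij with h1 | h1
  · exact key h1
  · exact (key h1).symm

theorem region_h (o h : ℤ) (i : ℕ) : h < rlo o h i ∨ rhi o h i ≤ h := by
  unfold rhi rlo
  split_ifs with h1
  · left; omega
  · right; omega

end SW64
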